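import Pool.Agent.X112.WD.Pj
import Mathlib.Analysis.InnerProductSpace.PiL2
import Mathlib.Analysis.InnerProductSpace.Projection.Basic

/-! # Orthonormal families from a subspace -/

set_option autoImplicit false

namespace Pool.Agent.X112.WD

open Module

lemma inner_E {L : ℕ} (x y : EuclideanSpace ℝ (Fin L)) : inner ℝ x y = ∑ j, x j * y j := by
  rw [PiLp.inner_apply]
  refine Finset.sum_congr rfl fun j _ => ?_
  simp [mul_comm]

theorem fam_sub (L : ℕ) (K : Submodule ℝ (EuclideanSpace ℝ (Fin L))) (o : EuclideanSpace ℝ (Fin L))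
    (ho : ∀ j, o j = 1) (h1 : o ∈ K) :
    ∃ (u : Fin (finrank ℝ Kᗮ) → Fin L → ℝ) (w : Fin (finrank ℝ K) → Fin L → ℝ), Fam u w ∧
      ∀ k, ∀ x ∈ K, ∑ j, u k j * x j = 0 := by
  obtain ⟨b, hb⟩ : ∃ b : OrthonormalBasis (Fin (finrank ℝ K)) ℝ K, b = stdOrthonormalBasis ℝ K := ⟨_, rfl⟩
  obtain ⟨c, hc⟩ : ∃ c : OrthonormalBasis (Fin (finrank ℝ Kᗮ)) ℝ Kᗮ, c = stdOrthonormalBasis ℝ Kᗮ := ⟨_, rfl⟩
  have hort : ∀ k, ∀ x ∈ K, ∑ j, (c k : EuclideanSpace ℝ (Fin L)) j * x j = 0 := by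
    intro k x hx
    rw [← inner_E]
    have := (Submodule.mem_orthogonal K _).1 (c k).2 x hx
    rw [real_inner_comm]
    exact this
  have hpyth : ∀ x : EuclideanSpace ℝ (Fin L), ∑ k, (inner ℝ (c k : EuclideanSpace ℝ (Fin L)) x) ^ 2 +
      ∑ l, (inner ℝ (b l : EuclideanSpace ℝ (Fin L)) x) ^ 2 = ‖x‖ ^ 2 := by
    intro x
    have e1 : ∀ (S : Submodule ℝ (EuclideanSpace ℝ (Fin L))) (n : ℕ) (b : OrthonormalBasis (Fin n) ℝ S),
        ∑ l, (inner ℝ (b l : EuclideanSpace ℝ (Fin L)) x) ^ 2 = ‖S.orthogonalProjection x‖ ^ 2 := by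
      intro S n b
      rw [← b.sum_sq_norm_inner_right (S.orthogonalProjection x)]
      refine Finset.sum_congr rfl fun l _ => ?_
      rw [Real.norm_eq_abs, sq_abs]
      congr 1
      exact (Submodule.inner_orthogonalProjection_eq_of_mem_left (b l) x).symm
    rw [e1 Kᗮ _ c, e1 K _ b, add_comm]
    exact (K.norm_sq_eq_add_norm_sq_projection x).symm
  refine ⟨fun k j => (c k : EuclideanSpace ℝ (Fin L)) j, fun l j => (b l : EuclideanSpace ℝ (Fin L)) j, ⟨?_, ?_, ?_, ?_⟩, hort⟩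
  · intro k k'
    rw [← inner_E]
    have := (orthonormal_iff_ite.1 c.orthonormal) k k'
    exact this
  · intro l
    have h2 := inner_E (b l : EuclideanSpace ℝ (Fin L)) (b l : EuclideanSpace ℝ (Fin L))
    have h3 := (orthonormal_iff_ite.1 b.orthonormal) l l
    rw [if_pos rfl] at h3
    have h4 : inner ℝ (b l : EuclideanSpace ℝ (Fin L)) (b l : EuclideanSpace ℝ (Fin L)) = 1 := h3
    rw [h4] at h2
    rw [h2]
    refine Finset.sum_congr rfl fun j _ => ?_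
    ring
  · intro x
    have h2 := hpyth (WithLp.toLp 2 x)
    simp only [inner_E] at h2
    rw [EuclideanSpace.norm_sq_eq] at h2
    simpa [sq_abs] using h2
  · intro k
    have := hort k o h1
    simpa [ho] using this

theorem fam_exists (L : ℕ) (V : Submodule ℝ (Fin L → ℝ)) (p : Fin L → ℝ) :
    ∃ (r s : ℕ) (u : Fin r → Fin L → ℝ) (w : Fin s → Fin L → ℝ), Fam u w ∧ s ≤ finrank ℝ V + 3 ∧
      (∀ k, ∑ j, u k j * ((j : ℕ) : ℝ) = 0) ∧ (∀ k, ∀ v ∈ V, ∑ j, u k j * v j = 0) ∧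
      ∀ k, ∑ j, u k j * p j = 0 := by
  obtain ⟨e, he⟩ : ∃ e : (Fin L → ℝ) ≃ₗ[ℝ] EuclideanSpace ℝ (Fin L), e = (WithLp.linearEquiv 2 ℝ (Fin L → ℝ)).symm :=
    ⟨_, rfl⟩
  have hev : ∀ x : Fin L → ℝ, ∀ j, e x j = x j := by
    intro x j
    rw [he]
    rfl
  obtain ⟨q, hq⟩ : ∃ q : Fin 3 → EuclideanSpace ℝ (Fin L),
      q = ![e p, e (fun _ => 1), e (fun j => ((j : ℕ) : ℝ))] := ⟨_, rfl⟩
  obtain ⟨K, hK⟩ : ∃ K : Submodule ℝ (EuclideanSpace ℝ (Fin L)),
      K = V.map (e : (Fin L → ℝ) →ₗ[ℝ] EuclideanSpace ℝ (Fin L)) ⊔ Submodule.span ℝ (Set.range q) := ⟨_, rfl⟩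
  have hq' : ∀ i, q i ∈ K := by
    intro i
    rw [hK]
    exact Submodule.mem_sup_right (Submodule.subset_span ⟨i, rfl⟩)
  have hV : ∀ v ∈ V, e v ∈ K := by
    intro v hv
    rw [hK]
    exact Submodule.mem_sup_left (Submodule.mem_map_of_mem hv)
  have h0 : e p ∈ K := by have := hq' 0; rw [hq] at this; simpa using this
  have h1 : e (fun _ => 1) ∈ K := by have := hq' 1; rw [hq] at this; simpa using this
  have h2 : e (fun j => ((j : ℕ) : ℝ)) ∈ K := by have := hq' 2; rw [hq] at this; simpa using this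
  obtain ⟨u, w, hF, hort⟩ := fam_sub L K (e (fun _ => 1)) (fun j => hev _ j) h1
  refine ⟨_, _, u, w, hF, ?_, ?_, ?_, ?_⟩
  · rw [hK]
    refine (Submodule.finrank_add_le_finrank_add_finrank _ _).trans ?_
    refine Nat.add_le_add (Submodule.finrank_map_le _ _) ?_
    exact (finrank_range_le_card q).trans (by simp)
  · intro k
    have := hort k _ h2
    simpa [hev] using this
  · intro k v hv
    have := hort k _ (hV v hv)
    simpa [hev] using this
  · intro k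
    have := hort k _ h0
    simpa [hev] using this

end Pool.Agent.X112.WD
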