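import Pool.Agent.X112.LF.Blk2

/-! # From heights to zeros: a general form -/

set_option autoImplicit false

namespace Pool.Agent.X112.WD

open Filter Topology MeasureTheory Set
open SG (ord NZ)
open Pool.Agent.Y743.NC (dev dev_nonneg dev_int var_le unit_count)
open Pool.Agent.Y743.CL (exM big_ev)
open Pool.Agent.X112.SD (palmG Bd Bd_meas Bd_le)

theorem palm_block (ε : ℝ) (hε : 0 < ε) : ∃ h : ℕ, 1 ≤ h ∧ ∃ T0 : ℝ, 1 ≤ T0 ∧ ∀ T : ℝ, T0 ≤ T →
      ∀ (F : Finset ℕ) (D : Set ℝ), MeasurableSet D → D ⊆ Icc T (2 * T) → F ⊆ Finset.Ioc (NZ T) (NZ (2 * T)) →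
      (∀ n ∈ F, ∀ t ∈ Icc T (2 * T), ∀ i : ℕ, 1 ≤ i → i ≤ h → n = NZ t + i → t ∈ D) →
      (F.card : ℝ) ≤ (volume.real D + ε * T) * (Real.log T / (2 * Real.pi)) := by
  classical
  have hpi := Real.pi_pos
  obtain ⟨δ, hδd⟩ : ∃ δ : ℝ, δ = min (ε / 8) 1 := ⟨_, rfl⟩
  have hδ : 0 < δ := by rw [hδd]; positivity
  have hδ1 : δ ≤ 1 := by rw [hδd]; exact min_le_right _ _
  have hδε : δ ≤ ε / 8 := by rw [hδd]; exact min_le_left _ _
  obtain ⟨C1, T1, hC1, hT1, hvar⟩ := var_le
  obtain ⟨C3, T3, hC3, hT3, hBd⟩ := Bd_le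
  obtain ⟨M, hM1, hM⟩ := exM (C1 + C3) δ hδ
  obtain ⟨C2, hC2, huc⟩ := unit_count
  have hM0 : 0 < M := by linarith
  obtain ⟨T5, hT5, hbig⟩ := big_ev M (2 * C2) δ hδ
  refine ⟨⌈2 * M⌉₊, Nat.one_le_iff_ne_zero.2 (by
    have : 0 < ⌈2 * M⌉₊ := Nat.ceil_pos.2 (by linarith)
    omega), max (max T1 T3) (max T5 10), le_trans (by norm_num) ((le_max_right _ _).trans (le_max_right _ _)), ?_⟩
  intro T hT F D hDm hDs hFs hFD
  have hTT1 : T1 ≤ T := ((le_max_left _ _).trans (le_max_left _ _)).trans hT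
  have hTT3 : T3 ≤ T := ((le_max_right _ _).trans (le_max_left _ _)).trans hT
  have hTT5 : T5 ≤ T := ((le_max_left _ _).trans (le_max_right _ _)).trans hT
  have hT10 : 10 ≤ T := ((le_max_right _ _).trans (le_max_right _ _)).trans hT
  obtain ⟨g1, g2, g4, g5⟩ := hbig T hTT5
  have hL0 : 0 < Real.log T := Real.log_pos (by linarith)
  set u : ℝ := 2 * Real.pi / Real.log T with hu
  have hu0 : 0 < u := by positivity
  -- the sets
  set U : Set ℝ := Bd T M 0 M ∪ D with hU
  have hUm : MeasurableSet U := (Bd_meas _ _ _ _).union hDm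
  have hlM : 0 ≤ Real.log (1 + M) := Real.log_nonneg (by linarith)
  have hM2 : C1 + C3 + Real.log (1 + M) ≤ δ ^ 2 * M ^ 2 := by
    have h1 : Real.sqrt (C1 + C3 + Real.log (1 + M)) ^ 2 = C1 + C3 + Real.log (1 + M) := Real.sq_sqrt (by linarith)
    have h2 := pow_le_pow_left₀ (Real.sqrt_nonneg _) hM 2
    rw [h1, mul_pow] at h2
    exact h2
  have m3 : volume.real (Bd T M 0 M) ≤ δ * T := by
    have h1 := hBd T hTT3 M 0 M M hM0 hM1 (by rw [sub_zero, abs_of_pos hM0]) g1
      (by rw [abs_of_pos hM0, ← hu]; exact g2) (by rw [abs_zero, zero_mul]; norm_num)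
    refine h1.trans ?_
    rw [mul_comm]
    apply mul_le_mul_of_nonneg_right _ (by linarith)
    rw [div_le_iff₀ (by positivity)]
    have h3 : δ ^ 2 * M ^ 2 ≤ δ * M ^ 2 := by
      apply mul_le_mul_of_nonneg_right _ (sq_nonneg _)
      nlinarith
    linarith
  have mU : volume.real U ≤ volume.real D + δ * T := by
    have a3 := measureReal_union_le (μ := volume) (Bd T M 0 M) D
    rw [hU]
    linarith
  -- the zeros
  set s : ℝ := Real.sqrt (C1 + Real.log (1 + M)) with hsd
  have hs0 : 0 < s := Real.sqrt_pos.2 (by linarith)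
  have hs2 : s ^ 2 = C1 + Real.log (1 + M) := Real.sq_sqrt (by linarith)
  have hsM : s ≤ δ * M := by
    refine le_trans ?_ hM
    rw [hsd]
    apply Real.sqrt_le_sqrt
    linarith
  set S := F.filter (fun n => T + 2 ≤ ord n ∧ ord n ≤ 2 * T - 1) with hS
  have hmem : ∀ n ∈ F, NZ T < n ∧ n ≤ NZ (2 * T) := by
    intro n hn
    exact Finset.mem_Ioc.1 (hFs hn)
  have hpalm := palmG (T := T) (M := M) (s := s) (by linarith) hM0 hs0 S U hUm
    (fun n hn => by have := (hmem n (Finset.mem_filter.1 hn).1).1; omega)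
    (fun n hn => by
      have := (Finset.mem_filter.1 hn).2.1
      rw [← hu]
      linarith)
    (fun n hn => by have := (Finset.mem_filter.1 hn).2.2; linarith)
    (by
      intro n hn t ht1 ht2
      rw [← hu] at ht1
      obtain ⟨hnF, hn1, hn2⟩ := Finset.mem_filter.1 hn
      obtain ⟨b1, b2⟩ := hmem n hnF
      have hn0 : 1 ≤ n := by omega
      have htI : t ∈ Icc (T + 1) (2 * T - 1) := ⟨by linarith, by linarith⟩
      by_contra hcon
      rw [hU, mem_union, not_or] at hcon
      obtain ⟨n2, n3⟩ := hcon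
      have p0 : (NZ (t + M * u) : ℝ) - NZ t - M ≤ M := by
        by_contra hc
        push Not at hc
        apply n2
        refine ⟨htI, ?_⟩
        rw [zero_mul, add_zero, sub_zero, ← hu]
        exact lt_of_lt_of_le hc (le_abs_self _)
      have p1 : n ≤ NZ (t + M * u) := (SG.ord_le_iff hn0 _).mp ht1
      have p2 : NZ t < n := by
        by_contra hc
        push Not at hc
        have := (SG.ord_le_iff hn0 t).mpr hc
        linarith
      refine n3 (hFD n hnF t ⟨by linarith [htI.1], by linarith [htI.2]⟩ (n - NZ t) (by omega) ?_ (by omega))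
      have p3 : ((n - NZ t : ℕ) : ℝ) ≤ 2 * M := by
        rw [Nat.cast_sub p2.le]
        have : (n : ℝ) ≤ NZ (t + M * u) := by exact_mod_cast p1
        linarith
      have p4 : ((n - NZ t : ℕ) : ℝ) ≤ (⌈2 * M⌉₊ : ℝ) := p3.trans (Nat.le_ceil _)
      exact_mod_cast p4)
  rw [← hu] at hpalm
  have hdev := hvar T hTT1 M hM0 g1
  have hdev2 : (1 / s) * ∫ t in Icc T (2 * T), dev T M t ≤ s * T := by
    calc (1 / s) * ∫ t in Icc T (2 * T), dev T M t ≤ (1 / s) * (T * s ^ 2) := by
          rw [hs2]; exact mul_le_mul_of_nonneg_left hdev (by positivity)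
      _ = s * T := by field_simp
  have hUT : volume.real (U ∩ Icc T (2 * T)) ≤ volume.real D + δ * T := by
    refine le_trans (measureReal_mono inter_subset_left ?_) mU
    have hsubU : U ⊆ Icc T (2 * T) := by
      rintro t (ht | ht)
      · exact ⟨by linarith [ht.1.1], by linarith [ht.1.2]⟩
      · exact hDs ht
    exact ne_top_of_le_ne_top (by rw [Real.volume_Icc]; exact ENNReal.ofReal_ne_top) (measure_mono hsubU)
  have hS1 : M * u * S.card ≤ M * (volume.real D + δ * T) + δ * M * T := by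
    have a1 : M * volume.real (U ∩ Icc T (2 * T)) ≤ M * (volume.real D + δ * T) :=
      mul_le_mul_of_nonneg_left hUT hM0.le
    have a2 : s * T ≤ δ * M * T := mul_le_mul_of_nonneg_right hsM (by linarith)
    linarith
  have hS2 : (S.card : ℝ) ≤ (volume.real D + 2 * δ * T) * (Real.log T / (2 * Real.pi)) := by
    have a1 : u * S.card ≤ volume.real D + 2 * δ * T := by
      have : M * (u * S.card) ≤ M * (volume.real D + 2 * δ * T) := by linarith
      exact le_of_mul_le_mul_left this hM0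
    have a2 : (volume.real D + 2 * δ * T) * (Real.log T / (2 * Real.pi)) = (volume.real D + 2 * δ * T) / u := by
      rw [hu]; field_simp
    rw [a2, le_div_iff₀ hu0]
    linarith
  have hrest : ((F.filter (fun n => ¬ (T + 2 ≤ ord n ∧ ord n ≤ 2 * T - 1))).card : ℝ) ≤
      2 * (2 * C2 * Real.log (2 * T)) := by
    have hsub : F.filter (fun n => ¬ (T + 2 ≤ ord n ∧ ord n ≤ 2 * T - 1)) ⊆
        (Finset.Ioc (NZ T) (NZ (T + 1)) ∪ Finset.Ioc (NZ (T + 1)) (NZ (T + 1 + 1))) ∪
        Finset.Ioc (NZ (2 * T - 1)) (NZ (2 * T - 1 + 1)) := by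
      intro n hn
      rw [Finset.mem_filter] at hn
      obtain ⟨b1, b2⟩ := hn
      obtain ⟨a1, a2⟩ := hmem n b1
      rw [Finset.mem_union, Finset.mem_union, Finset.mem_Ioc, Finset.mem_Ioc, Finset.mem_Ioc]
      by_cases b3 : T + 2 ≤ ord n
      · right
        have b4 : ¬ (ord n ≤ 2 * T - 1) := fun hc => b2 ⟨b3, hc⟩
        push Not at b4
        have e : 2 * T - 1 + 1 = 2 * T := by ring
        rw [e]
        refine ⟨?_, a2⟩
        by_contra hcon
        push Not at hcon
        have := (SG.ord_le_iff (by omega) _).mpr hcon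
        linarith
      · left
        push Not at b3
        by_cases b5 : n ≤ NZ (T + 1)
        · left; exact ⟨a1, b5⟩
        · right
          refine ⟨by omega, (SG.ord_le_iff (by omega) _).mp ?_⟩
          linarith
    have h1 := ((Finset.card_le_card hsub).trans (Finset.card_union_le _ _)).trans
      (Nat.add_le_add_right (Finset.card_union_le _ _) _)
    rw [Nat.card_Ioc, Nat.card_Ioc, Nat.card_Ioc] at h1
    have hmono : NZ T ≤ NZ (T + 1) := SG.NZ_mono (by linarith)
    have hmono1 : NZ (T + 1) ≤ NZ (T + 1 + 1) := SG.NZ_mono (by linarith)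
    have hmono2 : NZ (2 * T - 1) ≤ NZ (2 * T - 1 + 1) := SG.NZ_mono (by linarith)
    have h2 : ((F.filter (fun n => ¬ (T + 2 ≤ ord n ∧ ord n ≤ 2 * T - 1))).card : ℝ) ≤
        ((NZ (T + 1) - NZ T : ℕ) : ℝ) + ((NZ (T + 1 + 1) - NZ (T + 1) : ℕ) : ℝ) +
        ((NZ (2 * T - 1 + 1) - NZ (2 * T - 1) : ℕ) : ℝ) := by
      exact_mod_cast h1
    rw [Nat.cast_sub hmono, Nat.cast_sub hmono1, Nat.cast_sub hmono2] at h2
    have h3 := huc T (by linarith)
    have h3' := huc (T + 1) (by linarith)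
    have h4 := huc (2 * T - 1) (by linarith)
    have a1 : Real.log T ≤ Real.log (2 * T) := Real.log_le_log (by linarith) (by linarith)
    have a2 : C2 * Real.log T ≤ C2 * Real.log (2 * T) := mul_le_mul_of_nonneg_left a1 hC2.le
    have a1' : Real.log (T + 1) ≤ Real.log (2 * T) := Real.log_le_log (by linarith) (by linarith)
    have a2' : C2 * Real.log (T + 1) ≤ C2 * Real.log (2 * T) := mul_le_mul_of_nonneg_left a1' hC2.le
    have a3 : Real.log (2 * T - 1) ≤ Real.log (2 * T) := Real.log_le_log (by linarith) (by linarith)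
    have a4 : C2 * Real.log (2 * T - 1) ≤ C2 * Real.log (2 * T) := mul_le_mul_of_nonneg_left a3 hC2.le
    have a5 : 0 ≤ C2 * Real.log (2 * T) := mul_nonneg hC2.le (Real.log_nonneg (by linarith))
    linarith
  have hsplit := Finset.card_filter_add_card_filter_not (s := F)
    (fun n => T + 2 ≤ ord n ∧ ord n ≤ 2 * T - 1)
  have hsplit' : (F.card : ℝ) = S.card +
      ((F.filter (fun n => ¬ (T + 2 ≤ ord n ∧ ord n ≤ 2 * T - 1))).card : ℝ) := by
    exact_mod_cast hsplit.symm
  have hTL : 0 ≤ T * Real.log T / (2 * Real.pi) := by positivity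
  rw [hsplit']
  have hfin : (volume.real D + 2 * δ * T) * (Real.log T / (2 * Real.pi)) + δ * (T * Real.log T / (2 * Real.pi)) ≤
      (volume.real D + ε * T) * (Real.log T / (2 * Real.pi)) := by
    have e : (volume.real D + 2 * δ * T) * (Real.log T / (2 * Real.pi)) + δ * (T * Real.log T / (2 * Real.pi)) =
      (volume.real D + 3 * δ * T) * (Real.log T / (2 * Real.pi)) := by ring
    rw [e]
    apply mul_le_mul_of_nonneg_right _ (by positivity)
    nlinarith
  linarith

end Pool.Agent.X112.WD
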