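import Pool.Agent.X112.WD.Po5
import Pool.Agent.X112.WD.Fs
import Pool.Agent.X112.WD.Pm

/-! # The block bound for one subspace -/

set_option autoImplicit false

namespace Pool.Agent.X112.WD

open MeasureTheory Filter Topology Module
open SG (ord NZ)
open Pool.Agent.Y743.CL (rc XK G er VS VS_nonneg)

lemma num_M (ε lam C : ℝ) (hε : 0 < ε) (hε1 : ε ≤ 1) (hlam : 16 ≤ lam) : ∀ᶠ L : ℕ in atTop,
    2 ≤ L ∧ ∃ i0 : ℕ, 1 ≤ i0 ∧ lam ≤ ((7 * L ^ 2 : ℕ) : ℝ) / i0 ∧
      ∀ s : ℕ, (s : ℝ) ≤ (L : ℝ) ^ (1 - ε) + 3 →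
        ε / 50 * (L * Real.log L) ≤ (L * (2 / Real.pi ^ 2 * Real.log (((7 * L ^ 2 : ℕ) : ℝ) / i0) - C) -
          s * (8 * ((7 * L ^ 2 : ℕ) : ℝ) / i0)) / 4 := by
  have hlog : Tendsto (fun L : ℕ => Real.log (L : ℝ)) atTop atTop :=
    Real.tendsto_log_atTop.comp tendsto_natCast_atTop_atTop
  have hr : Tendsto (fun L : ℕ => ((L : ℝ)) ^ (ε / 2)) atTop atTop :=
    (tendsto_rpow_atTop (by linarith)).comp tendsto_natCast_atTop_atTop
  filter_upwards [hr.eventually_ge_atTop (2 * lam), hlog.eventually_ge_atTop ((C + 33) * 50 / ε),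
    eventually_ge_atTop 2] with L hL1 hL2 hL3
  refine ⟨hL3, ?_⟩
  have hL3' : (2 : ℝ) ≤ L := by exact_mod_cast hL3
  have hL0 : (0 : ℝ) < L := by linarith
  obtain ⟨x, hx⟩ : ∃ x : ℝ, x = (L : ℝ) ^ (ε / 2) := ⟨_, rfl⟩
  rw [← hx] at hL1
  have hx0 : 0 < x := by linarith
  have hxL : x ≤ L := by
    rw [hx]
    calc (L : ℝ) ^ (ε / 2) ≤ (L : ℝ) ^ (1 : ℝ) := Real.rpow_le_rpow_of_exponent_le (by linarith) (by linarith)
      _ = L := Real.rpow_one _
  obtain ⟨M, hM⟩ : ∃ M : ℝ, M = ((7 * L ^ 2 : ℕ) : ℝ) := ⟨_, rfl⟩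
  have hM' : M = 7 * (L : ℝ) ^ 2 := by rw [hM]; push_cast; ring
  have hM0 : 0 < M := by rw [hM']; positivity
  have hxM : x ≤ M := by rw [hM']; nlinarith
  rw [← hM]
  obtain ⟨i0, hi0⟩ : ∃ i0 : ℕ, i0 = ⌈M / x⌉₊ := ⟨_, rfl⟩
  have hi1 : M / x ≤ i0 := by rw [hi0]; exact Nat.le_ceil _
  have hMx : 1 ≤ M / x := by rw [le_div_iff₀ hx0]; linarith
  have hi2 : (i0 : ℝ) ≤ 2 * (M / x) := by
    have : (i0 : ℝ) < M / x + 1 := by rw [hi0]; exact Nat.ceil_lt_add_one (by positivity)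
    linarith
  have hi3 : (1 : ℝ) ≤ i0 := hMx.trans hi1
  have hi4 : 1 ≤ i0 := by exact_mod_cast hi3
  have hi00 : (0 : ℝ) < i0 := by linarith
  have hup : M / i0 ≤ x := by
    rw [div_le_iff₀ hi00]
    rw [div_le_iff₀ hx0] at hi1
    linarith
  have hlow : x / 2 ≤ M / i0 := by
    rw [le_div_iff₀ hi00]
    have : x * (2 * (M / x)) = 2 * M := by field_simp
    have h2 := mul_le_mul_of_nonneg_left hi2 hx0.le
    linarith
  refine ⟨i0, hi4, by linarith, fun s hs => ?_⟩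
  have hpi := Real.pi_pos
  have hpi2 : Real.pi ^ 2 ≤ 10 := by
    have := Real.pi_lt_d2
    nlinarith
  have hc : 1 / 5 ≤ 2 / Real.pi ^ 2 := by
    rw [div_le_div_iff₀ (by norm_num) (by positivity)]
    linarith
  have hlogx : Real.log x = ε / 2 * Real.log L := by rw [hx, Real.log_rpow hL0]
  have h1 : ε / 2 * Real.log L - 1 ≤ Real.log (M / i0) := by
    have h2 : Real.log (x / 2) ≤ Real.log (M / i0) := Real.log_le_log (by linarith) hlow
    rw [Real.log_div hx0.ne' (by norm_num), hlogx] at h2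
    have := Real.log_two_lt_d9
    linarith
  have h2 : ε / 10 * Real.log L - 1 / 5 ≤ 2 / Real.pi ^ 2 * Real.log (M / i0) := by
    have h3 : 0 ≤ Real.log (M / i0) := Real.log_nonneg (by linarith)
    have h4 := mul_le_mul_of_nonneg_right hc h3
    linarith
  have h3 : s * (8 * M / i0) ≤ 32 * L := by
    have h4 : s * (8 * M / i0) ≤ ((L : ℝ) ^ (1 - ε) + 3) * (8 * x) := by
      have : 8 * M / i0 ≤ 8 * x := by
        rw [mul_div_assoc]
        linarith
      exact mul_le_mul hs this (by positivity) (by positivity)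
    have h5 : (L : ℝ) ^ (1 - ε) * x ≤ L := by
      rw [hx, ← Real.rpow_add hL0]
      calc (L : ℝ) ^ (1 - ε + ε / 2) ≤ (L : ℝ) ^ (1 : ℝ) := Real.rpow_le_rpow_of_exponent_le (by linarith) (by linarith)
        _ = L := Real.rpow_one _
    nlinarith
  have hlL : 0 ≤ Real.log (L : ℝ) := Real.log_nonneg (by linarith)
  have h4 : (C + 33) ≤ ε / 50 * Real.log L := by
    rw [div_le_iff₀ hε] at hL2
    linarith
  have h5 : L * (ε / 10 * Real.log L - 1 / 5 - C) ≤ L * (2 / Real.pi ^ 2 * Real.log (M / i0) - C) :=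
    mul_le_mul_of_nonneg_left (by linarith) hL0.le
  have h6 : L * (C + 33) ≤ L * (ε / 50 * Real.log L) := mul_le_mul_of_nonneg_left h4 hL0.le
  have h7 : L * (ε / 10 * Real.log L - 1 / 5 - C) = ε / 10 * (L * Real.log L) - L * C - L / 5 := by ring
  have h8 : L * (C + 33) = L * C + 33 * L := by ring
  have h9 : L * (ε / 50 * Real.log L) = ε / 50 * (L * Real.log L) := by ring
  linarith

lemma sq3 (x y z : ℝ) : (x + y - z) ^ 2 ≤ 2 * x ^ 2 + 4 * y ^ 2 + 4 * z ^ 2 := by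
  nlinarith [sq_nonneg (x - (y - z)), sq_nonneg (y + z)]

/-- the block bound in the height -/
theorem tblock (ε : ℝ) (hε : 0 < ε) (hε1 : ε ≤ 1) (θ : ℝ) (hθ : 0 < θ) (h : ℕ) (hh : 1 ≤ h) :
    ∀ᶠ L : ℕ in atTop, ∃ T1 : ℝ, 10 ≤ T1 ∧ ∀ T : ℝ, T1 ≤ T → ∀ (V : Submodule ℝ (Fin L → ℝ)) (p : Fin L → ℝ),
      (finrank ℝ V : ℝ) ≤ (L : ℝ) ^ (1 - ε) → ∃ D : Set ℝ, MeasurableSet D ∧ D ⊆ Set.Icc T (2 * T) ∧
        volume.real D ≤ θ * T ∧ ∀ t ∈ Set.Icc T (2 * T), ∀ i : ℕ, 1 ≤ i → i ≤ h →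
          (∃ y ∈ V, ∃ a b : ℝ, ∑ j : Fin L, (gp T (i + j + 1) t - (a + b * p j + y j)) ^ 2 ≤ ε / 1000 * (L * Real.log L)) →
          t ∈ D := by
  obtain ⟨lam, C, T0, hlam, hC, hT0, hVS, hE, hH⟩ := all_bounds
  obtain ⟨C4, hC4, hproj⟩ := proj_conc lam C T0 hlam hVS
  have hh0 : (1 : ℝ) ≤ h := by exact_mod_cast hh
  have hlog : Tendsto (fun L : ℕ => Real.log (L : ℝ)) atTop atTop :=
    Real.tendsto_log_atTop.comp tendsto_natCast_atTop_atTop
  filter_upwards [small lam C hC hE hH (ε / 4000) (θ / 4) (by positivity) (by positivity) h,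
    num_M ε lam C4 hε hε1 hlam, hlog.eventually_ge_atTop (528 * 50 * 4 * h / (ε * θ))] with L hS hN hLb
  obtain ⟨T1, hT1, hS⟩ := hS
  obtain ⟨hL2, i0, hi0, hli0, hN⟩ := hN
  have hL2' : (2 : ℝ) ≤ L := by exact_mod_cast hL2
  have hlL : 0 < Real.log (L : ℝ) := Real.log_pos (by linarith)
  obtain ⟨M, hM⟩ : ∃ M : ℕ, M = 7 * L ^ 2 := ⟨_, rfl⟩
  rw [← hM] at hN hli0
  have hev : ∀ᶠ T : ℝ in atTop, 2 * Real.log T + 7 ≤ min (1 / 2) (θ / 4) * T := by
    have hmin : 0 < min (1 / 2) (θ / 4) := by positivity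
    have h1 : (fun T : ℝ => 2 * Real.log T + 7) =o[atTop] fun T : ℝ => T :=
      (Real.isLittleO_log_id_atTop.const_mul_left 2).add (Asymptotics.isLittleO_const_id_atTop _)
    have h2 := h1.bound hmin
    filter_upwards [h2, eventually_ge_atTop 1] with T hT hT1
    rw [Real.norm_of_nonneg (by linarith : (0 : ℝ) ≤ T)] at hT
    exact (le_abs_self _).trans hT
  have hsq : ∀ᶠ T : ℝ in atTop, 32 * h * Real.sqrt T ≤ θ / 4 * T := by
    have hs : Tendsto (fun T : ℝ => Real.sqrt T) atTop atTop := Real.tendsto_sqrt_atTop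
    filter_upwards [hs.eventually_ge_atTop (32 * h * 4 / θ), eventually_ge_atTop 1] with T hT hT1
    have h1 : Real.sqrt T * Real.sqrt T = T := Real.mul_self_sqrt (by linarith)
    rw [div_le_iff₀ hθ] at hT
    have h2 : 0 ≤ Real.sqrt T := Real.sqrt_nonneg T
    nlinarith
  obtain ⟨T2, hT2⟩ := ((hev.and hsq).and (((Real.tendsto_log_atTop.eventually_ge_atTop
    ((M : ℝ) * Real.log M)).and (Real.tendsto_log_atTop.eventually_ge_atTop (C4 * M))).and
    (eventually_ge_atTop T0))).exists_forall_of_atTop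
  refine ⟨max T1 T2, hT1.trans (le_max_left _ _), fun T hT V p hV => ?_⟩
  have hTT1 : T1 ≤ T := (le_max_left _ _).trans hT
  obtain ⟨⟨g1, g2⟩, ⟨g3, g4⟩, g5⟩ := hT2 T ((le_max_right _ _).trans hT)
  have hT10 : 10 ≤ T := hT1.trans hTT1
  have hT1' : 1 < T := by linarith
  obtain ⟨B, hBm, hBs, hBv, hB⟩ := hS T hTT1
  obtain ⟨r, s, u, w, hF, hs, hj, hVu, hpu⟩ := fam_exists L V p
  have hs' : (s : ℝ) ≤ (L : ℝ) ^ (1 - ε) + 3 := by
    have : (s : ℝ) ≤ (finrank ℝ V : ℝ) + 3 := by exact_mod_cast hs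
    linarith
  have hN' := hN s hs'
  obtain ⟨η, hη⟩ : ∃ η : ℝ, η = L * Real.log L := ⟨_, rfl⟩
  have hη0 : 0 < η := by rw [hη]; positivity
  simp only [← hη] at hN' hB ⊢
  have hg1 : 2 * Real.log T + 7 ≤ 1 / 2 * T :=
    g1.trans (mul_le_mul_of_nonneg_right (min_le_left _ _) (by linarith))
  have hg2 : 2 * Real.log T + 7 ≤ θ / 4 * T :=
    g1.trans (mul_le_mul_of_nonneg_right (min_le_right _ _) (by linarith))
  obtain ⟨A, hA⟩ : ∃ A : ℝ, A = T + Real.log T := ⟨_, rfl⟩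
  obtain ⟨A', hA'⟩ : ∃ A' : ℝ, A' = 2 * T - Real.log T - 7 := ⟨_, rfl⟩
  rw [← hA, ← hA'] at hB
  have hlogT : 0 < Real.log T := Real.log_pos hT1'
  have hAA : A ≤ A' := by rw [hA, hA']; linarith
  -- the sets for the projections
  obtain ⟨P, hP⟩ : ∃ P : ℕ → Set ℝ, P = fun i => Set.Icc A A' ∩ {t | ∑ k, (∑ j : Fin L, u k j *
    (gG lam T (i + j + 1) t).re) ^ 2 ≤ ε / 250 * η} := ⟨_, rfl⟩
  have hPm : ∀ i, MeasurableSet (P i) := by
    intro i
    rw [hP]
    refine measurableSet_Icc.inter (measurableSet_le (Continuous.measurable ?_) measurable_const)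
    refine continuous_finsetSum _ fun k _ => Continuous.pow (continuous_finsetSum _ fun j _ => ?_) 2
    exact continuous_const.mul (Complex.continuous_re.comp (gG_cont lam T _))
  have hPv : ∀ i, volume.real (P i) ≤ θ / 4 * T / h + 32 * Real.sqrt T := by
    intro i
    obtain ⟨tr, htr, hv⟩ := hproj L r s u w hF i M i0 T (by omega) hM.ge hi0 hli0 g3 g4 g5 hT1'.le
    have htr' : ε / 50 * η ≤ tr := hN'.trans htr
    have htr0 : 0 < tr := lt_of_lt_of_le (by positivity) htr'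
    have h1 := hv htr0 A A' hAA
    obtain ⟨-, -, -, hX⟩ := X_small hT1'.le
    have h2 : P i ⊆ {t | t ∈ Set.Icc A A' ∧ ∑ k, (∑ j : Fin L, u k j *
            (G (rc (Real.log T / lam) (2 * Real.pi * ((i : ℝ) + 1 + j) / Real.log T)) (XK (1 / 16) T)
              (t + 2 * Real.pi * ((i : ℝ) + 1 + j) / Real.log T / 2)).re) ^ 2 < tr / 4} := by
      intro t ht
      rw [hP] at ht
      refine ⟨ht.1, ?_⟩
      have h3 := ht.2
      unfold gG at h3
      have e : ∀ j : Fin L, ((i + (j : ℕ) + 1 : ℕ) : ℝ) = (i : ℝ) + 1 + j := by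
        intro j
        push_cast
        ring
      simp only [e] at h3
      refine lt_of_le_of_lt h3 ?_
      nlinarith
    have h3 : volume.real (P i) ≤ _ := measureReal_mono h2 (ne_top_of_le_ne_top
      (by rw [Real.volume_Icc]; exact ENNReal.ofReal_ne_top : volume (Set.Icc A A') ≠ ⊤)
      (measure_mono fun t ht => ht.1))
    refine h3.trans (h1.trans ?_)
    refine add_le_add ?_ (mul_le_mul_of_nonneg_left hX (by norm_num))
    have h4 : A' - A ≤ T := by rw [hA, hA']; linarith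
    rw [div_le_iff₀ htr0]
    have h5 : 528 * (A' - A) * L ≤ 528 * T * L := by
      apply mul_le_mul_of_nonneg_right _ (by linarith)
      linarith
    have h6 : θ / 4 * T / h * (ε / 50 * η) ≤ θ / 4 * T / h * tr := mul_le_mul_of_nonneg_left htr' (by positivity)
    refine h5.trans (le_trans ?_ h6)
    rw [div_le_iff₀ (by positivity)] at hLb
    have h7 : θ / 4 * T / h * (ε / 50 * η) = T * L * (Real.log L * (ε * θ)) / (200 * h) := by
      rw [hη]
      field_simp
      ring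
    rw [h7, le_div_iff₀ (by positivity)]
    have h8 := mul_le_mul_of_nonneg_left hLb (by positivity : 0 ≤ T * L)
    linarith
  refine ⟨B ∪ ((Set.Icc T A ∪ Set.Icc A' (2 * T)) ∪ ⋃ i ∈ Finset.Icc 1 h, P i), ?_, ?_, ?_, ?_⟩
  · exact hBm.union ((measurableSet_Icc.union measurableSet_Icc).union
      (Finset.measurableSet_biUnion _ fun i _ => hPm i))
  · rintro t (ht | (ht | ht) | ht)
    · exact ⟨by linarith [(hBs ht).1], by linarith [(hBs ht).2]⟩
    · exact ⟨ht.1, by rw [hA] at ht; linarith [ht.2]⟩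
    · exact ⟨by rw [hA'] at ht; linarith [ht.1], ht.2⟩
    · simp only [Set.mem_iUnion] at ht
      obtain ⟨i, -, ht⟩ := ht
      rw [hP] at ht
      obtain ⟨⟨h1, h2⟩, -⟩ := ht
      rw [hA] at h1
      rw [hA'] at h2
      exact ⟨by linarith, by linarith⟩
  · have b1 := measureReal_union_le (μ := volume) B ((Set.Icc T A ∪ Set.Icc A' (2 * T)) ∪ ⋃ i ∈ Finset.Icc 1 h, P i)
    have b2 := measureReal_union_le (μ := volume) (Set.Icc T A ∪ Set.Icc A' (2 * T)) (⋃ i ∈ Finset.Icc 1 h, P i)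
    have b3 := measureReal_union_le (μ := volume) (Set.Icc T A) (Set.Icc A' (2 * T))
    have b4 := measureReal_biUnion_finset_le (μ := volume) (Finset.Icc 1 h) P
    have b5 : ∑ i ∈ Finset.Icc 1 h, volume.real (P i) ≤ θ / 4 * T + 32 * h * Real.sqrt T := by
      refine (Finset.sum_le_sum fun i _ => hPv i).trans (le_of_eq ?_)
      rw [Finset.sum_const, Nat.card_Icc, nsmul_eq_mul, Nat.add_sub_cancel]
      field_simp
    rw [Real.volume_real_Icc_of_le (by rw [hA]; linarith), Real.volume_real_Icc_of_le (by rw [hA']; linarith)] at b3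
    have b6 : A - T + (2 * T - A') ≤ θ / 4 * T := by rw [hA, hA']; linarith
    linarith
  · intro t ht i hi1 hih hex
    obtain ⟨y, hy, a, b, hya⟩ := hex
    by_contra hcon
    rw [Set.mem_union, Set.mem_union, Set.mem_union, not_or, not_or, not_or] at hcon
    obtain ⟨n1, ⟨n2, n3⟩, n4⟩ := hcon
    simp only [Set.mem_iUnion, not_exists] at n4
    have htI : t ∈ Set.Icc A A' := by
      constructor
      · by_contra hc
        push Not at hc
        exact n2 ⟨ht.1, hc.le⟩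
      · by_contra hc
        push Not at hc
        exact n3 ⟨hc.le, ht.2⟩
    obtain ⟨hr, he⟩ := hB t htI n1
    apply n4 i (Finset.mem_Icc.2 ⟨hi1, hih⟩)
    rw [hP]
    refine ⟨htI, ?_⟩
    -- the sums over the positions
    have hsub : ∀ f : ℕ → ℝ, (∀ y, 0 ≤ f y) → ∑ j : Fin L, f (i + j + 1) ≤ ∑ y ∈ Finset.Icc 1 (L + h + 1), f y := by
      intro f hf
      have e1 : ∑ j : Fin L, f (i + j + 1) = ∑ y ∈ (Finset.univ : Finset (Fin L)).image (fun j : Fin L => i + (j : ℕ) + 1), f y := by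
        rw [Finset.sum_image]
        intro x _ y _ hxy
        simp only at hxy
        exact Fin.ext (by omega)
      rw [e1]
      refine Finset.sum_le_sum_of_subset_of_nonneg ?_ fun _ _ _ => hf _
      intro y hy
      rw [Finset.mem_image] at hy
      obtain ⟨j, -, rfl⟩ := hy
      rw [Finset.mem_Icc]
      have := j.2
      omega
    have hr' := (hsub (fun y => rho T y t ^ 2) (fun _ => sq_nonneg _)).trans hr
    have he' := (hsub (fun y => E lam T y t ^ 2) (fun _ => sq_nonneg _)).trans he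
    -- Bessel
    have hbes : ∀ x : Fin L → ℝ, ∑ k, (∑ j, u k j * x j) ^ 2 ≤ ∑ j, x j ^ 2 := by
      intro x
      have h1 := hF.par x
      have h2 : 0 ≤ ∑ l, (∑ j, w l j * x j) ^ 2 := by positivity
      linarith
    have b1 := hbes (fun j => gp T (i + j + 1) t - (a + b * p j + y j))
    have b2 := hbes (fun j => E lam T (i + j + 1) t)
    have b3 := hbes (fun j => rho T (i + j + 1) t)
    have hk : ∀ k, ∑ j : Fin L, u k j * (gG lam T (i + j + 1) t).re =
        (∑ j : Fin L, u k j * (gp T (i + j + 1) t - (a + b * p j + y j))) + (∑ j : Fin L, u k j * E lam T (i + j + 1) t) -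
        ∑ j : Fin L, u k j * rho T (i + j + 1) t := by
      intro k
      have h1 : ∑ j : Fin L, u k j * (gG lam T (i + j + 1) t).re =
          ∑ j : Fin L, ((u k j * (gp T (i + j + 1) t - (a + b * p j + y j))) + (u k j * E lam T (i + j + 1) t) -
          (u k j * rho T (i + j + 1) t) + (a - (i + 1)) * u k j - u k j * ((j : ℕ) : ℝ) + b * (u k j * p j) + u k j * y j) := by
        refine Finset.sum_congr rfl fun j _ => ?_
        unfold rho E
        push_cast
        ring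
      rw [h1]
      simp only [Finset.sum_add_distrib, Finset.sum_sub_distrib]
      rw [← Finset.mul_sum, ← Finset.mul_sum, hF.sum0 k, hj k, hVu k y hy, hpu k]
      ring
    have hfin : ∀ k, (∑ j : Fin L, u k j * (gG lam T (i + j + 1) t).re) ^ 2 ≤
        2 * (∑ j : Fin L, u k j * (gp T (i + j + 1) t - (a + b * p j + y j))) ^ 2 +
        4 * (∑ j : Fin L, u k j * E lam T (i + j + 1) t) ^ 2 + 4 * (∑ j : Fin L, u k j * rho T (i + j + 1) t) ^ 2 := by
      intro k
      rw [hk k]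
      exact sq3 _ _ _
    refine (Finset.sum_le_sum fun k _ => hfin k).trans ?_
    simp only [Finset.sum_add_distrib, ← Finset.mul_sum]
    linarith

end Pool.Agent.X112.WD
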