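import Pool.Agent.X112.WD.Mv
import Pool.Agent.Y743.CL.Mc

/-! # The squared length of a vector of prime polynomials is rarely small -/

set_option autoImplicit false

namespace Pool.Agent.X112.WD

open MeasureTheory Complex Finset
open scoped ComplexConjugate
open Pool.Agent.Y743.CL (Pr mem_Pr)

/-- the prime polynomial -/
noncomputable def Gv {r : ℕ} (X : ℕ) (g : ℕ → Fin r → ℂ) (k : Fin r) (t : ℝ) : ℂ :=
  ∑ p ∈ Pr X, g p k * ex (-Real.log p) t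

lemma Gv_cont {r : ℕ} (X : ℕ) (g : ℕ → Fin r → ℂ) (k : Fin r) : Continuous (Gv X g k) :=
  continuous_finsetSum _ fun _ _ => continuous_const.mul (ex_cont _)

/-- the two quadratic sums -/
noncomputable def F1 {r : ℕ} (X : ℕ) (g : ℕ → Fin r → ℂ) (t : ℝ) : ℂ :=
  ∑ s ∈ (Pr X ×ˢ Pr X).filter (fun s => s.1 ≠ s.2), (∑ k, g s.1 k * conj (g s.2 k)) *
    ex (Real.log s.2 - Real.log s.1) t

noncomputable def F2 {r : ℕ} (X : ℕ) (g : ℕ → Fin r → ℂ) (t : ℝ) : ℂ :=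
  ∑ s ∈ Pr X ×ˢ Pr X, (∑ k, g s.1 k * g s.2 k) * ex (-(Real.log s.1 + Real.log s.2)) t

lemma F1_eq {r : ℕ} (X : ℕ) (g : ℕ → Fin r → ℂ) (t : ℝ) :
    ((∑ k, ‖Gv X g k t‖ ^ 2 : ℝ) : ℂ) = ((∑ p ∈ Pr X, ∑ k, ‖g p k‖ ^ 2 : ℝ) : ℂ) + F1 X g t := by
  have h1 : ∀ k, ((‖Gv X g k t‖ ^ 2 : ℝ) : ℂ) = ∑ s ∈ Pr X ×ˢ Pr X,
      (g s.1 k * conj (g s.2 k)) * ex (Real.log s.2 - Real.log s.1) t := by
    intro k
    rw [← Complex.normSq_eq_norm_sq, Complex.normSq_eq_conj_mul_self, mul_comm]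
    unfold Gv
    rw [map_sum, Finset.sum_mul_sum, Finset.sum_product]
    refine Finset.sum_congr rfl fun p _ => Finset.sum_congr rfl fun q _ => ?_
    rw [map_mul, show Real.log q - Real.log p = -Real.log p - -Real.log q by ring, ← ex_conj]
    ring
  rw [Complex.ofReal_sum]
  simp only [h1]
  rw [Finset.sum_comm, ← Finset.sum_filter_add_sum_filter_not (Pr X ×ˢ Pr X) (fun s => s.1 ≠ s.2), add_comm]
  congr 1
  · rw [Complex.ofReal_sum]
    have h2 : (Pr X ×ˢ Pr X).filter (fun s => ¬ s.1 ≠ s.2) = (Pr X).image (fun p => (p, p)) := by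
      ext ⟨a, b⟩
      simp only [Finset.mem_filter, Finset.mem_product, Finset.mem_image, ne_eq, not_not, Prod.mk.injEq]
      constructor
      · rintro ⟨⟨ha, hb⟩, rfl⟩; exact ⟨a, ha, rfl, rfl⟩
      · rintro ⟨c, hc, rfl, rfl⟩; exact ⟨⟨hc, hc⟩, rfl⟩
    rw [h2, Finset.sum_image (fun a _ b _ h => (Prod.mk.inj h).1)]
    refine Finset.sum_congr rfl fun p _ => ?_
    rw [Complex.ofReal_sum]
    refine Finset.sum_congr rfl fun k _ => ?_
    have : ex (Real.log p - Real.log p) t = 1 := by unfold ex; simp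
    rw [this, mul_one, ← Complex.normSq_eq_norm_sq, Complex.normSq_eq_conj_mul_self, mul_comm]
  · unfold F1
    refine Finset.sum_congr rfl fun s _ => ?_
    rw [Finset.sum_mul]

lemma F2_eq {r : ℕ} (X : ℕ) (g : ℕ → Fin r → ℂ) (t : ℝ) : ∑ k, Gv X g k t ^ 2 = F2 X g t := by
  have h1 : ∀ k, Gv X g k t ^ 2 = ∑ s ∈ Pr X ×ˢ Pr X,
      (g s.1 k * g s.2 k) * ex (-(Real.log s.1 + Real.log s.2)) t := by
    intro k
    rw [sq]
    unfold Gv
    rw [Finset.sum_mul_sum, Finset.sum_product]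
    refine Finset.sum_congr rfl fun p _ => Finset.sum_congr rfl fun q _ => ?_
    rw [neg_add, ← ex_add]
    ring
  simp only [h1]
  rw [Finset.sum_comm]
  unfold F2
  refine Finset.sum_congr rfl fun s _ => ?_
  rw [Finset.sum_mul]

lemma re_sq (z : ℂ) : z.re ^ 2 = (‖z‖ ^ 2 + (z ^ 2).re) / 2 := by
  rw [← Complex.normSq_eq_norm_sq, Complex.normSq_apply, sq z, Complex.mul_re]
  ring

lemma S_low {r : ℕ} (X : ℕ) (g : ℕ → Fin r → ℂ) (t tr : ℝ) (htr : tr = ∑ p ∈ Pr X, ∑ k, ‖g p k‖ ^ 2)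
    (htr0 : 0 < tr) (h : ∑ k, (Gv X g k t).re ^ 2 < tr / 4) : tr ^ 2 / 8 ≤ ‖F1 X g t‖ ^ 2 + ‖F2 X g t‖ ^ 2 := by
  have h1 : ∑ k, (Gv X g k t).re ^ 2 = (∑ k, ‖Gv X g k t‖ ^ 2 + (F2 X g t).re) / 2 := by
    rw [← F2_eq, Complex.re_sum, ← Finset.sum_add_distrib, Finset.sum_div]
    exact Finset.sum_congr rfl fun k _ => re_sq _
  have h2 : ∑ k, ‖Gv X g k t‖ ^ 2 = tr + (F1 X g t).re := by
    have := congrArg Complex.re (F1_eq X g t)
    rw [Complex.ofReal_re, Complex.add_re, Complex.ofReal_re, ← htr] at this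
    exact this
  have h3 := Complex.abs_re_le_norm (F1 X g t)
  have h4 := Complex.abs_re_le_norm (F2 X g t)
  have h5 := abs_le.1 h3
  have h6 := abs_le.1 h4
  have h7 : tr / 2 ≤ ‖F1 X g t‖ + ‖F2 X g t‖ := by
    rw [h1, h2] at h
    linarith
  nlinarith [sq_nonneg (‖F1 X g t‖ - ‖F2 X g t‖), norm_nonneg (F1 X g t), norm_nonneg (F2 X g t)]

lemma abs_sum {r : ℕ} (X : ℕ) (g : ℕ → Fin r → ℂ) (tr : ℝ) (htr : tr = ∑ p ∈ Pr X, ∑ k, ‖g p k‖ ^ 2) :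
    ∑ s ∈ Pr X ×ˢ Pr X, ∑ k, ‖g s.1 k‖ * ‖g s.2 k‖ ≤ X * tr := by
  rw [Finset.sum_comm]
  have h1 : ∀ k, ∑ s ∈ Pr X ×ˢ Pr X, ‖g s.1 k‖ * ‖g s.2 k‖ ≤ X * ∑ p ∈ Pr X, ‖g p k‖ ^ 2 := by
    intro k
    rw [Finset.sum_product]
    show ∑ x ∈ Pr X, ∑ y ∈ Pr X, ‖g x k‖ * ‖g y k‖ ≤ _
    rw [← Finset.sum_mul_sum, ← sq]
    refine (sq_sum_le_card_mul_sum_sq).trans ?_
    apply mul_le_mul_of_nonneg_right _ (Finset.sum_nonneg fun _ _ => sq_nonneg _)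
    have h2 : (Pr X).card ≤ X := by
      have h3 : Pr X ⊆ Finset.Icc 1 X := by
        intro p hp
        rw [mem_Pr] at hp
        exact Finset.mem_Icc.2 ⟨hp.1.one_le, hp.2⟩
      refine (Finset.card_le_card h3).trans ?_
      rw [Nat.card_Icc, Nat.add_sub_cancel]
    exact_mod_cast h2
  refine (Finset.sum_le_sum fun k _ => h1 k).trans (le_of_eq ?_)
  rw [← Finset.mul_sum, Finset.sum_comm, htr]

lemma logs_sep {X a b : ℕ} (ha : 1 ≤ a) (hb : 1 ≤ b) (haX : a ≤ X * X) (hbX : b ≤ X * X)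
    (hab : a ≠ b) : 1 / (X : ℝ) ^ 2 ≤ |Real.log a - Real.log b| := by
  have := log_sep ha hb haX hbX hab
  rw [sq]
  push_cast at this
  exact this

lemma F1_int {r : ℕ} (X : ℕ) (hX : 1 ≤ X) (g : ℕ → Fin r → ℂ) (B0 tr : ℝ)
    (htr : tr = ∑ p ∈ Pr X, ∑ k, ‖g p k‖ ^ 2)
    (h1 : ∀ q ∈ Pr X, ∑ p ∈ Pr X, ‖∑ k, g p k * conj (g q k)‖ ^ 2 ≤ B0 * ∑ k, ‖g q k‖ ^ 2)
    (A B : ℝ) (hAB : A ≤ B) :
    ∫ t in A..B, ‖F1 X g t‖ ^ 2 ≤ (B - A) * (B0 * tr) + 2 * (X : ℝ) ^ 4 * tr ^ 2 := by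
  have hX0 : (0 : ℝ) < X := by exact_mod_cast hX
  have hm := mv ((Pr X ×ˢ Pr X).filter (fun s => s.1 ≠ s.2)) (fun s => ∑ k, g s.1 k * conj (g s.2 k))
    (fun s => Real.log s.2 - Real.log s.1) (1 / (X : ℝ) ^ 2) (by positivity) 1 (by
      intro s hs s' hs'
      rw [Finset.mem_filter, Finset.mem_product, mem_Pr, mem_Pr] at hs hs'
      obtain ⟨⟨⟨p1, x1⟩, p2, x2⟩, hne⟩ := hs
      obtain ⟨⟨⟨q1, y1⟩, q2, y2⟩, hne'⟩ := hs'
      have e1 : (Real.log s.2 - Real.log s.1) - (Real.log s'.2 - Real.log s'.1) =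
          Real.log ((s.2 * s'.1 : ℕ) : ℝ) - Real.log ((s'.2 * s.1 : ℕ) : ℝ) := by
        push_cast
        rw [Real.log_mul (by exact_mod_cast p2.ne_zero) (by exact_mod_cast q1.ne_zero),
          Real.log_mul (by exact_mod_cast q2.ne_zero) (by exact_mod_cast p1.ne_zero)]
        ring
      by_cases he : s.2 * s'.1 = s'.2 * s.1
      · left
        rw [he, sub_self] at e1
        linarith
      · right
        rw [e1]
        exact logs_sep (Nat.mul_pos p2.pos q1.pos) (Nat.mul_pos q2.pos p1.pos) (Nat.mul_le_mul x2 y1)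
          (Nat.mul_le_mul y2 x1) he) (by
      intro s hs
      rw [Finset.card_le_one]
      have key : ∀ s' ∈ ((Pr X ×ˢ Pr X).filter (fun s => s.1 ≠ s.2)).filter
          (fun s' => Real.log s'.2 - Real.log s'.1 = Real.log s.2 - Real.log s.1), s' = s := by
        intro s' hs'
        rw [Finset.mem_filter, Finset.mem_filter, Finset.mem_product, mem_Pr, mem_Pr] at hs'
        rw [Finset.mem_filter, Finset.mem_product, mem_Pr, mem_Pr] at hs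
        obtain ⟨⟨⟨p1, x1⟩, p2, x2⟩, hne⟩ := hs
        obtain ⟨⟨⟨⟨q1, y1⟩, q2, y2⟩, hne'⟩, hl⟩ := hs'
        have e1 : Real.log ((s.2 * s'.1 : ℕ) : ℝ) = Real.log ((s'.2 * s.1 : ℕ) : ℝ) := by
          push_cast
          rw [Real.log_mul (by exact_mod_cast p2.ne_zero) (by exact_mod_cast q1.ne_zero),
            Real.log_mul (by exact_mod_cast q2.ne_zero) (by exact_mod_cast p1.ne_zero)]
          linarith
        have e2 : s.2 * s'.1 = s'.2 * s.1 := by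
          have h3 := Real.log_injOn_pos
            (by simp only [Set.mem_Ioi]; exact_mod_cast Nat.mul_pos p2.pos q1.pos)
            (by simp only [Set.mem_Ioi]; exact_mod_cast Nat.mul_pos q2.pos p1.pos) e1
          exact_mod_cast h3
        have e3 : s.1 ∣ s.2 * s'.1 := by rw [e2]; exact Dvd.intro_left _ rfl
        rcases (p1.dvd_mul).1 e3 with h | h
        · exact absurd ((Nat.prime_dvd_prime_iff_eq p1 p2).1 h) hne
        · have h4 := (Nat.prime_dvd_prime_iff_eq p1 q1).1 h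
          rw [h4] at e2
          have h5 := Nat.eq_of_mul_eq_mul_right q1.pos e2
          exact Prod.ext h4.symm h5.symm
      intro a ha b hb
      rw [key a ha, key b hb]) A B hAB
  have e0 : (fun t => ‖F1 X g t‖ ^ 2) = fun t => ‖∑ s ∈ (Pr X ×ˢ Pr X).filter (fun s => s.1 ≠ s.2),
      (fun s : ℕ × ℕ => ∑ k, g s.1 k * conj (g s.2 k)) s *
        ex ((fun s : ℕ × ℕ => Real.log s.2 - Real.log s.1) s) t‖ ^ 2 := rfl
  rw [e0]
  refine hm.trans ?_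
  have e1 : ∑ s ∈ (Pr X ×ˢ Pr X).filter (fun s => s.1 ≠ s.2), ‖∑ k, g s.1 k * conj (g s.2 k)‖ ^ 2 ≤ B0 * tr := by
    calc ∑ s ∈ (Pr X ×ˢ Pr X).filter (fun s => s.1 ≠ s.2), ‖∑ k, g s.1 k * conj (g s.2 k)‖ ^ 2
        ≤ ∑ s ∈ Pr X ×ˢ Pr X, ‖∑ k, g s.1 k * conj (g s.2 k)‖ ^ 2 :=
          Finset.sum_le_sum_of_subset_of_nonneg (Finset.filter_subset _ _) fun _ _ _ => sq_nonneg _
      _ = ∑ q ∈ Pr X, ∑ p ∈ Pr X, ‖∑ k, g p k * conj (g q k)‖ ^ 2 := by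
          rw [Finset.sum_product, Finset.sum_comm]
      _ ≤ ∑ q ∈ Pr X, B0 * ∑ k, ‖g q k‖ ^ 2 := Finset.sum_le_sum h1
      _ = B0 * tr := by rw [← Finset.mul_sum, htr]
  have htr0 : 0 ≤ tr := by rw [htr]; positivity
  have e2 : ∑ s ∈ (Pr X ×ˢ Pr X).filter (fun s => s.1 ≠ s.2), ‖∑ k, g s.1 k * conj (g s.2 k)‖ ≤ X * tr := by
    refine le_trans ?_ (abs_sum X g tr htr)
    refine (Finset.sum_le_sum_of_subset_of_nonneg (Finset.filter_subset _ _) fun _ _ _ => norm_nonneg _).trans ?_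
    refine Finset.sum_le_sum fun s _ => (norm_sum_le _ _).trans (le_of_eq ?_)
    refine Finset.sum_congr rfl fun k _ => ?_
    rw [norm_mul, RCLike.norm_conj]
  have e3 : 0 ≤ ∑ s ∈ (Pr X ×ˢ Pr X).filter (fun s => s.1 ≠ s.2), ‖∑ k, g s.1 k * conj (g s.2 k)‖ :=
    Finset.sum_nonneg fun _ _ => norm_nonneg _
  have e4 : (∑ s ∈ (Pr X ×ˢ Pr X).filter (fun s => s.1 ≠ s.2), ‖∑ k, g s.1 k * conj (g s.2 k)‖) ^ 2 ≤
      (X * tr) ^ 2 := pow_le_pow_left₀ e3 e2 2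
  have e5 : 2 / (1 / (X : ℝ) ^ 2) = 2 * (X : ℝ) ^ 2 := by field_simp
  rw [e5]
  push_cast
  have e6 := mul_le_mul_of_nonneg_left e1 (show 0 ≤ (B - A) * 1 by linarith)
  have e7 := mul_le_mul_of_nonneg_left e4 (show 0 ≤ 2 * (X : ℝ) ^ 2 by positivity)
  have e8 : 2 * (X : ℝ) ^ 2 * (X * tr) ^ 2 = 2 * (X : ℝ) ^ 4 * tr ^ 2 := by ring
  linarith

lemma F2_int {r : ℕ} (X : ℕ) (hX : 1 ≤ X) (g : ℕ → Fin r → ℂ) (B0 tr : ℝ)
    (htr : tr = ∑ p ∈ Pr X, ∑ k, ‖g p k‖ ^ 2)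
    (h1 : ∀ q ∈ Pr X, ∑ p ∈ Pr X, ‖∑ k, g p k * g q k‖ ^ 2 ≤ B0 * ∑ k, ‖g q k‖ ^ 2)
    (A B : ℝ) (hAB : A ≤ B) :
    ∫ t in A..B, ‖F2 X g t‖ ^ 2 ≤ 2 * ((B - A) * (B0 * tr)) + 2 * (X : ℝ) ^ 4 * tr ^ 2 := by
  have hX0 : (0 : ℝ) < X := by exact_mod_cast hX
  have hm := mv (Pr X ×ˢ Pr X) (fun s => ∑ k, g s.1 k * g s.2 k)
    (fun s => -(Real.log s.1 + Real.log s.2)) (1 / (X : ℝ) ^ 2) (by positivity) 2 (by
      intro s hs s' hs'
      rw [Finset.mem_product, mem_Pr, mem_Pr] at hs hs'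
      obtain ⟨⟨p1, x1⟩, p2, x2⟩ := hs
      obtain ⟨⟨q1, y1⟩, q2, y2⟩ := hs'
      have e1 : -(Real.log s.1 + Real.log s.2) - -(Real.log s'.1 + Real.log s'.2) =
          Real.log ((s'.1 * s'.2 : ℕ) : ℝ) - Real.log ((s.1 * s.2 : ℕ) : ℝ) := by
        push_cast
        rw [Real.log_mul (by exact_mod_cast q1.ne_zero) (by exact_mod_cast q2.ne_zero),
          Real.log_mul (by exact_mod_cast p1.ne_zero) (by exact_mod_cast p2.ne_zero)]
        ring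
      by_cases he : s'.1 * s'.2 = s.1 * s.2
      · left
        rw [he, sub_self] at e1
        linarith
      · right
        rw [e1]
        exact logs_sep (Nat.mul_pos q1.pos q2.pos) (Nat.mul_pos p1.pos p2.pos) (Nat.mul_le_mul y1 y2)
          (Nat.mul_le_mul x1 x2) he) (by
      intro s hs
      have key : (Pr X ×ˢ Pr X).filter
          (fun s' => -(Real.log s'.1 + Real.log s'.2) = -(Real.log s.1 + Real.log s.2)) ⊆ {s, (s.2, s.1)} := by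
        intro s' hs'
        rw [Finset.mem_filter, Finset.mem_product, mem_Pr, mem_Pr] at hs'
        rw [Finset.mem_product, mem_Pr, mem_Pr] at hs
        obtain ⟨⟨p1, x1⟩, p2, x2⟩ := hs
        obtain ⟨⟨⟨q1, y1⟩, q2, y2⟩, hl⟩ := hs'
        have e1 : Real.log ((s'.1 * s'.2 : ℕ) : ℝ) = Real.log ((s.1 * s.2 : ℕ) : ℝ) := by
          push_cast
          rw [Real.log_mul (by exact_mod_cast q1.ne_zero) (by exact_mod_cast q2.ne_zero),
            Real.log_mul (by exact_mod_cast p1.ne_zero) (by exact_mod_cast p2.ne_zero)]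
          linarith
        have e2 : s'.1 * s'.2 = s.1 * s.2 := by
          have h3 := Real.log_injOn_pos
            (by simp only [Set.mem_Ioi]; exact_mod_cast Nat.mul_pos q1.pos q2.pos)
            (by simp only [Set.mem_Ioi]; exact_mod_cast Nat.mul_pos p1.pos p2.pos) e1
          exact_mod_cast h3
        rw [Finset.mem_insert, Finset.mem_singleton]
        have e3 : s'.1 ∣ s.1 * s.2 := by rw [← e2]; exact Dvd.intro _ rfl
        rcases (q1.dvd_mul).1 e3 with h | h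
        · have h4 := (Nat.prime_dvd_prime_iff_eq q1 p1).1 h
          left
          rw [h4] at e2
          have h5 := Nat.eq_of_mul_eq_mul_left p1.pos e2
          exact Prod.ext h4 h5
        · have h4 := (Nat.prime_dvd_prime_iff_eq q1 p2).1 h
          right
          rw [h4, mul_comm s.1 s.2] at e2
          have h5 := Nat.eq_of_mul_eq_mul_left p2.pos e2
          exact Prod.ext h4 h5
      refine (Finset.card_le_card key).trans ?_
      exact Finset.card_le_two) A B hAB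
  have e0 : (fun t => ‖F2 X g t‖ ^ 2) = fun t => ‖∑ s ∈ Pr X ×ˢ Pr X,
      (fun s : ℕ × ℕ => ∑ k, g s.1 k * g s.2 k) s *
        ex ((fun s : ℕ × ℕ => -(Real.log s.1 + Real.log s.2)) s) t‖ ^ 2 := rfl
  rw [e0]
  refine hm.trans ?_
  have e1 : ∑ s ∈ Pr X ×ˢ Pr X, ‖∑ k, g s.1 k * g s.2 k‖ ^ 2 ≤ B0 * tr := by
    calc ∑ s ∈ Pr X ×ˢ Pr X, ‖∑ k, g s.1 k * g s.2 k‖ ^ 2
        = ∑ q ∈ Pr X, ∑ p ∈ Pr X, ‖∑ k, g p k * g q k‖ ^ 2 := by
          rw [Finset.sum_product, Finset.sum_comm]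
      _ ≤ ∑ q ∈ Pr X, B0 * ∑ k, ‖g q k‖ ^ 2 := Finset.sum_le_sum h1
      _ = B0 * tr := by rw [← Finset.mul_sum, htr]
  have htr0 : 0 ≤ tr := by rw [htr]; positivity
  have e2 : ∑ s ∈ Pr X ×ˢ Pr X, ‖∑ k, g s.1 k * g s.2 k‖ ≤ X * tr := by
    refine le_trans ?_ (abs_sum X g tr htr)
    refine Finset.sum_le_sum fun s _ => (norm_sum_le _ _).trans (le_of_eq ?_)
    refine Finset.sum_congr rfl fun k _ => ?_
    rw [norm_mul]
  have e3 : 0 ≤ ∑ s ∈ Pr X ×ˢ Pr X, ‖∑ k, g s.1 k * g s.2 k‖ :=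
    Finset.sum_nonneg fun _ _ => norm_nonneg _
  have e4 : (∑ s ∈ Pr X ×ˢ Pr X, ‖∑ k, g s.1 k * g s.2 k‖) ^ 2 ≤ (X * tr) ^ 2 := pow_le_pow_left₀ e3 e2 2
  have e5 : 2 / (1 / (X : ℝ) ^ 2) = 2 * (X : ℝ) ^ 2 := by field_simp
  rw [e5]
  push_cast
  have e6 := mul_le_mul_of_nonneg_left e1 (show 0 ≤ (B - A) * 2 by linarith)
  have e7 := mul_le_mul_of_nonneg_left e4 (show 0 ≤ 2 * (X : ℝ) ^ 2 by positivity)
  have e8 : 2 * (X : ℝ) ^ 2 * (X * tr) ^ 2 = 2 * (X : ℝ) ^ 4 * tr ^ 2 := by ring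
  linarith

theorem conc {r : ℕ} (X : ℕ) (hX : 1 ≤ X) (g : ℕ → Fin r → ℂ) (B0 tr : ℝ) (htr0 : 0 < tr)
    (htr : tr = ∑ p ∈ Pr X, ∑ k, ‖g p k‖ ^ 2)
    (h1 : ∀ q ∈ Pr X, ∑ p ∈ Pr X, ‖∑ k, g p k * conj (g q k)‖ ^ 2 ≤ B0 * ∑ k, ‖g q k‖ ^ 2)
    (h2 : ∀ q ∈ Pr X, ∑ p ∈ Pr X, ‖∑ k, g p k * g q k‖ ^ 2 ≤ B0 * ∑ k, ‖g q k‖ ^ 2)
    (A B : ℝ) (hAB : A ≤ B) :
    volume.real {t | t ∈ Set.Icc A B ∧ ∑ k, (Gv X g k t).re ^ 2 < tr / 4} ≤
      24 * (B - A) * B0 / tr + 32 * (X : ℝ) ^ 4 := by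
  have hc1 : Continuous (F1 X g) := by
    unfold F1
    exact continuous_finsetSum _ fun _ _ => continuous_const.mul (ex_cont _)
  have hc2 : Continuous (F2 X g) := by
    unfold F2
    exact continuous_finsetSum _ fun _ _ => continuous_const.mul (ex_cont _)
  obtain ⟨f, hf⟩ : ∃ f : ℝ → ℝ, f = fun t => ‖F1 X g t‖ ^ 2 + ‖F2 X g t‖ ^ 2 := ⟨_, rfl⟩
  have hfc : Continuous f := by rw [hf]; fun_prop
  have hf0 : ∀ t, 0 ≤ f t := fun t => by rw [hf]; positivity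
  have hint : IntegrableOn f (Set.Icc A B) := hfc.continuousOn.integrableOn_Icc
  have h3 : ∫ t in Set.Icc A B, f t ≤ 3 * ((B - A) * (B0 * tr)) + 4 * (X : ℝ) ^ 4 * tr ^ 2 := by
    have i1 : IntervalIntegrable (fun t => ‖F1 X g t‖ ^ 2) volume A B :=
      (by fun_prop : Continuous fun t => ‖F1 X g t‖ ^ 2).intervalIntegrable _ _
    have i2 : IntervalIntegrable (fun t => ‖F2 X g t‖ ^ 2) volume A B :=
      (by fun_prop : Continuous fun t => ‖F2 X g t‖ ^ 2).intervalIntegrable _ _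
    rw [integral_Icc_eq_integral_Ioc, ← intervalIntegral.integral_of_le hAB, hf]
    simp only
    rw [intervalIntegral.integral_add i1 i2]
    have a1 := F1_int X hX g B0 tr htr h1 A B hAB
    have a2 := F2_int X hX g B0 tr htr h2 A B hAB
    linarith
  have h4 := mul_meas_ge_le_integral_of_nonneg (μ := volume.restrict (Set.Icc A B))
    (Filter.Eventually.of_forall hf0) hint (tr ^ 2 / 8)
  have hsub : {t | t ∈ Set.Icc A B ∧ ∑ k, (Gv X g k t).re ^ 2 < tr / 4} ⊆ {t | tr ^ 2 / 8 ≤ f t} ∩ Set.Icc A B := by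
    rintro t ⟨ht, hs⟩
    refine ⟨?_, ht⟩
    show tr ^ 2 / 8 ≤ f t
    rw [hf]
    exact S_low X g t tr htr htr0 hs
  have hms : MeasurableSet {t | tr ^ 2 / 8 ≤ f t} := (isClosed_le continuous_const hfc).measurableSet
  rw [measureReal_restrict_apply hms] at h4
  have h5 : volume.real {t | t ∈ Set.Icc A B ∧ ∑ k, (Gv X g k t).re ^ 2 < tr / 4} ≤
      volume.real ({t | tr ^ 2 / 8 ≤ f t} ∩ Set.Icc A B) := by
    refine measureReal_mono hsub ?_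
    refine ne_top_of_le_ne_top ?_ (measure_mono Set.inter_subset_right)
    rw [Real.volume_Icc]
    exact ENNReal.ofReal_ne_top
  have h6 : tr ^ 2 / 8 * volume.real {t | t ∈ Set.Icc A B ∧ ∑ k, (Gv X g k t).re ^ 2 < tr / 4} ≤
      3 * ((B - A) * (B0 * tr)) + 4 * (X : ℝ) ^ 4 * tr ^ 2 :=
    (mul_le_mul_of_nonneg_left h5 (by positivity)).trans (h4.trans h3)
  have h7 : tr ^ 2 / 8 * (24 * (B - A) * B0 / tr + 32 * (X : ℝ) ^ 4) =
      3 * ((B - A) * (B0 * tr)) + 4 * (X : ℝ) ^ 4 * tr ^ 2 := by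
    field_simp
    ring
  rw [← h7] at h6
  exact le_of_mul_le_mul_left h6 (by positivity)

end Pool.Agent.X112.WD
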