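import Pool.Agent.X112.WD.Co
import Pool.Agent.X112.LF.Va

/-! # Frame bounds for the vectors of the powers of the primes -/

set_option autoImplicit false

namespace Pool.Agent.X112.WD

open MeasureTheory Complex Finset
open scoped ComplexConjugate
open Pool.Agent.Y743.CL (Pr mem_Pr rc VS XK rc_sq kap_bd)
open Pool.Agent.X112.SD (wk rc_wk)

/-- the trigonometric polynomial -/
noncomputable def Tr {L : ℕ} (v : Fin L → ℂ) (θ : ℝ) : ℂ := ∑ j : Fin L, v j * ex (-(j : ℝ)) θ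

lemma ex_zero_left (t : ℝ) : ex 0 t = 1 := by unfold ex; simp

lemma ex_sum_zero {M : ℕ} (hM : 1 ≤ M) {d : ℤ} (hd : d ≠ 0) (hdM : |d| < M) :
    ∑ i ∈ range M, ex d (2 * Real.pi * i / M) = 0 := by
  have hM0 : (M : ℂ) ≠ 0 := by exact_mod_cast (by omega : M ≠ 0)
  obtain ⟨w, hw⟩ : ∃ w : ℂ, w = cexp (2 * Real.pi * I * d / M) := ⟨_, rfl⟩
  have h1 : ∀ i ∈ range M, ex d (2 * Real.pi * i / M) = w ^ i := by
    intro i _
    rw [hw, ← Complex.exp_nat_mul]
    unfold ex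
    congr 1
    push_cast
    ring
  rw [Finset.sum_congr rfl h1]
  have hw1 : w ≠ 1 := by
    intro h
    rw [hw, Complex.exp_eq_one_iff] at h
    obtain ⟨n, hn⟩ := h
    have h2 : (d : ℂ) = n * M := by
      have h3 : (2 * Real.pi * I : ℂ) ≠ 0 := Complex.two_pi_I_ne_zero
      field_simp at hn
      linear_combination hn
    have h3 : d = n * M := by exact_mod_cast h2
    have hn0 : n ≠ 0 := by rintro rfl; simp at h3; exact hd h3
    have h4 : (M : ℤ) ≤ |d| := by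
      rw [h3, abs_mul]
      have h5 : (1 : ℤ) ≤ |n| := Int.one_le_abs hn0
      have h6 : |(M : ℤ)| = M := abs_of_nonneg (by positivity)
      rw [h6]
      nlinarith [show (0 : ℤ) ≤ M by positivity]
    omega
  have hwM : w ^ M = 1 := by
    rw [hw, ← Complex.exp_nat_mul, Complex.exp_eq_one_iff]
    refine ⟨d, ?_⟩
    field_simp
  rw [geom_sum_eq hw1, hwM, sub_self, zero_div]

/-- the discrete Parseval formula -/
lemma parseval {L M : ℕ} (hL : L ≤ M) (hM : 1 ≤ M) (v : Fin L → ℂ) :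
    ∑ i ∈ range M, ‖Tr v (2 * Real.pi * i / M)‖ ^ 2 = M * ∑ j, ‖v j‖ ^ 2 := by
  have h1 : ∀ θ : ℝ, ((‖Tr v θ‖ ^ 2 : ℝ) : ℂ) = ∑ j : Fin L, ∑ j' : Fin L, v j * conj (v j') *
      ex (((j' : ℤ) - (j : ℤ) : ℤ) : ℝ) θ := by
    intro θ
    rw [← Complex.normSq_eq_norm_sq, Complex.normSq_eq_conj_mul_self, mul_comm]
    unfold Tr
    rw [map_sum, Finset.sum_mul_sum]
    refine Finset.sum_congr rfl fun j _ => Finset.sum_congr rfl fun j' _ => ?_
    have e : (((j' : ℤ) - (j : ℤ) : ℤ) : ℝ) = -(j : ℝ) - -(j' : ℝ) := by push_cast; ring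
    rw [e, ← ex_conj, map_mul]
    ring
  have h2 : ((∑ i ∈ range M, ‖Tr v (2 * Real.pi * i / M)‖ ^ 2 : ℝ) : ℂ) = ((M * ∑ j, ‖v j‖ ^ 2 : ℝ) : ℂ) := by
    rw [Complex.ofReal_sum]
    simp only [h1]
    rw [Finset.sum_comm]
    have h3 : ∀ j : Fin L, ∑ i ∈ range M, ∑ j' : Fin L, v j * conj (v j') *
        ex (((j' : ℤ) - (j : ℤ) : ℤ) : ℝ) (2 * Real.pi * i / M) = M * (v j * conj (v j)) := by
      intro j
      rw [Finset.sum_comm]
      rw [Finset.sum_eq_single j]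
      · rw [← Finset.mul_sum]
        have : ∀ i ∈ range M, ex (((j : ℤ) - (j : ℤ) : ℤ) : ℝ) (2 * Real.pi * i / M) = 1 := fun i _ => by
          rw [sub_self, Int.cast_zero, ex_zero_left]
        rw [Finset.sum_congr rfl this, Finset.sum_const, Finset.card_range, nsmul_eq_mul, mul_one]
        ring
      · intro j' _ hj'
        rw [← Finset.mul_sum, ex_sum_zero hM, mul_zero]
        · intro h
          apply hj'
          have : (j' : ℕ) = j := by omega
          exact Fin.ext this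
        · have a1 := j.2
          have a2 := j'.2
          rw [abs_lt]
          constructor <;> omega
      · intro h; exact absurd (Finset.mem_univ _) h
    rw [Finset.sum_congr rfl (fun j _ => h3 j), ← Finset.mul_sum]
    push_cast
    congr 1
    refine Finset.sum_congr rfl fun j _ => ?_
    rw [← Complex.ofReal_pow, ← Complex.normSq_eq_norm_sq, Complex.normSq_eq_conj_mul_self, mul_comm]
  exact_mod_cast h2

lemma ex_lip (μ s t : ℝ) : ‖ex μ s - ex μ t‖ ≤ |μ| * |s - t| := by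
  have e : ex μ s - ex μ t = ex μ t * (cexp (I * ((μ * (s - t) : ℝ) : ℂ)) - 1) := by
    unfold ex
    rw [mul_sub, ← Complex.exp_add, mul_one]
    congr 2
    push_cast
    ring
  rw [e, norm_mul, ex_norm, one_mul, ← abs_mul]
  exact Real.norm_exp_I_mul_ofReal_sub_one_le

lemma Tr_lip {L : ℕ} (v : Fin L → ℂ) (s t : ℝ) :
    ‖Tr v s - Tr v t‖ ^ 2 ≤ (L : ℝ) ^ 3 * |s - t| ^ 2 * ∑ j, ‖v j‖ ^ 2 := by
  have h1 : ‖Tr v s - Tr v t‖ ≤ ∑ j : Fin L, ‖v j‖ * (L * |s - t|) := by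
    unfold Tr
    rw [← Finset.sum_sub_distrib]
    refine (norm_sum_le _ _).trans (Finset.sum_le_sum fun j _ => ?_)
    rw [← mul_sub, norm_mul]
    apply mul_le_mul_of_nonneg_left _ (norm_nonneg _)
    refine (ex_lip _ _ _).trans ?_
    apply mul_le_mul_of_nonneg_right _ (abs_nonneg _)
    rw [abs_neg, abs_of_nonneg (Nat.cast_nonneg _)]
    exact_mod_cast j.2.le
  calc ‖Tr v s - Tr v t‖ ^ 2 ≤ (∑ j : Fin L, ‖v j‖ * (L * |s - t|)) ^ 2 :=
        pow_le_pow_left₀ (norm_nonneg _) h1 2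
    _ = (L * |s - t|) ^ 2 * (∑ j : Fin L, ‖v j‖) ^ 2 := by rw [← Finset.sum_mul]; ring
    _ ≤ (L * |s - t|) ^ 2 * (L * ∑ j, ‖v j‖ ^ 2) := by
        apply mul_le_mul_of_nonneg_left _ (sq_nonneg _)
        have := sq_sum_le_card_mul_sum_sq (s := (Finset.univ : Finset (Fin L))) (f := fun j => ‖v j‖)
        rwa [Finset.card_univ, Fintype.card_fin] at this
    _ = _ := by ring

lemma Tr_zero {L : ℕ} (v : Fin L → ℂ) (hv : ∑ j, v j = 0) : Tr v 0 = 0 := by
  unfold Tr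
  rw [← hv]
  refine Finset.sum_congr rfl fun j _ => ?_
  unfold ex
  simp

/-- a weighted sum over the primes in a range of logarithms -/
lemma mert : ∃ C : ℝ, 1 ≤ C ∧ ∀ (P : Finset ℕ) (A B : ℝ), 0 ≤ A → A ≤ B → (∀ p ∈ P, p.Prime) →
    (∀ p ∈ P, A < Real.log p ∧ Real.log p ≤ B) → ∑ p ∈ P, Real.log p / p ≤ B - A + C := by
  obtain ⟨C, hC⟩ := Pool.Agent.Helper256.KM.mertens_log
  have hC0 : 0 ≤ C := (abs_nonneg _).trans (hC 1 le_rfl)
  refine ⟨2 * C + 1, by linarith, fun P A B hA hAB hP hPr => ?_⟩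
  obtain ⟨N1, hN1⟩ : ∃ N1 : ℕ, N1 = ⌊Real.exp A⌋₊ := ⟨_, rfl⟩
  obtain ⟨N2, hN2⟩ : ∃ N2 : ℕ, N2 = ⌊Real.exp B⌋₊ := ⟨_, rfl⟩
  have eA : 1 ≤ Real.exp A := Real.one_le_exp hA
  have eB : 1 ≤ Real.exp B := Real.one_le_exp (hA.trans hAB)
  have h1 : 1 ≤ N1 := by rw [hN1]; exact Nat.le_floor (by exact_mod_cast eA)
  have h2 : 1 ≤ N2 := by rw [hN2]; exact Nat.le_floor (by exact_mod_cast eB)
  have h12 : N1 ≤ N2 := by rw [hN1, hN2]; exact Nat.floor_le_floor (Real.exp_le_exp.2 hAB)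
  have hsub : P ⊆ ((Finset.Icc 1 N2).filter Nat.Prime) \ ((Finset.Icc 1 N1).filter Nat.Prime) := by
    intro p hp
    have hpp := hP p hp
    have hp0 : (0 : ℝ) < p := by exact_mod_cast hpp.pos
    obtain ⟨a1, a2⟩ := hPr p hp
    rw [Finset.mem_sdiff, Finset.mem_filter, Finset.mem_filter, Finset.mem_Icc, Finset.mem_Icc]
    refine ⟨⟨⟨hpp.one_le, ?_⟩, hpp⟩, ?_⟩
    · rw [hN2]
      apply Nat.le_floor
      rwa [← Real.log_le_iff_le_exp hp0]
    · rintro ⟨⟨_, h⟩, _⟩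
      rw [hN1] at h
      have h3 : (p : ℝ) ≤ Real.exp A := (Nat.le_floor_iff (by positivity)).1 h
      rw [← Real.log_le_iff_le_exp hp0] at h3
      linarith
  have hnn : ∀ p ∈ ((Finset.Icc 1 N2).filter Nat.Prime) \ ((Finset.Icc 1 N1).filter Nat.Prime), p ∉ P →
      0 ≤ Real.log p / p := fun p _ _ => div_nonneg (Real.log_natCast_nonneg _) (Nat.cast_nonneg _)
  refine (Finset.sum_le_sum_of_subset_of_nonneg hsub hnn).trans ?_
  have hss : (Finset.Icc 1 N1).filter Nat.Prime ⊆ (Finset.Icc 1 N2).filter Nat.Prime :=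
    Finset.filter_subset_filter _ (Finset.Icc_subset_Icc_right h12)
  have h3 := Finset.sum_sdiff (f := fun p : ℕ => Real.log p / p) hss
  have h4 := (abs_le.1 (hC N1 h1)).1
  have h5 := (abs_le.1 (hC N2 h2)).2
  have h6 : Real.log N2 ≤ B := by
    have hN0 : (0 : ℝ) < N2 := by exact_mod_cast h2
    rw [Real.log_le_iff_le_exp hN0, hN2]
    exact Nat.floor_le (by positivity)
  have h7 : A - Real.log 2 ≤ Real.log N1 := by
    have h8 : Real.exp A / 2 ≤ N1 := by
      have := Nat.lt_floor_add_one (Real.exp A)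
      rw [← hN1] at this
      have h9 : (1 : ℝ) ≤ N1 := by exact_mod_cast h1
      linarith
    have h9 := Real.log_le_log (by positivity) h8
    rw [Real.log_div (by positivity) (by norm_num), Real.log_exp] at h9
    exact h9
  have h10 := Real.log_two_lt_d9
  linarith

/-- the frequency of a prime -/
noncomputable def th (T : ℝ) (p : ℕ) : ℝ := 2 * Real.pi / Real.log T * Real.log p

/-- the frame bound at high frequencies -/
lemma high : ∃ C : ℝ, 1 ≤ C ∧ ∀ (L M i0 : ℕ) (T : ℝ) (v : Fin L → ℂ) (P : Finset ℕ), 1 ≤ L → 7 * L ^ 2 ≤ M →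
    1 ≤ i0 → C * M ≤ Real.log T → (∀ p ∈ P, p.Prime) → (∀ p ∈ P, (i0 : ℝ) * Real.log T / M < Real.log p) →
    (∀ p ∈ P, Real.log p ≤ Real.log T) →
    ∑ p ∈ P, 1 / (p : ℝ) * ‖Tr v (th T p)‖ ^ 2 ≤ 8 * M / i0 * ∑ j, ‖v j‖ ^ 2 := by
  obtain ⟨C, hC1, hC⟩ := mert
  refine ⟨C, hC1, fun L M i0 T v P hL hM hi0 hT hP hlo hhi => ?_⟩
  have hpi := Real.pi_pos
  have hL1 : (1 : ℝ) ≤ L := by exact_mod_cast hL
  have hMn : 1 ≤ M := by nlinarith
  have hM' : 7 * (L : ℝ) ^ 2 ≤ M := by exact_mod_cast hM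
  have hM0 : (0 : ℝ) < M := by exact_mod_cast hMn
  have hM1 : (1 : ℝ) ≤ M := by exact_mod_cast hMn
  have hi1 : (1 : ℝ) ≤ i0 := by exact_mod_cast hi0
  have hT0 : 0 < Real.log T := by nlinarith
  obtain ⟨V, hV⟩ : ∃ V : ℝ, V = ∑ j, ‖v j‖ ^ 2 := ⟨_, rfl⟩
  have hV0 : 0 ≤ V := by rw [hV]; positivity
  -- the cells
  obtain ⟨cl, hcl⟩ : ∃ cl : ℕ → ℕ, cl = fun p : ℕ => ⌈Real.log (p : ℝ) * M / Real.log T⌉₊ - 1 := ⟨_, rfl⟩
  have hcell : ∀ p ∈ P, i0 ≤ cl p ∧ cl p < M ∧ (cl p : ℝ) * Real.log T / M < Real.log p ∧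
      Real.log p ≤ ((cl p : ℝ) + 1) * Real.log T / M := by
    intro p hp
    have a1 := hlo p hp
    have a2 := hhi p hp
    obtain ⟨x, hx⟩ : ∃ x : ℝ, x = Real.log p * M / Real.log T := ⟨_, rfl⟩
    have hx1 : (i0 : ℝ) < x := by
      rw [hx, lt_div_iff₀ hT0]
      rw [div_lt_iff₀ hM0] at a1
      exact a1
    have hx2 : x ≤ M := by
      rw [hx, div_le_iff₀ hT0, mul_comm (M : ℝ)]
      exact mul_le_mul_of_nonneg_right a2 hM0.le
    have hc1 : i0 < ⌈x⌉₊ := Nat.lt_ceil.2 hx1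
    have hc2 : ⌈x⌉₊ ≤ M := Nat.ceil_le.2 hx2
    have hcp : cl p = ⌈x⌉₊ - 1 := by rw [hcl, hx]
    have hc3 : (⌈x⌉₊ : ℝ) = cl p + 1 := by
      rw [hcp, Nat.cast_sub (by omega)]
      push_cast; ring
    have hc4 := Nat.le_ceil x
    have hc5 := Nat.ceil_lt_add_one (by linarith : 0 ≤ x)
    rw [hc3] at hc4 hc5
    have hx3 : Real.log p = x * Real.log T / M := by rw [hx]; field_simp
    refine ⟨by omega, by omega, ?_, ?_⟩
    · rw [hx3, div_lt_div_iff_of_pos_right hM0]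
      exact mul_lt_mul_of_pos_right (by linarith) hT0
    · rw [hx3]
      exact div_le_div_of_nonneg_right (mul_le_mul_of_nonneg_right hc4 hT0.le) hM0.le
  -- one cell
  have hone : ∀ i ∈ Finset.Ico i0 M, ∑ p ∈ P.filter (fun p => cl p = i), 1 / (p : ℝ) * ‖Tr v (th T p)‖ ^ 2 ≤
      2 / i0 * (2 * ‖Tr v (2 * Real.pi * i / M)‖ ^ 2 + 2 * V) := by
    intro i hi
    rw [Finset.mem_Ico] at hi
    have hii : (i0 : ℝ) ≤ i := by exact_mod_cast hi.1
    have hi0' : (0 : ℝ) < i := by linarith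
    have b1 : ∀ p ∈ P.filter (fun p => cl p = i), 1 / (p : ℝ) * ‖Tr v (th T p)‖ ^ 2 ≤
        Real.log p / p * (M / (i * Real.log T) * (2 * ‖Tr v (2 * Real.pi * i / M)‖ ^ 2 + 2 * V)) := by
      intro p hp
      rw [Finset.mem_filter] at hp
      obtain ⟨c1, c2, c3, c4⟩ := hcell p hp.1
      rw [hp.2] at c3 c4
      have hp0 : (0 : ℝ) < p := by exact_mod_cast (hP p hp.1).pos
      have d1 : ‖Tr v (th T p)‖ ^ 2 ≤ 2 * ‖Tr v (2 * Real.pi * i / M)‖ ^ 2 + 2 * V := by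
        have e1 := Tr_lip v (th T p) (2 * Real.pi * i / M)
        rw [← hV] at e1
        have e2 : |th T p - 2 * Real.pi * i / M| ≤ 2 * Real.pi / M := by
          have e3 : th T p - 2 * Real.pi * i / M = 2 * Real.pi / Real.log T * (Real.log p - i * Real.log T / M) := by
            unfold th
            field_simp
          have e4 : ((i : ℝ) + 1) * Real.log T / M = i * Real.log T / M + Real.log T / M := by ring
          rw [e3, abs_mul, abs_of_pos (by positivity), abs_of_pos (by linarith)]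
          calc 2 * Real.pi / Real.log T * (Real.log p - i * Real.log T / M) ≤
                2 * Real.pi / Real.log T * (Real.log T / M) := by
                apply mul_le_mul_of_nonneg_left _ (by positivity)
                linarith
            _ = 2 * Real.pi / M := by field_simp
        have e5 : (L : ℝ) ^ 3 * |th T p - 2 * Real.pi * i / M| ^ 2 ≤ 1 := by
          calc (L : ℝ) ^ 3 * |th T p - 2 * Real.pi * i / M| ^ 2 ≤ (L : ℝ) ^ 3 * (2 * Real.pi / M) ^ 2 := by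
                gcongr
            _ ≤ 1 := by
                rw [div_pow, mul_div_assoc', div_le_one (by positivity)]
                have f1 : (7 * (L : ℝ) ^ 2) ^ 2 ≤ (M : ℝ) ^ 2 := pow_le_pow_left₀ (by positivity) hM' 2
                have f2 : (2 * Real.pi) ^ 2 ≤ 49 := by nlinarith [Real.pi_lt_d2]
                have f3 : (L : ℝ) ^ 3 ≤ (L : ℝ) ^ 4 := pow_le_pow_right₀ hL1 (by norm_num)
                calc (L : ℝ) ^ 3 * (2 * Real.pi) ^ 2 ≤ (L : ℝ) ^ 4 * 49 := by gcongr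
                  _ = (7 * (L : ℝ) ^ 2) ^ 2 := by ring
                  _ ≤ _ := f1
        have e6 : ‖Tr v (th T p) - Tr v (2 * Real.pi * i / M)‖ ^ 2 ≤ V := by
          refine e1.trans ?_
          calc (L : ℝ) ^ 3 * |th T p - 2 * Real.pi * i / M| ^ 2 * V ≤ 1 * V := by gcongr
            _ = V := one_mul _
        have e7 : ‖Tr v (th T p)‖ ≤ ‖Tr v (th T p) - Tr v (2 * Real.pi * i / M)‖ + ‖Tr v (2 * Real.pi * i / M)‖ := by
          have := norm_add_le (Tr v (th T p) - Tr v (2 * Real.pi * i / M)) (Tr v (2 * Real.pi * i / M))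
          rwa [sub_add_cancel] at this
        have e8 := norm_nonneg (Tr v (th T p))
        nlinarith [sq_nonneg (‖Tr v (th T p) - Tr v (2 * Real.pi * i / M)‖ - ‖Tr v (2 * Real.pi * i / M)‖),
          norm_nonneg (Tr v (th T p) - Tr v (2 * Real.pi * i / M)), norm_nonneg (Tr v (2 * Real.pi * i / M))]
      have d2 : 1 ≤ Real.log p * (M / (i * Real.log T)) := by
        rw [div_lt_iff₀ hM0] at c3
        rw [mul_div_assoc', le_div_iff₀ (by positivity), one_mul]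
        exact c3.le
      have d3 : 0 ≤ 2 * ‖Tr v (2 * Real.pi * i / M)‖ ^ 2 + 2 * V := by positivity
      calc 1 / (p : ℝ) * ‖Tr v (th T p)‖ ^ 2 ≤ 1 / (p : ℝ) * (2 * ‖Tr v (2 * Real.pi * i / M)‖ ^ 2 + 2 * V) := by
            gcongr
        _ ≤ 1 / (p : ℝ) * ((Real.log p * (M / (i * Real.log T))) * (2 * ‖Tr v (2 * Real.pi * i / M)‖ ^ 2 + 2 * V)) := by
            apply mul_le_mul_of_nonneg_left _ (by positivity)
            exact le_mul_of_one_le_left d3 d2
        _ = _ := by ring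
    refine (Finset.sum_le_sum b1).trans ?_
    rw [← Finset.sum_mul]
    have b2 := hC (P.filter (fun p => cl p = i)) (i * Real.log T / M) ((i + 1) * Real.log T / M)
      (by positivity) (div_le_div_of_nonneg_right (mul_le_mul_of_nonneg_right (by linarith) hT0.le) hM0.le)
      (fun p hp => hP p (Finset.mem_filter.1 hp).1) (fun p hp => by
        rw [Finset.mem_filter] at hp
        obtain ⟨c1, c2, c3, c4⟩ := hcell p hp.1
        rw [hp.2] at c3 c4
        exact ⟨c3, c4⟩)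
    have b3 : ((i : ℝ) + 1) * Real.log T / M - i * Real.log T / M + C ≤ 2 * (Real.log T / M) := by
      have : C ≤ Real.log T / M := by rw [le_div_iff₀ hM0]; exact hT
      have e4 : ((i : ℝ) + 1) * Real.log T / M = i * Real.log T / M + Real.log T / M := by ring
      linarith
    have d3 : 0 ≤ 2 * ‖Tr v (2 * Real.pi * i / M)‖ ^ 2 + 2 * V := by positivity
    calc (∑ p ∈ P.filter (fun p => cl p = i), Real.log p / p) *
          (M / (i * Real.log T) * (2 * ‖Tr v (2 * Real.pi * i / M)‖ ^ 2 + 2 * V))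
        ≤ (2 * (Real.log T / M)) * (M / (i * Real.log T) * (2 * ‖Tr v (2 * Real.pi * i / M)‖ ^ 2 + 2 * V)) := by
          apply mul_le_mul_of_nonneg_right (b2.trans b3) (by positivity)
      _ = 2 / i * (2 * ‖Tr v (2 * Real.pi * i / M)‖ ^ 2 + 2 * V) := by field_simp
      _ ≤ 2 / i0 * (2 * ‖Tr v (2 * Real.pi * i / M)‖ ^ 2 + 2 * V) := by
          apply mul_le_mul_of_nonneg_right _ d3
          exact div_le_div_of_nonneg_left (by norm_num) (by linarith) hii
  have hsum : ∑ p ∈ P, 1 / (p : ℝ) * ‖Tr v (th T p)‖ ^ 2 =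
      ∑ i ∈ Finset.Ico i0 M, ∑ p ∈ P.filter (fun p => cl p = i), 1 / (p : ℝ) * ‖Tr v (th T p)‖ ^ 2 := by
    symm
    apply Finset.sum_fiberwise_of_maps_to
    intro p hp
    obtain ⟨c1, c2, -, -⟩ := hcell p hp
    exact Finset.mem_Ico.2 ⟨c1, c2⟩
  rw [hsum]
  refine (Finset.sum_le_sum hone).trans ?_
  rw [← Finset.mul_sum, Finset.sum_add_distrib, ← Finset.mul_sum]
  have h5 : ∑ i ∈ Finset.Ico i0 M, ‖Tr v (2 * Real.pi * i / M)‖ ^ 2 ≤ M * V := by
    have h6 : Finset.Ico i0 M ⊆ range M := fun i hi => Finset.mem_range.2 (Finset.mem_Ico.1 hi).2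
    refine (Finset.sum_le_sum_of_subset_of_nonneg h6 fun _ _ _ => sq_nonneg _).trans (le_of_eq ?_)
    rw [parseval (by nlinarith) hMn, hV]
  have h7 : ∑ _i ∈ Finset.Ico i0 M, 2 * V ≤ 2 * (M * V) := by
    rw [Finset.sum_const, nsmul_eq_mul, Nat.card_Ico]
    have : ((M - i0 : ℕ) : ℝ) ≤ M := by exact_mod_cast Nat.sub_le _ _
    nlinarith
  rw [← hV]
  calc 2 / (i0 : ℝ) * (2 * ∑ i ∈ Finset.Ico i0 M, ‖Tr v (2 * Real.pi * i / M)‖ ^ 2 + ∑ _i ∈ Finset.Ico i0 M, 2 * V)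
      ≤ 2 / (i0 : ℝ) * (2 * (M * V) + 2 * (M * V)) := by
        apply mul_le_mul_of_nonneg_left _ (by positivity)
        linarith
    _ = 8 * M / i0 * V := by ring

end Pool.Agent.X112.WD
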