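import Pool.Agent.X112.WD.Fr
import Pool.Agent.Y743.CL.Cb

/-! # Frame bounds, continued -/

set_option autoImplicit false

namespace Pool.Agent.X112.WD

open MeasureTheory Complex Finset
open scoped ComplexConjugate
open Pool.Agent.Y743.CL (Pr mem_Pr rc VS XK rc_sq kap_bd G pr pr_apply)
open Pool.Agent.X112.SD (wk rc_wk)
open Pool.Agent.X112.LF (Dc Dc_eq)
open Pool.Agent.Y41.SW (DP)

/-- the frame bound for vectors with sum zero -/
lemma full : ∃ C : ℝ, 1 ≤ C ∧ ∀ (L : ℕ) (T : ℝ) (v : Fin L → ℂ) (P : Finset ℕ), 1 ≤ L → C * L ^ 2 ≤ Real.log T →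
    ∑ j, v j = 0 → (∀ p ∈ P, p.Prime) → (∀ p ∈ P, Real.log p ≤ Real.log T) →
    ∑ p ∈ P, 1 / (p : ℝ) * ‖Tr v (th T p)‖ ^ 2 ≤ 88 * L * ∑ j, ‖v j‖ ^ 2 := by
  obtain ⟨C1, hC1, h1⟩ := high
  obtain ⟨C2, hC2, h2⟩ := mert
  refine ⟨7 * C1 + C2, by linarith, fun L T v P hL hT hv hP hhi => ?_⟩
  have hpi := Real.pi_pos
  have hL1 : (1 : ℝ) ≤ L := by exact_mod_cast hL
  have hL2 : (L : ℝ) ≤ (L : ℝ) ^ 2 := by nlinarith
  have hT0 : 0 < Real.log T := by nlinarith
  have hC1L : C1 * (7 * (L : ℝ) ^ 2) ≤ Real.log T := by nlinarith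
  have hC2L : C2 * (L : ℝ) ≤ Real.log T := by nlinarith
  obtain ⟨V, hV⟩ : ∃ V : ℝ, V = ∑ j, ‖v j‖ ^ 2 := ⟨_, rfl⟩
  have hV0 : 0 ≤ V := by rw [hV]; positivity
  rw [← Finset.sum_filter_add_sum_filter_not P (fun p : ℕ => Real.log (p : ℝ) ≤ Real.log T / L), ← hV]
  have hlow : ∑ p ∈ P.filter (fun p : ℕ => Real.log (p : ℝ) ≤ Real.log T / L), 1 / (p : ℝ) * ‖Tr v (th T p)‖ ^ 2 ≤
      80 * L * V := by
    have b1 : ∀ p ∈ P.filter (fun p : ℕ => Real.log (p : ℝ) ≤ Real.log T / L),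
        1 / (p : ℝ) * ‖Tr v (th T p)‖ ^ 2 ≤ Real.log p / p * ((L : ℝ) ^ 2 * (2 * Real.pi) ^ 2 / Real.log T * V) := by
      intro p hp
      rw [Finset.mem_filter] at hp
      have hpp := hP p hp.1
      have hp0 : (0 : ℝ) < p := by exact_mod_cast hpp.pos
      have hlp : 0 < Real.log p := Real.log_pos (by exact_mod_cast hpp.one_lt)
      have e1 := Tr_lip v (th T p) 0
      rw [Tr_zero v hv, sub_zero, sub_zero, ← hV] at e1
      have e2 : |th T p| ^ 2 = (2 * Real.pi) ^ 2 / Real.log T ^ 2 * (Real.log p * Real.log p) := by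
        rw [sq_abs]
        unfold th
        ring
      rw [e2] at e1
      have e3 : Real.log p * Real.log p ≤ Real.log p * (Real.log T / L) :=
        mul_le_mul_of_nonneg_left hp.2 hlp.le
      calc 1 / (p : ℝ) * ‖Tr v (th T p)‖ ^ 2
          ≤ 1 / (p : ℝ) * ((L : ℝ) ^ 3 * ((2 * Real.pi) ^ 2 / Real.log T ^ 2 * (Real.log p * Real.log p)) * V) := by
            gcongr
        _ ≤ 1 / (p : ℝ) * ((L : ℝ) ^ 3 * ((2 * Real.pi) ^ 2 / Real.log T ^ 2 *
            (Real.log p * (Real.log T / L))) * V) := by gcongr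
        _ = _ := by field_simp
    refine (Finset.sum_le_sum b1).trans ?_
    rw [← Finset.sum_mul]
    have b2 := h2 (P.filter (fun p : ℕ => Real.log (p : ℝ) ≤ Real.log T / L)) 0 (Real.log T / L) le_rfl
      (by positivity) (fun p hp => hP p (Finset.mem_filter.1 hp).1) (fun p hp => by
        rw [Finset.mem_filter] at hp
        exact ⟨Real.log_pos (by exact_mod_cast (hP p hp.1).one_lt), hp.2⟩)
    have b3 : Real.log T / L - 0 + C2 ≤ 2 * (Real.log T / L) := by
      have : C2 ≤ Real.log T / L := by rw [le_div_iff₀ (by linarith)]; exact hC2L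
      linarith
    calc (∑ p ∈ P.filter (fun p : ℕ => Real.log (p : ℝ) ≤ Real.log T / L), Real.log p / p) *
          ((L : ℝ) ^ 2 * (2 * Real.pi) ^ 2 / Real.log T * V)
        ≤ 2 * (Real.log T / L) * ((L : ℝ) ^ 2 * (2 * Real.pi) ^ 2 / Real.log T * V) := by
          apply mul_le_mul_of_nonneg_right (b2.trans b3) (by positivity)
      _ = (8 * Real.pi ^ 2) * (L * V) := by field_simp; ring
      _ ≤ 80 * (L * V) := by
          apply mul_le_mul_of_nonneg_right _ (by positivity)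
          nlinarith [Real.pi_lt_d2]
      _ = _ := by ring
  have hhigh := h1 L (7 * L ^ 2) (7 * L) T v (P.filter (fun p : ℕ => ¬ Real.log (p : ℝ) ≤ Real.log T / L)) hL
    le_rfl (by omega) (by push_cast; exact hC1L) (fun p hp => hP p (Finset.mem_filter.1 hp).1) (fun p hp => by
      rw [Finset.mem_filter, not_le] at hp
      refine lt_of_le_of_lt (le_of_eq ?_) hp.2
      push_cast
      field_simp) (fun p hp => hhi p (Finset.mem_filter.1 hp).1)
  rw [← hV] at hhigh
  have e : 8 * ((7 * L ^ 2 : ℕ) : ℝ) / ((7 * L : ℕ) : ℝ) * V = 8 * L * V := by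
    push_cast
    field_simp
  rw [e] at hhigh
  linarith

lemma wk_sq {l : ℝ} (hl : 0 < l) {p : ℕ} (hp : p.Prime) : wk l p ^ 2 ≤ 1 / (p : ℝ) := by
  have hlp : 0 < Real.log p := Real.log_pos (by exact_mod_cast hp.one_lt)
  have h1 := kap_bd hl (Real.pi / Real.log p) p hp.two_le
  rw [← rc_sq l _ p hp.two_le, if_pos hp.isPrimePow, rc_wk] at h1
  have h2 : Real.pi / Real.log p / 2 * Real.log p = Real.pi / 2 := by field_simp
  rw [h2, Real.sin_pi_div_two, mul_one] at h1
  exact h1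

/-- the weights at the larger primes -/
lemma wk_low (lam C1 T0 : ℝ) (hlam : 16 ≤ lam) (hVS : ∀ T : ℝ, T0 ≤ T → ∀ a : ℝ, lam ≤ a →
      a * Real.log a ≤ Real.log T →
      |VS (rc (Real.log T / lam) (2 * Real.pi * a / Real.log T)) (XK (1 / 16) T) -
        2 / Real.pi ^ 2 * Real.log a| ≤ C1) :
    ∃ C2 : ℝ, 1 ≤ C2 ∧ ∀ (M i0 : ℕ) (T : ℝ), T0 ≤ T → 1 ≤ i0 → lam ≤ (M : ℝ) / i0 →
      (M : ℝ) * Real.log M ≤ Real.log T → C2 * M ≤ Real.log T → 1 ≤ T →
      2 / Real.pi ^ 2 * Real.log ((M : ℝ) / i0) - C2 ≤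
        ∑ p ∈ (Pr (XK (1 / 16) T)).filter (fun p : ℕ => (i0 : ℝ) * Real.log T / M < Real.log p),
          wk (Real.log T / lam) p ^ 2 := by
  obtain ⟨C, hC1, hC⟩ := mert
  refine ⟨C + |C1| + 20, by linarith [abs_nonneg C1], fun M i0 T hT hi0 ha hMT hCT hT1 => ?_⟩
  have hpi := Real.pi_pos
  have hi1 : (1 : ℝ) ≤ i0 := by exact_mod_cast hi0
  obtain ⟨a, had⟩ : ∃ a : ℝ, a = (M : ℝ) / i0 := ⟨_, rfl⟩
  rw [← had] at ha ⊢
  have ha0 : 0 < a := by linarith
  have haM : (M : ℝ) = a * i0 := by rw [had]; field_simp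
  have hM0 : (0 : ℝ) < M := by rw [haM]; positivity
  have haM' : a ≤ M := by rw [haM]; exact le_mul_of_one_le_right ha0.le hi1
  have hT0' : 0 < Real.log T := by
    have : 0 < (C + |C1| + 20) * M := by
      have := abs_nonneg C1
      positivity
    linarith
  have hl : 0 < Real.log T / lam := by positivity
  have haT : a * Real.log a ≤ Real.log T := by
    refine le_trans ?_ hMT
    apply mul_le_mul haM' (Real.log_le_log ha0 haM') (Real.log_nonneg (by linarith)) hM0.le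
  have h1 := (abs_le.1 (hVS T hT a ha haT)).1
  have h2 : VS (rc (Real.log T / lam) (2 * Real.pi * a / Real.log T)) (XK (1 / 16) T) ≤
      ∑ p ∈ (Pr (XK (1 / 16) T)).filter (fun p : ℕ => (i0 : ℝ) * Real.log T / M < Real.log p),
          wk (Real.log T / lam) p ^ 2 + 20 := by
    unfold VS
    rw [← Finset.sum_filter_add_sum_filter_not (Pr (XK (1 / 16) T))
      (fun p : ℕ => (i0 : ℝ) * Real.log T / M < Real.log p)]
    refine add_le_add ?_ ?_
    · refine Finset.sum_le_sum fun p _ => ?_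
      rw [rc_wk, mul_pow]
      have h3 := Real.sin_sq_le_one (2 * Real.pi * a / Real.log T / 2 * Real.log p)
      exact mul_le_of_le_one_right (sq_nonneg _) h3
    · have b1 : ∀ p ∈ (Pr (XK (1 / 16) T)).filter (fun p : ℕ => ¬ (i0 : ℝ) * Real.log T / M < Real.log p),
          rc (Real.log T / lam) (2 * Real.pi * a / Real.log T) p ^ 2 ≤
          Real.log p / p * (Real.pi ^ 2 * a / Real.log T) := by
        intro p hp
        rw [Finset.mem_filter, mem_Pr, not_lt] at hp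
        have hpp := hp.1.1
        have hp0 : (0 : ℝ) < p := by exact_mod_cast hpp.pos
        have hlp : 0 < Real.log p := Real.log_pos (by exact_mod_cast hpp.one_lt)
        rw [rc_wk, mul_pow]
        have e1 : Real.sin (2 * Real.pi * a / Real.log T / 2 * Real.log p) ^ 2 ≤
            (2 * Real.pi * a / Real.log T / 2 * Real.log p) ^ 2 := by
          rw [← sq_abs (Real.sin _), ← sq_abs (2 * Real.pi * a / Real.log T / 2 * Real.log p)]
          exact pow_le_pow_left₀ (abs_nonneg _) Real.abs_sin_le_abs 2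
        have e2 : Real.log p * (a / Real.log T) ≤ 1 := by
          have e3 : (i0 : ℝ) * Real.log T / M = Real.log T / a := by rw [haM]; field_simp
          rw [e3] at hp
          rw [mul_div_assoc', div_le_one hT0']
          exact (le_div_iff₀ ha0).1 hp.2
        calc wk (Real.log T / lam) p ^ 2 * Real.sin (2 * Real.pi * a / Real.log T / 2 * Real.log p) ^ 2
            ≤ 1 / (p : ℝ) * (2 * Real.pi * a / Real.log T / 2 * Real.log p) ^ 2 :=
              mul_le_mul (wk_sq hl hpp) e1 (sq_nonneg _) (by positivity)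
          _ = Real.log p / p * (Real.pi ^ 2 * a / Real.log T) * (Real.log p * (a / Real.log T)) := by
              field_simp
          _ ≤ Real.log p / p * (Real.pi ^ 2 * a / Real.log T) * 1 := by gcongr
          _ = _ := mul_one _
      refine (Finset.sum_le_sum b1).trans ?_
      rw [← Finset.sum_mul]
      have b2 := hC ((Pr (XK (1 / 16) T)).filter (fun p : ℕ => ¬ (i0 : ℝ) * Real.log T / M < Real.log p)) 0
        ((i0 : ℝ) * Real.log T / M) le_rfl (by positivity)
        (fun p hp => (mem_Pr.1 (Finset.mem_filter.1 hp).1).1) (fun p hp => by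
          rw [Finset.mem_filter, mem_Pr, not_lt] at hp
          exact ⟨Real.log_pos (by exact_mod_cast hp.1.1.one_lt), hp.2⟩)
      have e3 : (i0 : ℝ) * Real.log T / M = Real.log T / a := by rw [haM]; field_simp
      have b3 : (i0 : ℝ) * Real.log T / M - 0 + C ≤ 2 * (Real.log T / a) := by
        rw [e3]
        have : C ≤ Real.log T / a := by
          rw [le_div_iff₀ ha0]
          have := abs_nonneg C1
          nlinarith
        linarith
      calc (∑ p ∈ (Pr (XK (1 / 16) T)).filter (fun p : ℕ => ¬ (i0 : ℝ) * Real.log T / M < Real.log p),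
            Real.log p / p) * (Real.pi ^ 2 * a / Real.log T)
          ≤ 2 * (Real.log T / a) * (Real.pi ^ 2 * a / Real.log T) := by
            apply mul_le_mul_of_nonneg_right (b2.trans b3) (by positivity)
        _ = 2 * Real.pi ^ 2 := by field_simp
        _ ≤ 20 := by nlinarith [Real.pi_lt_d2]
  have h3 := le_abs_self C1
  linarith

/-- the coefficients of a linear form of sum zero -/
lemma Dc_tr {L : ℕ} (l T : ℝ) (j0 : ℕ) (a : Fin L → ℝ) (ha : ∑ j, a j = 0) (p : ℕ) (hp : p ≠ 0) :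
    Dc l a (fun j : Fin L => 2 * Real.pi * ((j0 : ℝ) + 1 + j) / Real.log T) p =
      (I * (wk l p : ℂ) / 2) * ex (-((j0 : ℝ) + 1)) (th T p) * Tr (fun j => (a j : ℂ)) (th T p) := by
  unfold Dc Tr
  have h1 : ∀ j : Fin L, (a j : ℂ) * ((rc l (2 * Real.pi * ((j0 : ℝ) + 1 + j) / Real.log T) p : ℂ) *
      (p : ℂ) ^ (-((2 * Real.pi * ((j0 : ℝ) + 1 + j) / Real.log T / 2 : ℝ) : ℂ) * I)) =
      (I * (wk l p : ℂ) / 2) * (ex (-((j0 : ℝ) + 1)) (th T p) * ((a j : ℂ) * ex (-(j : ℝ)) (th T p))) -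
        (I * (wk l p : ℂ) / 2) * (a j : ℂ) := by
    intro j
    obtain ⟨x, hx⟩ : ∃ x : ℝ, x = 2 * Real.pi * ((j0 : ℝ) + 1 + j) / Real.log T / 2 * Real.log p := ⟨_, rfl⟩
    have e1 : ex (-((j0 : ℝ) + 1)) (th T p) * ((a j : ℂ) * ex (-(j : ℝ)) (th T p)) =
        (a j : ℂ) * cexp ((-(2 * x) : ℝ) * I) := by
      have : ex (-((j0 : ℝ) + 1)) (th T p) * ex (-(j : ℝ)) (th T p) = cexp ((-(2 * x) : ℝ) * I) := by
        rw [← show ex (-1 : ℝ) (2 * x) = cexp ((-(2 * x) : ℝ) * I) by unfold ex; congr 2; push_cast; ring]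
        unfold ex
        rw [← Complex.exp_add]
        congr 1
        rw [hx]
        unfold th
        push_cast
        ring
      rw [← this]; ring
    rw [e1, Pool.Agent.X112.LF.npow_cs p hp, rc_wk, ← hx]
    have e2 : cexp ((-(2 * x) : ℝ) * I) = ((Real.cos (2 * x) : ℝ) : ℂ) - ((Real.sin (2 * x) : ℝ) : ℂ) * I := by
      rw [Complex.exp_mul_I, ← Complex.ofReal_cos, ← Complex.ofReal_sin, Real.cos_neg, Real.sin_neg]
      push_cast
      ring
    rw [e2, Real.cos_two_mul, Real.sin_two_mul]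
    have e3 : Real.cos x ^ 2 = 1 - Real.sin x ^ 2 := by rw [Real.cos_sq']
    rw [e3]
    push_cast
    linear_combination ((a j : ℂ) * (wk l p : ℂ) * Complex.sin (x : ℂ) * Complex.cos (x : ℂ)) * Complex.I_sq
  rw [Finset.sum_congr rfl (fun j _ => h1 j), Finset.sum_sub_distrib, ← Finset.mul_sum, ← Finset.mul_sum,
    ← Finset.mul_sum]
  have h2 : ∑ j, (a j : ℂ) = 0 := by exact_mod_cast ha
  rw [h2, mul_zero, sub_zero]
  ring

/-- the linear form of the prime polynomials -/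
lemma lin_G {L : ℕ} (l : ℝ) (a h : Fin L → ℝ) (X : ℕ) (t : ℝ) :
    ∑ j, (a j : ℂ) * G (rc l (h j)) X (t + h j / 2) = ∑ p ∈ Pr X, Dc l a h p * ex (-Real.log p) t := by
  have h0 : ∀ j, G (rc l (h j)) X (t + h j / 2) = ∑ p ∈ Pr X, (rc l (h j) p : ℂ) *
      (p : ℂ) ^ (-((t + h j / 2 : ℝ) : ℂ) * I) := by
    intro j
    unfold G DP
    symm
    have hsub : Pr X ⊆ Finset.Icc 1 X := fun p hp => by
      rw [mem_Pr] at hp
      exact Finset.mem_Icc.2 ⟨hp.1.one_le, hp.2⟩
    rw [← Finset.sum_subset hsub]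
    · refine Finset.sum_congr rfl fun p hp => ?_
      rw [mem_Pr] at hp
      rw [pr_apply, if_pos hp]
    · intro p hp1 hp2
      rw [mem_Pr] at hp2
      rw [pr_apply, if_neg hp2]
      simp
  simp only [h0, Finset.mul_sum]
  rw [Finset.sum_comm]
  refine Finset.sum_congr rfl fun p hp => ?_
  rw [mem_Pr] at hp
  have hp0 : p ≠ 0 := hp.1.ne_zero
  have hpc : (p : ℂ) ≠ 0 := by exact_mod_cast hp0
  unfold Dc
  rw [Finset.sum_mul]
  refine Finset.sum_congr rfl fun j _ => ?_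
  have e1 : ex (-Real.log p) t = (p : ℂ) ^ (-(t : ℂ) * I) := by
    rw [Complex.cpow_def_of_ne_zero hpc, ← Complex.natCast_log]
    unfold ex
    congr 1
    push_cast
    ring
  have e2 : -((t + h j / 2 : ℝ) : ℂ) * I = -((h j / 2 : ℝ) : ℂ) * I + -(t : ℂ) * I := by
    push_cast; ring
  rw [e1, e2, Complex.cpow_add _ _ hpc]
  ring

end Pool.Agent.X112.WD
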