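import Mathlib

/-! # Mean values of exponential sums and of the squared length of a vector of prime polynomials -/

set_option autoImplicit false

namespace Pool.Agent.X112.WD

open MeasureTheory Complex Finset
open scoped ComplexConjugate

/-- the exponential -/
noncomputable def ex (μ t : ℝ) : ℂ := cexp ((μ * t : ℝ) * I)

lemma ex_norm (μ t : ℝ) : ‖ex μ t‖ = 1 := by
  unfold ex
  exact Complex.norm_exp_ofReal_mul_I _

lemma ex_conj (μ ν t : ℝ) : ex μ t * conj (ex ν t) = ex (μ - ν) t := by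
  unfold ex
  rw [← Complex.exp_conj, ← Complex.exp_add]
  congr 1
  simp only [map_mul, Complex.conj_ofReal, Complex.conj_I]
  push_cast
  ring

lemma ex_add (μ ν t : ℝ) : ex μ t * ex ν t = ex (μ + ν) t := by
  unfold ex
  rw [← Complex.exp_add]
  congr 1
  push_cast
  ring

lemma ex_cont (μ : ℝ) : Continuous (ex μ) := by
  unfold ex
  fun_prop

lemma ex_int {μ δ : ℝ} (hδ : 0 < δ) (hμ : δ ≤ |μ|) (A B : ℝ) : ‖∫ t in A..B, ex μ t‖ ≤ 2 / δ := by
  have hμ0 : μ ≠ 0 := by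
    intro h
    rw [h, abs_zero] at hμ
    linarith
  have hc : ((μ : ℂ) * I) ≠ 0 := mul_ne_zero (by exact_mod_cast hμ0) Complex.I_ne_zero
  have h1 : ∫ t in A..B, ex μ t = (ex μ B - ex μ A) / (μ * I) := by
    have h2 : ∀ t : ℝ, ex μ t = cexp ((μ * I) * t) := fun t => by
      unfold ex
      congr 1
      push_cast
      ring
    simp only [h2]
    rw [integral_exp_mul_complex hc]
  rw [h1, norm_div, norm_mul, Complex.norm_I, mul_one, Complex.norm_real, Real.norm_eq_abs]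
  have h2 : ‖ex μ B - ex μ A‖ ≤ 2 := by
    refine (norm_sub_le _ _).trans ?_
    rw [ex_norm, ex_norm]
    norm_num
  exact div_le_div₀ (by norm_num) h2 hδ hμ

/-- the mean value of an exponential sum -/
lemma mv {ι : Type*} (S : Finset ι) (a : ι → ℂ) (lam : ι → ℝ) (δ : ℝ) (hδ : 0 < δ) (m : ℕ)
    (hsep : ∀ s ∈ S, ∀ s' ∈ S, lam s' = lam s ∨ δ ≤ |lam s - lam s'|)
    (hm : ∀ s ∈ S, (S.filter (fun s' => lam s' = lam s)).card ≤ m) (A B : ℝ) (hAB : A ≤ B) :
    ∫ t in A..B, ‖∑ s ∈ S, a s * ex (lam s) t‖ ^ 2 ≤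
      (B - A) * m * ∑ s ∈ S, ‖a s‖ ^ 2 + 2 / δ * (∑ s ∈ S, ‖a s‖) ^ 2 := by
  classical
  have h1 : ∀ t : ℝ, ‖∑ s ∈ S, a s * ex (lam s) t‖ ^ 2 =
      (∑ s ∈ S, ∑ s' ∈ S, (a s * conj (a s')) * ex (lam s - lam s') t).re := by
    intro t
    have h2 : ((‖∑ s ∈ S, a s * ex (lam s) t‖ ^ 2 : ℝ) : ℂ) =
        ∑ s ∈ S, ∑ s' ∈ S, (a s * conj (a s')) * ex (lam s - lam s') t := by
      rw [← Complex.normSq_eq_norm_sq, Complex.normSq_eq_conj_mul_self, mul_comm, map_sum, Finset.sum_mul_sum]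
      refine Finset.sum_congr rfl fun s _ => Finset.sum_congr rfl fun s' _ => ?_
      rw [map_mul, ← ex_conj]
      ring
    rw [← h2, Complex.ofReal_re]
  simp only [h1]
  have hint : ∀ s s' : ι, IntervalIntegrable (fun t => (a s * conj (a s')) * ex (lam s - lam s') t)
      volume A B := fun s s' => (continuous_const.mul (ex_cont _)).intervalIntegrable _ _
  have hcont : ∀ s : ι, Continuous (fun t => ∑ s' ∈ S, (a s * conj (a s')) * ex (lam s - lam s') t) :=
    fun s => continuous_finsetSum _ fun s' _ => continuous_const.mul (ex_cont _)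
  have h3 : ∫ t in A..B, (∑ s ∈ S, ∑ s' ∈ S, (a s * conj (a s')) * ex (lam s - lam s') t).re =
      (∑ s ∈ S, ∑ s' ∈ S, (a s * conj (a s')) * ∫ t in A..B, ex (lam s - lam s') t).re := by
    have h4 : ∫ t in A..B, (∑ s ∈ S, ∑ s' ∈ S, (a s * conj (a s')) * ex (lam s - lam s') t) =
        ∑ s ∈ S, ∑ s' ∈ S, (a s * conj (a s')) * ∫ t in A..B, ex (lam s - lam s') t := by
      rw [intervalIntegral.integral_finsetSum (fun s _ => (hcont s).intervalIntegrable _ _)]
      refine Finset.sum_congr rfl fun s _ => ?_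
      rw [intervalIntegral.integral_finsetSum (fun s' _ => hint s s')]
      refine Finset.sum_congr rfl fun s' _ => ?_
      rw [intervalIntegral.integral_const_mul]
    rw [← h4]
    have h5 : IntervalIntegrable (fun t => ∑ s ∈ S, ∑ s' ∈ S, (a s * conj (a s')) * ex (lam s - lam s') t)
      volume A B := (continuous_finsetSum _ fun s _ => hcont s).intervalIntegrable _ _
    exact (Complex.reCLM.intervalIntegral_comp_comm h5)
  rw [h3]
  refine (Complex.re_le_norm _).trans ?_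
  refine (norm_sum_le _ _).trans ?_
  have h6 : ∀ s ∈ S, ‖∑ s' ∈ S, (a s * conj (a s')) * ∫ t in A..B, ex (lam s - lam s') t‖ ≤
      ∑ s' ∈ S, ((if lam s' = lam s then (B - A) * ((‖a s‖ ^ 2 + ‖a s'‖ ^ 2) / 2) else 0) +
        2 / δ * (‖a s‖ * ‖a s'‖)) := by
    intro s hs
    refine (norm_sum_le _ _).trans (Finset.sum_le_sum fun s' hs' => ?_)
    rw [norm_mul, norm_mul, RCLike.norm_conj]
    have hn0 : 0 ≤ ‖a s‖ * ‖a s'‖ := by positivity
    have hd0 : 0 ≤ 2 / δ * (‖a s‖ * ‖a s'‖) := by positivity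
    split_ifs with hl
    · rw [hl, sub_self]
      have h7 : ∫ t in A..B, ex 0 t = ((B - A : ℝ) : ℂ) := by
        have : ∀ t, ex 0 t = 1 := fun t => by unfold ex; simp
        simp only [this]
        rw [intervalIntegral.integral_const]
        simp
      rw [h7, Complex.norm_real, Real.norm_of_nonneg (by linarith)]
      have h8 : ‖a s‖ * ‖a s'‖ ≤ (‖a s‖ ^ 2 + ‖a s'‖ ^ 2) / 2 := by nlinarith [sq_nonneg (‖a s‖ - ‖a s'‖)]
      have h9 : ‖a s‖ * ‖a s'‖ * (B - A) ≤ (‖a s‖ ^ 2 + ‖a s'‖ ^ 2) / 2 * (B - A) :=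
        mul_le_mul_of_nonneg_right h8 (by linarith)
      linarith
    · rw [zero_add]
      have h7 := ex_int hδ ((hsep s hs s' hs').resolve_left hl) A B
      calc ‖a s‖ * ‖a s'‖ * ‖∫ t in A..B, ex (lam s - lam s') t‖ ≤ ‖a s‖ * ‖a s'‖ * (2 / δ) :=
            mul_le_mul_of_nonneg_left h7 hn0
        _ = _ := by ring
  refine (Finset.sum_le_sum h6).trans ?_
  simp only [Finset.sum_add_distrib]
  have h10 : ∑ s ∈ S, ∑ s' ∈ S, 2 / δ * (‖a s‖ * ‖a s'‖) = 2 / δ * (∑ s ∈ S, ‖a s‖) ^ 2 := by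
    rw [sq, Finset.sum_mul_sum, Finset.mul_sum]
    refine Finset.sum_congr rfl fun s _ => ?_
    rw [Finset.mul_sum]
  rw [h10]
  have h11 : ∑ s ∈ S, ∑ s' ∈ S, (if lam s' = lam s then (B - A) * ((‖a s‖ ^ 2 + ‖a s'‖ ^ 2) / 2) else 0) ≤
      (B - A) * m * ∑ s ∈ S, ‖a s‖ ^ 2 := by
    have h12 : ∀ s s', (if lam s' = lam s then (B - A) * ((‖a s‖ ^ 2 + ‖a s'‖ ^ 2) / 2) else 0) =
        (B - A) / 2 * ((if lam s' = lam s then ‖a s‖ ^ 2 else 0) + (if lam s' = lam s then ‖a s'‖ ^ 2 else 0)) := by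
      intro s s'
      split_ifs <;> ring
    simp only [h12, ← Finset.mul_sum, Finset.sum_add_distrib]
    have h13 : ∑ s ∈ S, ∑ s' ∈ S, (if lam s' = lam s then ‖a s‖ ^ 2 else 0) ≤ m * ∑ s ∈ S, ‖a s‖ ^ 2 := by
      rw [Finset.mul_sum]
      refine Finset.sum_le_sum fun s hs => ?_
      rw [← Finset.sum_filter, Finset.sum_const, nsmul_eq_mul]
      exact mul_le_mul_of_nonneg_right (by exact_mod_cast hm s hs) (sq_nonneg _)
    have h14 : ∑ s ∈ S, ∑ s' ∈ S, (if lam s' = lam s then ‖a s'‖ ^ 2 else 0) ≤ m * ∑ s ∈ S, ‖a s‖ ^ 2 := by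
      rw [Finset.sum_comm]
      refine le_trans (le_of_eq ?_) h13
      refine Finset.sum_congr rfl fun s _ => Finset.sum_congr rfl fun s' _ => ?_
      by_cases h : lam s = lam s'
      · rw [if_pos h, if_pos h.symm]
      · rw [if_neg h, if_neg (Ne.symm h)]
    have h15 : 0 ≤ (B - A) / 2 := by linarith
    nlinarith [mul_le_mul_of_nonneg_left (add_le_add h13 h14) h15]
  linarith

lemma log_sep {a b X : ℕ} (ha : 1 ≤ a) (hb : 1 ≤ b) (haX : a ≤ X) (hbX : b ≤ X) (hab : a ≠ b) :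
    1 / (X : ℝ) ≤ |Real.log a - Real.log b| := by
  have key : ∀ u v : ℕ, 1 ≤ u → u < v → v ≤ X → 1 / (X : ℝ) ≤ Real.log v - Real.log u := by
    intro u v hu huv hvX
    have hu0 : (0 : ℝ) < u := by exact_mod_cast hu
    have hv0 : (0 : ℝ) < v := by exact_mod_cast (by omega : 0 < v)
    have hX0 : (0 : ℝ) < X := by exact_mod_cast (by omega : 0 < X)
    have h1 := Real.one_sub_inv_le_log_of_pos (div_pos hv0 hu0)
    rw [Real.log_div hv0.ne' hu0.ne', inv_div] at h1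
    refine le_trans ?_ h1
    have h2 : (u : ℝ) + 1 ≤ v := by exact_mod_cast huv
    have h3 : (v : ℝ) ≤ X := by exact_mod_cast hvX
    rw [div_le_iff₀ hX0, one_sub_div hv0.ne', div_mul_eq_mul_div, le_div_iff₀ hv0]
    nlinarith
  rcases Nat.lt_or_ge a b with h | h
  · rw [abs_sub_comm]
    exact (key a b ha h hbX).trans (le_abs_self _)
  · exact (key b a hb (by omega) haX).trans (le_abs_self _)

end Pool.Agent.X112.WD
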