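import Pool.Agent.X112.WD.Fr2

/-! # The projection of the vector of the prime polynomials is rarely short -/

set_option autoImplicit false

namespace Pool.Agent.X112.WD

open MeasureTheory Complex Finset
open scoped ComplexConjugate
open Pool.Agent.Y743.CL (Pr mem_Pr rc VS XK G)
open Pool.Agent.X112.SD (wk)
open Pool.Agent.X112.LF (Dc)

/-- two orthonormal families which together form a basis, the first one orthogonal to the constants -/
structure Fam {L r s : ℕ} (u : Fin r → Fin L → ℝ) (w : Fin s → Fin L → ℝ) : Prop where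
  ou : ∀ k k', ∑ j, u k j * u k' j = if k = k' then 1 else 0
  ow : ∀ l, ∑ j, w l j ^ 2 = 1
  par : ∀ x : Fin L → ℝ, ∑ k, (∑ j, u k j * x j) ^ 2 + ∑ l, (∑ j, w l j * x j) ^ 2 = ∑ j, x j ^ 2
  sum0 : ∀ k, ∑ j, u k j = 0

lemma Tr_real {L : ℕ} (a : Fin L → ℝ) (θ : ℝ) : ‖Tr (fun j => (a j : ℂ)) θ‖ ^ 2 =
    (∑ j, a j * Real.cos (j * θ)) ^ 2 + (∑ j, a j * Real.sin (j * θ)) ^ 2 := by
  have h1 : Tr (fun j => (a j : ℂ)) θ = ((∑ j, a j * Real.cos (j * θ) : ℝ) : ℂ) -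
      ((∑ j, a j * Real.sin (j * θ) : ℝ) : ℂ) * I := by
    unfold Tr
    push_cast
    rw [Finset.sum_mul, ← Finset.sum_sub_distrib]
    refine Finset.sum_congr rfl fun j _ => ?_
    have e : ex (-(j : ℝ)) θ = ((Real.cos (j * θ) : ℝ) : ℂ) - ((Real.sin (j * θ) : ℝ) : ℂ) * I := by
      unfold ex
      rw [Complex.exp_mul_I, ← Complex.ofReal_cos, ← Complex.ofReal_sin, neg_mul, Real.cos_neg, Real.sin_neg]
      push_cast
      ring
    rw [e]
    push_cast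
    ring
  have e : ∀ u v : ℝ, Complex.normSq ((u : ℂ) - (v : ℂ) * I) = u ^ 2 + v ^ 2 := by
    intro u v
    rw [Complex.normSq_apply]
    simp
    ring
  rw [h1, ← Complex.normSq_eq_norm_sq, e]

lemma par_tr {L r s : ℕ} {u : Fin r → Fin L → ℝ} {w : Fin s → Fin L → ℝ} (h : Fam u w) (θ : ℝ) :
    ∑ k, ‖Tr (fun j => (u k j : ℂ)) θ‖ ^ 2 + ∑ l, ‖Tr (fun j => (w l j : ℂ)) θ‖ ^ 2 = L := by
  simp only [Tr_real, Finset.sum_add_distrib]
  have h1 := h.par (fun j => Real.cos (j * θ))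
  have h2 := h.par (fun j => Real.sin (j * θ))
  have h3 : ∑ j : Fin L, Real.cos (j * θ) ^ 2 + ∑ j : Fin L, Real.sin (j * θ) ^ 2 = L := by
    rw [← Finset.sum_add_distrib]
    simp
  linarith

lemma comb_norm {L r s : ℕ} {u : Fin r → Fin L → ℝ} {w : Fin s → Fin L → ℝ} (h : Fam u w) (x : Fin r → ℂ) :
    ∑ j, ‖∑ k, x k * (u k j : ℂ)‖ ^ 2 = ∑ k, ‖x k‖ ^ 2 := by
  have h1 : ((∑ j, ‖∑ k, x k * (u k j : ℂ)‖ ^ 2 : ℝ) : ℂ) = ((∑ k, ‖x k‖ ^ 2 : ℝ) : ℂ) := by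
    rw [Complex.ofReal_sum, Complex.ofReal_sum]
    have h2 : ∀ j, ((‖∑ k, x k * (u k j : ℂ)‖ ^ 2 : ℝ) : ℂ) =
        ∑ k, ∑ k', x k * conj (x k') * ((u k j * u k' j : ℝ) : ℂ) := by
      intro j
      rw [← Complex.normSq_eq_norm_sq, Complex.normSq_eq_conj_mul_self, mul_comm, map_sum, Finset.sum_mul_sum]
      refine Finset.sum_congr rfl fun k _ => Finset.sum_congr rfl fun k' _ => ?_
      rw [map_mul, Complex.conj_ofReal]
      push_cast
      ring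
    simp only [h2]
    rw [Finset.sum_comm]
    refine Finset.sum_congr rfl fun k _ => ?_
    rw [Finset.sum_comm]
    have h3 : ∀ k', ∑ j, x k * conj (x k') * ((u k j * u k' j : ℝ) : ℂ) =
        if k = k' then x k * conj (x k') else 0 := by
      intro k'
      rw [← Finset.mul_sum, ← Complex.ofReal_sum, h.ou]
      split_ifs <;> simp
    simp only [h3]
    rw [Finset.sum_ite_eq]
    simp only [Finset.mem_univ, if_true]
    rw [← Complex.normSq_eq_norm_sq, Complex.normSq_eq_conj_mul_self, mul_comm]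
  exact_mod_cast h1

theorem proj_conc (lam C1 T0 : ℝ) (hlam : 16 ≤ lam) (hVS : ∀ T : ℝ, T0 ≤ T → ∀ a : ℝ, lam ≤ a →
      a * Real.log a ≤ Real.log T →
      |VS (rc (Real.log T / lam) (2 * Real.pi * a / Real.log T)) (XK (1 / 16) T) -
        2 / Real.pi ^ 2 * Real.log a| ≤ C1) :
    ∃ C : ℝ, 1 ≤ C ∧ ∀ (L r s : ℕ) (u : Fin r → Fin L → ℝ) (w : Fin s → Fin L → ℝ), Fam u w →
      ∀ (j0 M i0 : ℕ) (T : ℝ), 1 ≤ L → 7 * L ^ 2 ≤ M → 1 ≤ i0 → lam ≤ (M : ℝ) / i0 →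
      (M : ℝ) * Real.log M ≤ Real.log T → C * M ≤ Real.log T → T0 ≤ T → 1 ≤ T →
      ∃ tr : ℝ, (L * (2 / Real.pi ^ 2 * Real.log ((M : ℝ) / i0) - C) - s * (8 * M / i0)) / 4 ≤ tr ∧
        (0 < tr → ∀ A B : ℝ, A ≤ B →
          volume.real {t | t ∈ Set.Icc A B ∧ ∑ k, (∑ j : Fin L, u k j *
            (G (rc (Real.log T / lam) (2 * Real.pi * ((j0 : ℝ) + 1 + j) / Real.log T)) (XK (1 / 16) T)
              (t + 2 * Real.pi * ((j0 : ℝ) + 1 + j) / Real.log T / 2)).re) ^ 2 < tr / 4} ≤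
          528 * (B - A) * L / tr + 32 * ((XK (1 / 16) T : ℕ) : ℝ) ^ 4) := by
  obtain ⟨C2, hC2, h2⟩ := full
  obtain ⟨C3, hC3, h3⟩ := high
  obtain ⟨C4, hC4, h4⟩ := wk_low lam C1 T0 hlam hVS
  refine ⟨C2 + C3 + C4, by linarith, fun L r s u w hF j0 M i0 T hL hM hi0 ha hMT hCT hTT0 hT1 => ?_⟩
  have hpi := Real.pi_pos
  have hL1 : (1 : ℝ) ≤ L := by exact_mod_cast hL
  have hM' : 7 * (L : ℝ) ^ 2 ≤ M := by exact_mod_cast hM
  have hM0 : (0 : ℝ) < M := by nlinarith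
  have hi1 : (1 : ℝ) ≤ i0 := by exact_mod_cast hi0
  have hT0 : 0 < Real.log T := by nlinarith
  have hC2M : C2 * (L : ℝ) ^ 2 ≤ Real.log T := by nlinarith
  have hC3M : C3 * (M : ℝ) ≤ Real.log T := by nlinarith
  have hC4M : C4 * (M : ℝ) ≤ Real.log T := by nlinarith
  obtain ⟨l, hl⟩ : ∃ l : ℝ, l = Real.log T / lam := ⟨_, rfl⟩
  have hl0 : 0 < l := by rw [hl]; positivity
  obtain ⟨X, hX⟩ : ∃ X : ℕ, X = XK (1 / 16) T := ⟨_, rfl⟩
  obtain ⟨h, hh⟩ : ∃ h : Fin L → ℝ, h = fun j : Fin L => 2 * Real.pi * ((j0 : ℝ) + 1 + j) / Real.log T := ⟨_, rfl⟩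
  obtain ⟨g, hg⟩ : ∃ g : ℕ → Fin r → ℂ, g = fun p k => Dc l (u k) h p := ⟨_, rfl⟩
  obtain ⟨tr, htr⟩ : ∃ tr : ℝ, tr = ∑ p ∈ Pr X, ∑ k, ‖g p k‖ ^ 2 := ⟨_, rfl⟩
  have hX1 : 1 ≤ X := by
    rw [hX]
    unfold XK
    apply Nat.le_floor
    push_cast
    exact Real.one_le_rpow hT1 (by norm_num)
  have hXT : (X : ℝ) ≤ T := by
    rw [hX]
    unfold XK
    refine (Nat.floor_le (by positivity)).trans ?_
    calc T ^ (1 / 16 : ℝ) ≤ T ^ (1 : ℝ) := Real.rpow_le_rpow_of_exponent_le hT1 (by norm_num)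
      _ = T := Real.rpow_one _
  have hlogp : ∀ p ∈ Pr X, Real.log p ≤ Real.log T := by
    intro p hp
    rw [mem_Pr] at hp
    apply Real.log_le_log (by exact_mod_cast hp.1.pos)
    have : (p : ℝ) ≤ X := by exact_mod_cast hp.2
    linarith
  have hprime : ∀ p ∈ Pr X, p.Prime := fun p hp => (mem_Pr.1 hp).1
  -- the coefficients
  obtain ⟨c, hc⟩ : ∃ c : ℕ → ℂ, c = fun p => (I * (wk l p : ℂ) / 2) * ex (-((j0 : ℝ) + 1)) (th T p) := ⟨_, rfl⟩
  have hcn : ∀ p, ‖c p‖ ^ 2 = wk l p ^ 2 / 4 := by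
    intro p
    rw [hc]
    simp only
    rw [norm_mul, ex_norm, mul_one, norm_div, norm_mul, Complex.norm_I, one_mul, Complex.norm_real,
      Real.norm_eq_abs, div_pow, sq_abs]
    norm_num
  have hgc : ∀ p ∈ Pr X, ∀ k, g p k = c p * Tr (fun j => (u k j : ℂ)) (th T p) := by
    intro p hp k
    rw [hg, hc, hh]
    exact Dc_tr l T j0 (u k) (hF.sum0 k) p (hprime p hp).ne_zero
  have hcl : ∀ p ∈ Pr X, ‖c p‖ ^ 2 ≤ 1 / 4 * (1 / (p : ℝ)) := by
    intro p hp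
    rw [hcn]
    have := wk_sq hl0 (hprime p hp)
    linarith
  have hlin : ∀ (x : Fin r → ℂ) (θ : ℝ), ∑ k, Tr (fun j => (u k j : ℂ)) θ * x k =
      Tr (fun j => ∑ k, x k * (u k j : ℂ)) θ := by
    intro x θ
    unfold Tr
    simp only [Finset.sum_mul]
    rw [Finset.sum_comm]
    refine Finset.sum_congr rfl fun j _ => Finset.sum_congr rfl fun k _ => ?_
    ring
  have hframe : ∀ x : Fin r → ℂ, ∑ p ∈ Pr X, ‖∑ k, g p k * x k‖ ^ 2 ≤ 22 * L * ∑ k, ‖x k‖ ^ 2 := by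
    intro x
    have e1 : ∀ p ∈ Pr X, ‖∑ k, g p k * x k‖ ^ 2 ≤
        1 / 4 * (1 / (p : ℝ) * ‖Tr (fun j => ∑ k, x k * (u k j : ℂ)) (th T p)‖ ^ 2) := by
      intro p hp
      have e2 : ∑ k, g p k * x k = c p * Tr (fun j => ∑ k, x k * (u k j : ℂ)) (th T p) := by
        rw [← hlin, Finset.mul_sum]
        refine Finset.sum_congr rfl fun k _ => ?_
        rw [hgc p hp k]
        ring
      rw [e2, norm_mul, mul_pow]
      have := mul_le_mul_of_nonneg_right (hcl p hp)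
        (sq_nonneg ‖Tr (fun j => ∑ k, x k * (u k j : ℂ)) (th T p)‖)
      linarith
    refine (Finset.sum_le_sum e1).trans ?_
    rw [← Finset.mul_sum]
    have e3 := h2 L T (fun j => ∑ k, x k * (u k j : ℂ)) (Pr X) hL hC2M (by
      rw [Finset.sum_comm]
      refine Finset.sum_eq_zero fun k _ => ?_
      rw [← Finset.mul_sum, ← Complex.ofReal_sum, hF.sum0 k]
      simp) hprime hlogp
    rw [comb_norm hF x] at e3
    linarith
  refine ⟨tr, ?_, fun htr0 A B hAB => ?_⟩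
  · -- the lower bound for the trace
    have e1 : tr = ∑ p ∈ Pr X, wk l p ^ 2 / 4 * ∑ k, ‖Tr (fun j => (u k j : ℂ)) (th T p)‖ ^ 2 := by
      rw [htr]
      refine Finset.sum_congr rfl fun p hp => ?_
      rw [Finset.mul_sum]
      refine Finset.sum_congr rfl fun k _ => ?_
      rw [hgc p hp k, norm_mul, mul_pow, hcn]
    obtain ⟨Ph, hPh⟩ : ∃ Ph : Finset ℕ, Ph = (Pr X).filter (fun p : ℕ => (i0 : ℝ) * Real.log T / M < Real.log p) :=
      ⟨_, rfl⟩
    have e2 : ∑ p ∈ Ph, wk l p ^ 2 / 4 * ∑ k, ‖Tr (fun j => (u k j : ℂ)) (th T p)‖ ^ 2 ≤ tr := by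
      rw [e1, hPh]
      exact Finset.sum_le_sum_of_subset_of_nonneg (Finset.filter_subset _ _) fun _ _ _ => by positivity
    have e3 : ∀ p ∈ Ph, wk l p ^ 2 / 4 * ∑ k, ‖Tr (fun j => (u k j : ℂ)) (th T p)‖ ^ 2 =
        L / 4 * wk l p ^ 2 - 1 / 4 * ∑ i, wk l p ^ 2 * ‖Tr (fun j => (w i j : ℂ)) (th T p)‖ ^ 2 := by
      intro p _
      have := par_tr hF (th T p)
      have e4 : ∑ k, ‖Tr (fun j => (u k j : ℂ)) (th T p)‖ ^ 2 =
          L - ∑ i, ‖Tr (fun j => (w i j : ℂ)) (th T p)‖ ^ 2 := by linarith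
      rw [e4, ← Finset.mul_sum]
      ring
    rw [Finset.sum_congr rfl e3, Finset.sum_sub_distrib, ← Finset.mul_sum, ← Finset.mul_sum] at e2
    have e5 : ∑ p ∈ Ph, ∑ i, wk l p ^ 2 * ‖Tr (fun j => (w i j : ℂ)) (th T p)‖ ^ 2 ≤ s * (8 * M / i0) := by
      rw [Finset.sum_comm]
      have e6 : ∀ i : Fin s, ∑ p ∈ Ph, wk l p ^ 2 * ‖Tr (fun j => (w i j : ℂ)) (th T p)‖ ^ 2 ≤ 8 * M / i0 := by
        intro i
        have e7 := h3 L M i0 T (fun j => (w i j : ℂ)) Ph hL hM hi0 hC3M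
          (fun p hp => by rw [hPh] at hp; exact hprime p (Finset.mem_filter.1 hp).1)
          (fun p hp => by rw [hPh] at hp; exact (Finset.mem_filter.1 hp).2)
          (fun p hp => by rw [hPh] at hp; exact hlogp p (Finset.mem_filter.1 hp).1)
        have e8 : ∑ j, ‖((w i j : ℝ) : ℂ)‖ ^ 2 = 1 := by
          rw [← hF.ow i]
          refine Finset.sum_congr rfl fun j _ => ?_
          rw [Complex.norm_real, Real.norm_eq_abs, sq_abs]
        rw [e8, mul_one] at e7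
        refine le_trans (Finset.sum_le_sum fun p hp => ?_) e7
        rw [hPh] at hp
        exact mul_le_mul_of_nonneg_right (wk_sq hl0 (hprime p (Finset.mem_filter.1 hp).1)) (sq_nonneg _)
      refine (Finset.sum_le_sum fun i _ => e6 i).trans (le_of_eq ?_)
      rw [Finset.sum_const, Finset.card_univ, Fintype.card_fin, nsmul_eq_mul]
    have e9 := h4 M i0 T hTT0 hi0 ha hMT hC4M hT1
    rw [← hl, ← hX, ← hPh] at e9
    have e10 : L / 4 * (2 / Real.pi ^ 2 * Real.log ((M : ℝ) / i0) - C4) ≤ L / 4 * ∑ p ∈ Ph, wk l p ^ 2 :=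
      mul_le_mul_of_nonneg_left e9 (by positivity)
    nlinarith
  · have e1 := conc X hX1 g (22 * L) tr htr0 htr (fun q _ => by
      have := hframe (fun k => conj (g q k))
      simp only [RCLike.norm_conj] at this
      exact this) (fun q _ => hframe (fun k => g q k)) A B hAB
    have e2 : ∀ (t : ℝ) (k : Fin r), (Gv X g k t).re = ∑ j : Fin L, u k j *
            (G (rc (Real.log T / lam) (2 * Real.pi * ((j0 : ℝ) + 1 + j) / Real.log T)) (XK (1 / 16) T)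
              (t + 2 * Real.pi * ((j0 : ℝ) + 1 + j) / Real.log T / 2)).re := by
      intro t k
      have e3 := congrArg Complex.re (lin_G l (u k) h X t)
      rw [Complex.re_sum] at e3
      unfold Gv
      rw [hg]
      rw [← e3, hh, hl, hX]
      refine Finset.sum_congr rfl fun j _ => ?_
      rw [Complex.re_ofReal_mul]
    simp only [e2] at e1
    refine e1.trans (le_of_eq ?_)
    rw [hX]
    ring

end Pool.Agent.X112.WD
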