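import Pool.Agent.X112.WD.Pj
import Pool.Agent.X112.SD.Palm

/-! # The positions of the zeros and the counts -/

set_option autoImplicit false

namespace Pool.Agent.X112.WD

open MeasureTheory Finset
open SG (ord NZ)
open Pool.Agent.Y743.CL (rc XK G er)

/-- the fluctuation of the number of zeros in a window of length `i` -/
noncomputable def Df (T : ℝ) (i : ℕ) (t : ℝ) : ℝ :=
  (NZ (t + i * (2 * Real.pi / Real.log T)) : ℝ) - NZ t - i

/-- the normalised position of the `i`-th zero after `t` -/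
noncomputable def gp (T : ℝ) (i : ℕ) (t : ℝ) : ℝ := (ord (NZ t + i) - t) / (2 * Real.pi / Real.log T)

/-- the error -/
noncomputable def rho (T : ℝ) (i : ℕ) (t : ℝ) : ℝ := gp T i t - i + Df T i t

lemma first {u t : ℝ} {i K : ℕ} (hi : 1 ≤ i) (hiK : i ≤ K) (hg : NZ t + K ≤ NZ (t + ((2 * K : ℕ) : ℝ) * u)) :
    ∃ b : ℕ, 1 ≤ b ∧ b ≤ 2 * K ∧ NZ (t + ((b - 1 : ℕ) : ℝ) * u) < NZ t + i ∧ NZ t + i ≤ NZ (t + (b : ℝ) * u) := by
  classical
  have hex : ∃ b : ℕ, NZ t + i ≤ NZ (t + (b : ℝ) * u) := ⟨2 * K, by omega⟩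
  have h1 := Nat.find_spec hex
  have h2 := Nat.find_min' hex (show NZ t + i ≤ NZ (t + ((2 * K : ℕ) : ℝ) * u) by omega)
  have h3 : 1 ≤ Nat.find hex := by
    by_contra hcon
    have h0 : Nat.find hex = 0 := by omega
    rw [h0, Nat.cast_zero, zero_mul, add_zero] at h1
    omega
  refine ⟨Nat.find hex, h3, h2, ?_, h1⟩
  have h4 := Nat.find_min hex (show Nat.find hex - 1 < Nat.find hex by omega)
  omega

lemma rho_det {T t : ℝ} (hT : 1 < T) {i b : ℕ} (hi : 1 ≤ i) (hb : 1 ≤ b)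
    (h1 : NZ (t + ((b - 1 : ℕ) : ℝ) * (2 * Real.pi / Real.log T)) < NZ t + i)
    (h2 : NZ t + i ≤ NZ (t + (b : ℝ) * (2 * Real.pi / Real.log T))) :
    (b : ℝ) - 1 ≤ gp T i t ∧ gp T i t ≤ b ∧ |rho T i t| ≤ 1 + |Df T i t - Df T b t| + |Df T i t - Df T (b - 1) t| := by
  have hpi := Real.pi_pos
  have hL : 0 < Real.log T := Real.log_pos hT
  obtain ⟨u, hu⟩ : ∃ u : ℝ, u = 2 * Real.pi / Real.log T := ⟨_, rfl⟩
  have hu0 : 0 < u := by rw [hu]; positivity
  rw [← hu] at h1 h2
  have hn : 1 ≤ NZ t + i := by omega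
  have a1 : gp T i t ≤ b := by
    unfold gp
    rw [← hu, div_le_iff₀ hu0]
    have := (SG.ord_le_iff hn (t + b * u)).mpr h2
    linarith
  have hbc : ((b - 1 : ℕ) : ℝ) = b - 1 := by rw [Nat.cast_sub hb]; simp
  have a2 : (b : ℝ) - 1 ≤ gp T i t := by
    unfold gp
    rw [← hu, le_div_iff₀ hu0]
    by_contra hcon
    push Not at hcon
    have := (SG.ord_le_iff hn (t + ((b - 1 : ℕ) : ℝ) * u)).mp (by rw [hbc]; linarith)
    omega
  refine ⟨a2, a1, ?_⟩
  have a3 : (i : ℝ) - b ≤ Df T b t := by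
    unfold Df
    rw [← hu]
    have : ((NZ t + i : ℕ) : ℝ) ≤ NZ (t + (b : ℝ) * u) := by exact_mod_cast h2
    push_cast at this
    linarith
  have a4 : Df T (b - 1) t ≤ i - b := by
    unfold Df
    rw [← hu]
    have : ((NZ (t + ((b - 1 : ℕ) : ℝ) * u) + 1 : ℕ) : ℝ) ≤ ((NZ t + i : ℕ) : ℝ) := by exact_mod_cast h1
    push_cast [hbc] at this ⊢
    linarith
  have a5 := le_abs_self (Df T i t - Df T (b - 1) t)
  have a6 := neg_abs_le (Df T i t - Df T b t)
  have a7 := abs_nonneg (Df T i t - Df T b t)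
  have a8 := abs_nonneg (Df T i t - Df T (b - 1) t)
  unfold rho
  rw [abs_le]
  constructor <;> linarith

/-- the sum for the near case -/
noncomputable def nearS (T : ℝ) (R i : ℕ) (t : ℝ) : ℝ :=
  ∑ d ∈ range (2 * R + 2), ((Df T (i + d) t - Df T i t) ^ 2 + (if d ≤ i then (Df T i t - Df T (i - d) t) ^ 2 else 0))

/-- the sum for the far case -/
noncomputable def farS (T : ℝ) (R K i : ℕ) (t : ℝ) : ℝ :=
  ∑ m ∈ Icc (R + 1) (2 * K), (2 * (m : ℝ) + 1) * ((if (m : ℝ) ≤ |Df T (i + m - 1) t| then 1 else 0) +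
    (if m ≤ i ∧ (m : ℝ) ≤ |Df T (i - m) t| then 1 else 0))

lemma sum_odd (a b : ℕ) (hab : a ≤ b) : ∑ m ∈ Icc (a + 1) b, (2 * (m : ℝ) + 1) = ((b : ℝ) + 1) ^ 2 - ((a : ℝ) + 1) ^ 2 := by
  induction b, hab using Nat.le_induction with
  | base => simp
  | succ n hn ih =>
    rw [Finset.sum_Icc_succ_top (by omega), ih]
    push_cast
    ring

lemma near_mem {T t : ℝ} {R i j : ℕ} (h1 : i ≤ j + (2 * R + 1)) (h2 : j ≤ i + (2 * R + 1)) :
    (Df T i t - Df T j t) ^ 2 ≤ nearS T R i t := by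
  unfold nearS
  rcases Nat.le_total i j with hij | hij
  · have h3 : j - i ∈ range (2 * R + 2) := by rw [mem_range]; omega
    refine le_trans ?_ (Finset.single_le_sum (f := fun d => ((Df T (i + d) t - Df T i t) ^ 2 +
      (if d ≤ i then (Df T i t - Df T (i - d) t) ^ 2 else 0))) (fun d _ => by positivity) h3)
    rw [show i + (j - i) = j by omega]
    have : 0 ≤ (if j - i ≤ i then (Df T i t - Df T (i - (j - i)) t) ^ 2 else 0) := by positivity
    nlinarith
  · have h3 : i - j ∈ range (2 * R + 2) := by rw [mem_range]; omega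
    refine le_trans ?_ (Finset.single_le_sum (f := fun d => ((Df T (i + d) t - Df T i t) ^ 2 +
      (if d ≤ i then (Df T i t - Df T (i - d) t) ^ 2 else 0))) (fun d _ => by positivity) h3)
    rw [if_pos (by omega), show i - (i - j) = j by omega]
    have : 0 ≤ (Df T (i + (i - j)) t - Df T i t) ^ 2 := sq_nonneg _
    linarith

/-- the pointwise bound for one position -/
lemma rho_sq {T t : ℝ} (hT : 1 < T) {i K R : ℕ} (hi : 1 ≤ i) (hiK : i ≤ K) (hR : 1 ≤ R)
    (hg : NZ t + K ≤ NZ (t + ((2 * K : ℕ) : ℝ) * (2 * Real.pi / Real.log T))) (e g : ℝ)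
    (heg : |Df T i t| ≤ |e| + g) (hg0 : 0 ≤ g) :
    rho T i t ^ 2 ≤ 3 + 6 * nearS T R i t + 6 * farS T R K i t + 8 * e ^ 2 + 8 * g ^ 4 / (R : ℝ) ^ 2 := by
  have hpi := Real.pi_pos
  have hL : 0 < Real.log T := Real.log_pos hT
  obtain ⟨u, hu⟩ : ∃ u : ℝ, u = 2 * Real.pi / Real.log T := ⟨_, rfl⟩
  have hu0 : 0 < u := by rw [hu]; positivity
  have hR1 : (1 : ℝ) ≤ R := by exact_mod_cast hR
  obtain ⟨b, hb1, hbK, h1, h2⟩ := first hi hiK hg
  obtain ⟨a1, a2, a3⟩ := rho_det hT hi hb1 h1 h2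
  have hnS : 0 ≤ nearS T R i t := by unfold nearS; positivity
  have hfS : 0 ≤ farS T R K i t := by unfold farS; positivity
  have hg4 : 0 ≤ g ^ 4 / (R : ℝ) ^ 2 := by positivity
  by_cases hnear : i ≤ b + 2 * R ∧ b ≤ i + 2 * R
  · obtain ⟨n1, n2⟩ := hnear
    have b1 : (Df T i t - Df T b t) ^ 2 ≤ nearS T R i t := near_mem (by omega) (by omega)
    have b2 : (Df T i t - Df T (b - 1) t) ^ 2 ≤ nearS T R i t := near_mem (by omega) (by omega)
    rw [← sq_abs] at b1 b2
    obtain ⟨x, hx⟩ : ∃ x : ℝ, x = |Df T i t - Df T b t| := ⟨_, rfl⟩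
    obtain ⟨y, hy⟩ : ∃ y : ℝ, y = |Df T i t - Df T (b - 1) t| := ⟨_, rfl⟩
    rw [← hx] at a3 b1
    rw [← hy] at a3 b2
    have hx0 : 0 ≤ x := by rw [hx]; exact abs_nonneg _
    have hy0 : 0 ≤ y := by rw [hy]; exact abs_nonneg _
    have b3 : rho T i t ^ 2 ≤ (1 + x + y) ^ 2 := by
      rw [← sq_abs]
      exact pow_le_pow_left₀ (abs_nonneg _) a3 2
    have b4 : (1 + x + y) ^ 2 ≤ 3 * (1 + x ^ 2 + y ^ 2) := by
      nlinarith [sq_nonneg (1 - x), sq_nonneg (1 - y), sq_nonneg (x - y)]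
    have he : 8 * g ^ 4 / (R : ℝ) ^ 2 = 8 * (g ^ 4 / (R : ℝ) ^ 2) := by ring
    rw [he]
    nlinarith [sq_nonneg e]
  · -- the distance
    obtain ⟨n, hn⟩ : ∃ n : ℕ, (b = i + n ∨ i = b + n) ∧ 2 * R + 1 ≤ n := by
      rcases Nat.le_total i b with h | h
      · refine ⟨b - i, Or.inl (by omega), ?_⟩
        by_contra hc
        exact hnear ⟨by omega, by omega⟩
      · refine ⟨i - b, Or.inr (by omega), ?_⟩
        by_contra hc
        exact hnear ⟨by omega, by omega⟩
    obtain ⟨hbn, hn2⟩ := hn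
    have hnK : n ≤ 2 * K := by
      rcases hbn with h | h <;> omega
    -- the far sum
    have hfar : ((n : ℝ) + 1) ^ 2 - ((R : ℝ) + 1) ^ 2 ≤ farS T R K i t := by
      rw [← sum_odd R n (by omega)]
      unfold farS
      have hsub : Icc (R + 1) n ⊆ Icc (R + 1) (2 * K) := Finset.Icc_subset_Icc_right hnK
      refine le_trans (Finset.sum_le_sum fun m hm => ?_)
        (Finset.sum_le_sum_of_subset_of_nonneg hsub fun _ _ _ => by positivity)
      rw [Finset.mem_Icc] at hm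
      have hm0 : (0 : ℝ) ≤ 2 * (m : ℝ) + 1 := by positivity
      have hone : (1 : ℝ) ≤ (if (m : ℝ) ≤ |Df T (i + m - 1) t| then 1 else 0) +
          (if m ≤ i ∧ (m : ℝ) ≤ |Df T (i - m) t| then 1 else 0) := by
        rcases hbn with h | h
        · have c1 : (m : ℝ) ≤ |Df T (i + m - 1) t| := by
            have c2 : NZ (t + ((i + m - 1 : ℕ) : ℝ) * u) < NZ t + i := by
              refine lt_of_le_of_lt (SG.NZ_mono ?_) (by rw [← hu] at h1; exact h1)
              have : ((i + m - 1 : ℕ) : ℝ) ≤ ((b - 1 : ℕ) : ℝ) := by exact_mod_cast (by omega)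
              have := mul_le_mul_of_nonneg_right this hu0.le
              linarith
            have c3 : ((NZ (t + ((i + m - 1 : ℕ) : ℝ) * u) + 1 : ℕ) : ℝ) ≤ ((NZ t + i : ℕ) : ℝ) := by
              exact_mod_cast c2
            have c4 : ((i + m - 1 : ℕ) : ℝ) = i + m - 1 := by
              rw [Nat.cast_sub (by omega)]; push_cast; ring
            push_cast at c3
            have c5 : Df T (i + m - 1) t ≤ -m := by
              unfold Df
              rw [← hu]
              linarith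
            rw [← abs_neg]
            exact le_trans (by linarith) (le_abs_self _)
          rw [if_pos c1]
          have : (0 : ℝ) ≤ (if m ≤ i ∧ (m : ℝ) ≤ |Df T (i - m) t| then 1 else 0) := by positivity
          linarith
        · have hmi : m ≤ i := by omega
          have c1 : (m : ℝ) ≤ |Df T (i - m) t| := by
            have c2 : NZ t + i ≤ NZ (t + ((i - m : ℕ) : ℝ) * u) := by
              refine le_trans (by rw [← hu] at h2; exact h2) (SG.NZ_mono ?_)
              have : (b : ℝ) ≤ ((i - m : ℕ) : ℝ) := by exact_mod_cast (by omega)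
              have := mul_le_mul_of_nonneg_right this hu0.le
              linarith
            have c3 : ((NZ t + i : ℕ) : ℝ) ≤ NZ (t + ((i - m : ℕ) : ℝ) * u) := by exact_mod_cast c2
            have c4 : ((i - m : ℕ) : ℝ) = i - m := by rw [Nat.cast_sub hmi]
            push_cast at c3
            have c5 : (m : ℝ) ≤ Df T (i - m) t := by
              unfold Df
              rw [← hu]
              linarith
            exact c5.trans (le_abs_self _)
          rw [if_pos (⟨hmi, c1⟩ : m ≤ i ∧ (m : ℝ) ≤ |Df T (i - m) t|)]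
          have : (0 : ℝ) ≤ (if (m : ℝ) ≤ |Df T (i + m - 1) t| then 1 else 0) := by positivity
          linarith
      nlinarith
    have hn1 : 2 * ((R : ℝ) + 1) ≤ (n : ℝ) + 1 + 0 := by
      have : ((2 * R + 1 : ℕ) : ℝ) ≤ n := by exact_mod_cast hn2
      push_cast at this
      linarith
    have hfar2 : ((n : ℝ) + 1) ^ 2 ≤ 4 / 3 * farS T R K i t := by
      have hR0 : 0 ≤ (R : ℝ) + 1 := by positivity
      nlinarith
    have hgi : |gp T i t - i| ≤ n + 1 := by
      have c1 : |(b : ℝ) - i| ≤ n := by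
        rcases hbn with h | h
        · have : (b : ℝ) = i + n := by exact_mod_cast h
          rw [this]; simp
        · have : (i : ℝ) = b + n := by exact_mod_cast h
          rw [this]; simp
      rw [abs_le] at c1 ⊢
      constructor <;> linarith [c1.1, c1.2]
    have hr : rho T i t ^ 2 ≤ 2 * ((n : ℝ) + 1) ^ 2 + 2 * Df T i t ^ 2 := by
      have c1 : (gp T i t - i) ^ 2 ≤ ((n : ℝ) + 1) ^ 2 := by
        rw [← sq_abs]
        exact pow_le_pow_left₀ (abs_nonneg _) hgi 2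
      unfold rho
      nlinarith [sq_nonneg (gp T i t - i - Df T i t)]
    have hD : Df T i t ^ 2 ≤ ((n : ℝ) + 1) ^ 2 + 4 * e ^ 2 + 4 * (g ^ 4 / (R : ℝ) ^ 2) := by
      rw [← sq_abs (Df T i t), ← sq_abs e]
      obtain ⟨D, hDd⟩ : ∃ D : ℝ, D = |Df T i t| := ⟨_, rfl⟩
      rw [← hDd] at heg ⊢
      have hD0 : 0 ≤ D := by rw [hDd]; exact abs_nonneg _
      have he0 := abs_nonneg e
      have s1 : 0 ≤ ((n : ℝ) + 1) ^ 2 := sq_nonneg _
      have s2 : 0 ≤ |e| ^ 2 := sq_nonneg _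
      by_cases hc : D ≤ n + 1
      · have : D ^ 2 ≤ ((n : ℝ) + 1) ^ 2 := pow_le_pow_left₀ hD0 hc 2
        linarith
      · push Not at hc
        by_cases hc2 : D ≤ 2 * |e|
        · have h3 : D ^ 2 ≤ (2 * |e|) ^ 2 := pow_le_pow_left₀ hD0 hc2 2
          have h4 : (2 * |e|) ^ 2 = 4 * |e| ^ 2 := by ring
          linarith
        · push Not at hc2
          have c3 : D ≤ 2 * g := by linarith
          have c4 : (R : ℝ) ≤ g := by linarith
          have c5 : D ^ 2 ≤ (2 * g) ^ 2 := pow_le_pow_left₀ hD0 c3 2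
          have c5' : (2 * g) ^ 2 = 4 * g ^ 2 := by ring
          have c6 : g ^ 2 ≤ g ^ 4 / (R : ℝ) ^ 2 := by
            rw [le_div_iff₀ (by positivity)]
            have h3 : (R : ℝ) ^ 2 ≤ g ^ 2 := pow_le_pow_left₀ (by linarith) c4 2
            have h4 := mul_le_mul_of_nonneg_left h3 (sq_nonneg g)
            have h5 : g ^ 2 * g ^ 2 = g ^ 4 := by ring
            linarith
          linarith
    have he : 8 * g ^ 4 / (R : ℝ) ^ 2 = 8 * (g ^ 4 / (R : ℝ) ^ 2) := by ring
    rw [he]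
    linarith

end Pool.Agent.X112.WD
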