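import Pool.Agent.X112.WD.Po

/-! # Second and fourth moments for all positions -/

set_option autoImplicit false

namespace Pool.Agent.X112.WD

open MeasureTheory Filter Topology
open SG (ord NZ)
open Pool.Agent.Y743.CL (rc XK G er VS VS_nonneg SS SS_le mom_bd comb er_meas G_cont)
open Pool.Agent.Y743.NC (dev dev_nonneg dev_int var_le)

lemma sin_add_bd (x y : ℝ) : Real.sin x ^ 2 ≤ 2 * Real.sin (x + y) ^ 2 + 2 * Real.sin y ^ 2 := by
  have h1 : Real.sin x = Real.sin (x + y) * Real.cos y - Real.cos (x + y) * Real.sin y := by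
    rw [← Real.sin_sub, add_sub_cancel_right]
  have h2 : (Real.sin (x + y) * Real.cos y) ^ 2 ≤ Real.sin (x + y) ^ 2 := by
    rw [mul_pow]
    have := Real.cos_sq_le_one y
    nlinarith [sq_nonneg (Real.sin (x + y))]
  have h3 : (Real.cos (x + y) * Real.sin y) ^ 2 ≤ Real.sin y ^ 2 := by
    rw [mul_pow]
    have := Real.cos_sq_le_one (x + y)
    nlinarith [sq_nonneg (Real.sin y)]
  rw [h1]
  nlinarith [sq_nonneg (Real.sin (x + y) * Real.cos y + Real.cos (x + y) * Real.sin y)]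

lemma rc_sin (l h h' : ℝ) (n : ℕ) : rc l h n ^ 2 ≤ 2 * rc l (h + h') n ^ 2 + 2 * rc l h' n ^ 2 := by
  obtain ⟨K, hK⟩ : ∃ K : ℝ, ∀ h, rc l h n = K * Real.sin (h / 2 * Real.log n) := by
    refine ⟨2 * (1 / Real.sqrt (2 * Real.pi)) * (ArithmeticFunction.vonMangoldt n * (Real.sqrt n)⁻¹ *
      Pool.Agent.TH850.UV.ggo l n) * (l / (2 * Real.pi) * (2 / Real.log n)), fun h => ?_⟩
    unfold rc
    ring
  rw [hK, hK, hK]
  have h1 := sin_add_bd (h / 2 * Real.log n) (h' / 2 * Real.log n)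
  rw [show h / 2 * Real.log n + h' / 2 * Real.log n = (h + h') / 2 * Real.log n by ring] at h1
  have h2 := mul_le_mul_of_nonneg_left h1 (sq_nonneg K)
  simp only [mul_pow]
  linarith

lemma vs_all (lam C1 T0 : ℝ) (hlam : 16 ≤ lam) (hVS : ∀ T : ℝ, T0 ≤ T → ∀ a : ℝ, lam ≤ a →
      a * Real.log a ≤ Real.log T →
      |VS (rc (Real.log T / lam) (2 * Real.pi * a / Real.log T)) (XK (1 / 16) T) -
        2 / Real.pi ^ 2 * Real.log a| ≤ C1) :
    ∃ C : ℝ, 1 ≤ C ∧ ∀ K : ℕ, ∃ T1 : ℝ, ∀ T : ℝ, T1 ≤ T → ∀ y : ℕ, y ≤ K →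
      VS (rc (Real.log T / lam) (2 * Real.pi * y / Real.log T)) (XK (1 / 16) T) ≤ C * (1 + Real.log (1 + y)) := by
  obtain ⟨N, hN⟩ : ∃ N : ℕ, N = ⌈lam⌉₊ := ⟨_, rfl⟩
  have hNl : lam ≤ N := by rw [hN]; exact Nat.le_ceil _
  have hN1 : (16 : ℝ) ≤ N := by linarith
  have hlogN : 0 ≤ Real.log (1 + N) := Real.log_nonneg (by linarith)
  have hpi := Real.pi_gt_three
  have hp2 : 2 / Real.pi ^ 2 ≤ 1 := by
    rw [div_le_one (by positivity)]
    nlinarith
  have hp0 : 0 ≤ 2 / Real.pi ^ 2 := by positivity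
  refine ⟨4 + 4 * |C1| + 4 * Real.log (1 + N), by linarith [abs_nonneg C1], fun K => ?_⟩
  obtain ⟨T1, hT1⟩ := (Real.tendsto_log_atTop.eventually_ge_atTop (((K : ℝ) + N) * Real.log (K + N))).exists_forall_of_atTop
  refine ⟨max T0 T1, fun T hT y hy => ?_⟩
  have g1 := hT1 T ((le_max_right _ _).trans hT)
  have hTT0 : T0 ≤ T := (le_max_left _ _).trans hT
  have hy' : (y : ℝ) ≤ K := by exact_mod_cast hy
  have hy0 : (0 : ℝ) ≤ y := Nat.cast_nonneg y
  have hK0 : (0 : ℝ) ≤ K := Nat.cast_nonneg K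
  have hmono : ∀ a : ℝ, lam ≤ a → a ≤ K + N → a * Real.log a ≤ Real.log T := by
    intro a ha haK
    refine le_trans ?_ g1
    exact mul_le_mul haK (Real.log_le_log (by linarith) haK) (Real.log_nonneg (by linarith)) (by linarith)
  have v1 := abs_le.1 (hVS T hTT0 (y + N) (by linarith) (hmono _ (by linarith) (by linarith)))
  have v2 := abs_le.1 (hVS T hTT0 N hNl (hmono _ hNl (by linarith)))
  have v3 : VS (rc (Real.log T / lam) (2 * Real.pi * y / Real.log T)) (XK (1 / 16) T) ≤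
      2 * VS (rc (Real.log T / lam) (2 * Real.pi * (y + N) / Real.log T)) (XK (1 / 16) T) +
      2 * VS (rc (Real.log T / lam) (2 * Real.pi * N / Real.log T)) (XK (1 / 16) T) := by
    unfold VS
    rw [Finset.mul_sum, Finset.mul_sum, ← Finset.sum_add_distrib]
    refine Finset.sum_le_sum fun p _ => ?_
    have := rc_sin (Real.log T / lam) (2 * Real.pi * y / Real.log T) (2 * Real.pi * N / Real.log T) p
    rwa [show 2 * Real.pi * y / Real.log T + 2 * Real.pi * N / Real.log T =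
      2 * Real.pi * (y + N) / Real.log T by ring] at this
  have hl1 : Real.log (y + N) ≤ Real.log (1 + y) + Real.log (1 + N) := by
    rw [← Real.log_mul (by positivity) (by positivity)]
    apply Real.log_le_log (by linarith)
    nlinarith
  have hl2 : Real.log N ≤ Real.log (1 + N) := Real.log_le_log (by linarith) (by linarith)
  have hly : 0 ≤ Real.log (1 + y) := Real.log_nonneg (by linarith)
  have hl3 : 0 ≤ Real.log ((y : ℝ) + N) := Real.log_nonneg (by linarith)
  have hl4 : 0 ≤ Real.log (N : ℝ) := Real.log_nonneg (by linarith)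
  have w1 : 2 / Real.pi ^ 2 * Real.log (y + N) ≤ Real.log (y + N) := by nlinarith
  have w2 : 2 / Real.pi ^ 2 * Real.log N ≤ Real.log N := by nlinarith
  have w3 := le_abs_self C1
  have w4 := abs_nonneg C1
  have w5 : 0 ≤ |C1| * Real.log (1 + y) := mul_nonneg w4 hly
  have w6 : 0 ≤ Real.log (1 + N) * Real.log (1 + y) := mul_nonneg hlogN hly
  nlinarith [v1.2, v2.2]

lemma G_mom (c : ℕ → ℝ) (X : ℕ) (hX : 1 ≤ X) (T A B : ℝ) (hT : 1 ≤ T) (hAB : A ≤ B) (hBA : B - A ≤ T) (k : ℕ)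
    (hXT : ((X ^ (k + k) : ℕ) : ℝ) ≤ Real.sqrt T) :
    ∫ t in A..B, ‖G c X t‖ ^ (2 * k) ≤ 17 * T * (k.factorial * VS c X ^ k) := by
  have h1 := mom_bd c X hX T A B hT hAB k k hXT
  rw [if_pos rfl] at h1
  have h2 : (∫ t in A..B, G c X t ^ k * (starRingEnd ℂ) (G c X t) ^ k) =
      ((∫ t in A..B, ‖G c X t‖ ^ (2 * k) : ℝ) : ℂ) := by
    rw [← intervalIntegral.integral_ofReal]
    refine intervalIntegral.integral_congr fun t _ => ?_
    show G c X t ^ k * (starRingEnd ℂ) (G c X t) ^ k = ((‖G c X t‖ ^ (2 * k) : ℝ) : ℂ)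
    rw [← mul_pow, Complex.mul_conj, Complex.normSq_eq_norm_sq, pow_mul]
    push_cast
    rfl
  rw [h2] at h1
  obtain ⟨a, ha⟩ : ∃ a : ℝ, a = k.factorial * VS c X ^ k := ⟨_, rfl⟩
  have ha0 : 0 ≤ a := by rw [ha]; have := VS_nonneg c X; positivity
  have hSS := SS_le c X k
  rw [← ha] at hSS h1 ⊢
  rw [Real.mul_self_sqrt ha0, ← Complex.ofReal_mul, ← Complex.ofReal_sub, Complex.norm_real,
    Real.norm_eq_abs] at h1
  have h3 := (abs_le.1 h1).2
  have hs1 : 1 ≤ Real.sqrt T := by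
    rw [← Real.sqrt_one]
    exact Real.sqrt_le_sqrt hT
  have hs2 : Real.sqrt T * Real.sqrt T = T := Real.mul_self_sqrt (by linarith)
  have hlog : 1 + Real.log T ≤ 2 * Real.sqrt T := by
    have h4 : Real.log T = 2 * Real.log (Real.sqrt T) := by
      rw [Real.log_sqrt (by linarith)]; ring
    have h5 := Real.log_le_sub_one_of_pos (by linarith : 0 < Real.sqrt T)
    rw [h4]
    linarith
  have hsT : Real.sqrt T * (1 + Real.log T) ≤ 2 * T := by nlinarith
  have hSS0 : 0 ≤ SS c X k := Pool.Agent.Y743.CL.SS_nonneg c X k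
  have h6 : (B - A) * SS c X k ≤ T * a := by
    refine (mul_le_mul_of_nonneg_right hBA hSS0).trans ?_
    exact mul_le_mul_of_nonneg_left hSS (by linarith)
  have h7 : 8 * (Real.sqrt T * (1 + Real.log T)) * a ≤ 16 * T * a := by
    apply mul_le_mul_of_nonneg_right _ ha0
    linarith
  linarith

/-- the polynomial over the primes which belongs to the position `y` -/
noncomputable def gG (lam T : ℝ) (y : ℕ) (t : ℝ) : ℂ :=
  G (rc (Real.log T / lam) (2 * Real.pi * y / Real.log T)) (XK (1 / 16) T) (t + 2 * Real.pi * y / Real.log T / 2)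

/-- the error -/
noncomputable def E (lam T : ℝ) (y : ℕ) (t : ℝ) : ℝ := Df T y t + (gG lam T y t).re

lemma E_er (lam T : ℝ) (y : ℕ) (t : ℝ) : E lam T y t = er lam (1 / 16) T y t := by
  unfold E er Df gG
  rw [show t + (y : ℝ) * (2 * Real.pi / Real.log T) = t + 2 * Real.pi * y / Real.log T by ring]

lemma Df_dev (T : ℝ) (y : ℕ) (t : ℝ) : Df T y t ^ 2 = dev T y t := by
  unfold Df dev
  rw [show t + (y : ℝ) * (2 * Real.pi / Real.log T) = t + 2 * Real.pi * y / Real.log T by ring]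

lemma gG_cont (lam T : ℝ) (y : ℕ) : Continuous (gG lam T y) := (G_cont _ _).comp (by fun_prop)

lemma Df_meas (T : ℝ) (y : ℕ) : Measurable (Df T y) := by
  unfold Df
  have h1 : Measurable fun t : ℝ => (NZ t : ℝ) := measurable_from_nat.comp (SG.NZ_mono.measurable)
  exact ((h1.comp (measurable_id.add_const _)).sub h1).sub_const _

lemma E_meas (lam T : ℝ) (y : ℕ) : Measurable (E lam T y) :=
  (Df_meas T y).add (Complex.continuous_re.comp (gG_cont lam T y)).measurable

lemma bdd_int {f : ℝ → ℝ} (hf : Measurable f) (A B M : ℝ) (hM : ∀ t ∈ Set.Icc A B, |f t| ≤ M) :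
    IntegrableOn f (Set.Icc A B) := by
  refine Measure.integrableOn_of_bounded (M := M) ?_ hf.aestronglyMeasurable ?_
  · rw [Real.volume_Icc]; exact ENNReal.ofReal_ne_top
  · exact (ae_restrict_iff' measurableSet_Icc).mpr (Filter.Eventually.of_forall fun t ht => by
      rw [Real.norm_eq_abs]; exact hM t ht)

lemma Df_bdd {T : ℝ} (hT : 1 < T) (y : ℕ) (A B : ℝ) : ∃ M : ℝ, ∀ t ∈ Set.Icc A B, |Df T y t| ≤ M := by
  have hL : 0 < Real.log T := Real.log_pos hT
  have hpi := Real.pi_pos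
  refine ⟨(NZ (B + y * (2 * Real.pi / Real.log T)) : ℝ) + NZ B + y, fun t ht => ?_⟩
  have h1 : (NZ (t + y * (2 * Real.pi / Real.log T)) : ℝ) ≤ NZ (B + y * (2 * Real.pi / Real.log T)) := by
    exact_mod_cast SG.NZ_mono (by linarith [ht.2])
  have h2 : (NZ t : ℝ) ≤ NZ B := by exact_mod_cast SG.NZ_mono ht.2
  have h3 : (0 : ℝ) ≤ NZ (t + y * (2 * Real.pi / Real.log T)) := Nat.cast_nonneg _
  have h4 : (0 : ℝ) ≤ NZ t := Nat.cast_nonneg _
  have h5 : (0 : ℝ) ≤ y := Nat.cast_nonneg _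
  unfold Df
  rw [abs_le]
  constructor <;> linarith

lemma gG_bdd (lam T : ℝ) (y : ℕ) (A B : ℝ) : ∃ M : ℝ, ∀ t ∈ Set.Icc A B, ‖gG lam T y t‖ ≤ M := by
  obtain ⟨M, hM⟩ := isCompact_Icc.exists_bound_of_continuousOn (gG_cont lam T y).continuousOn (s := Set.Icc A B)
  exact ⟨M, hM⟩

lemma E_bdd {T : ℝ} (hT : 1 < T) (lam : ℝ) (y : ℕ) (A B : ℝ) : ∃ M : ℝ, ∀ t ∈ Set.Icc A B, |E lam T y t| ≤ M := by
  obtain ⟨M1, h1⟩ := Df_bdd hT y A B
  obtain ⟨M2, h2⟩ := gG_bdd lam T y A B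
  refine ⟨M1 + M2, fun t ht => ?_⟩
  unfold E
  refine (abs_add_le _ _).trans (add_le_add (h1 t ht) ?_)
  exact (Complex.abs_re_le_norm _).trans (h2 t ht)

lemma E_int {T : ℝ} (hT : 1 < T) (lam : ℝ) (y : ℕ) (A B : ℝ) : IntegrableOn (fun t => E lam T y t ^ 2) (Set.Icc A B) := by
  obtain ⟨M, hM⟩ := E_bdd hT lam y A B
  refine bdd_int ((E_meas lam T y).pow_const 2) A B (M ^ 2) fun t ht => ?_
  rw [abs_pow]
  exact pow_le_pow_left₀ (abs_nonneg _) (hM t ht) 2

lemma Df_int {T : ℝ} (hT : 1 < T) (y z : ℕ) (A B : ℝ) :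
    IntegrableOn (fun t => (Df T y t - Df T z t) ^ 2) (Set.Icc A B) := by
  obtain ⟨M, hM⟩ := Df_bdd hT y A B
  obtain ⟨M', hM'⟩ := Df_bdd hT z A B
  refine bdd_int (((Df_meas T y).sub (Df_meas T z)).pow_const 2) A B ((M + M') ^ 2) fun t ht => ?_
  rw [abs_pow]
  refine pow_le_pow_left₀ (abs_nonneg _) ?_ 2
  have h1 := abs_le.1 (hM t ht)
  have h2 := abs_le.1 (hM' t ht)
  show |Df T y t - Df T z t| ≤ M + M'
  rw [abs_le]
  constructor <;> linarith

lemma gG_int (lam T : ℝ) (y k : ℕ) (A B : ℝ) : IntegrableOn (fun t => ‖gG lam T y t‖ ^ k) (Set.Icc A B) :=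
  ((gG_cont lam T y).norm.pow k).integrableOn_Icc

lemma X_small {T : ℝ} (hT : 1 ≤ T) : 1 ≤ XK (1 / 16) T ∧ ((XK (1 / 16) T ^ (2 + 2) : ℕ) : ℝ) ≤ Real.sqrt T ∧
    ((XK (1 / 16) T ^ (1 + 1) : ℕ) : ℝ) ≤ Real.sqrt T ∧ ((XK (1 / 16) T : ℕ) : ℝ) ^ 4 ≤ Real.sqrt T := by
  have h1 : 1 ≤ XK (1 / 16) T := by
    unfold XK
    apply Nat.le_floor
    push_cast
    exact Real.one_le_rpow hT (by norm_num)
  have h2 : ((XK (1 / 16) T : ℕ) : ℝ) ≤ T ^ (1 / 16 : ℝ) := by
    unfold XK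
    exact Nat.floor_le (by positivity)
  have h3 : ((XK (1 / 16) T : ℕ) : ℝ) ^ 4 ≤ Real.sqrt T := by
    calc ((XK (1 / 16) T : ℕ) : ℝ) ^ 4 ≤ (T ^ (1 / 16 : ℝ)) ^ 4 := pow_le_pow_left₀ (Nat.cast_nonneg _) h2 4
      _ = T ^ (1 / 4 : ℝ) := by
          rw [← Real.rpow_natCast, ← Real.rpow_mul (by linarith)]
          norm_num
      _ ≤ T ^ (1 / 2 : ℝ) := Real.rpow_le_rpow_of_exponent_le hT (by norm_num)
      _ = Real.sqrt T := (Real.sqrt_eq_rpow T).symm
  have h1' : (1 : ℝ) ≤ ((XK (1 / 16) T : ℕ) : ℝ) := by exact_mod_cast h1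
  refine ⟨h1, by push_cast; exact h3, ?_, h3⟩
  push_cast
  refine le_trans ?_ h3
  exact pow_le_pow_right₀ h1' (by norm_num)

lemma gG_mom (lam T A B : ℝ) (y : ℕ) (hT : 1 ≤ T) (hAB : A ≤ B) (hBA : B - A ≤ T) :
    (∫ t in Set.Icc A B, ‖gG lam T y t‖ ^ 4 ≤
      34 * T * VS (rc (Real.log T / lam) (2 * Real.pi * y / Real.log T)) (XK (1 / 16) T) ^ 2) ∧
    ∫ t in Set.Icc A B, ‖gG lam T y t‖ ^ 2 ≤
      17 * T * VS (rc (Real.log T / lam) (2 * Real.pi * y / Real.log T)) (XK (1 / 16) T) := by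
  obtain ⟨h1, h2, h3, _⟩ := X_small hT
  have key : ∀ k : ℕ, ((XK (1 / 16) T ^ (k + k) : ℕ) : ℝ) ≤ Real.sqrt T → ∫ t in Set.Icc A B, ‖gG lam T y t‖ ^ (2 * k) ≤
      17 * T * (k.factorial * VS (rc (Real.log T / lam) (2 * Real.pi * y / Real.log T)) (XK (1 / 16) T) ^ k) := by
    intro k hk
    have e1 := G_mom (rc (Real.log T / lam) (2 * Real.pi * y / Real.log T)) (XK (1 / 16) T) h1 T
      (A + 2 * Real.pi * y / Real.log T / 2) (B + 2 * Real.pi * y / Real.log T / 2) hT (by linarith) (by linarith) k hk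
    rw [← intervalIntegral.integral_comp_add_right
      (fun t => ‖G (rc (Real.log T / lam) (2 * Real.pi * y / Real.log T)) (XK (1 / 16) T) t‖ ^ (2 * k))] at e1
    rw [integral_Icc_eq_integral_Ioc, ← intervalIntegral.integral_of_le hAB]
    exact e1
  constructor
  · have := key 2 h2
    norm_num [Nat.factorial] at this ⊢
    linarith
  · have := key 1 h3
    norm_num [Nat.factorial] at this ⊢
    linarith

theorem moments : ∃ lam C T0 : ℝ, 16 ≤ lam ∧ 1 ≤ C ∧ 10 ≤ T0 ∧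
    (∀ T : ℝ, T0 ≤ T → ∀ a : ℝ, lam ≤ a → a * Real.log a ≤ Real.log T →
      |VS (rc (Real.log T / lam) (2 * Real.pi * a / Real.log T)) (XK (1 / 16) T) -
        2 / Real.pi ^ 2 * Real.log a| ≤ C) ∧
    ∀ K : ℕ, ∃ T1 : ℝ, 10 ≤ T1 ∧ ∀ T : ℝ, T1 ≤ T → ∀ y : ℕ, y ≤ K →
      (∫ t in Set.Icc (T + Real.log T) (2 * T - Real.log T - 7), E lam T y t ^ 2 ≤ C * T) ∧
      ∫ t in Set.Icc (T + Real.log T) (2 * T - Real.log T - 7), ‖gG lam T y t‖ ^ 4 ≤
        C * T * (1 + Real.log (1 + y)) ^ 2 := by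
  obtain ⟨lam, C1, T1, hlam, hC1, hT1, hcomb⟩ := comb 1 le_rfl
  obtain ⟨C2, T2, hC2, hT2, hvar⟩ := var_le
  have hlog16 : 0 ≤ Real.log 16 := Real.log_nonneg (by norm_num)
  obtain ⟨T3, hT3⟩ := (Real.tendsto_log_atTop.eventually_ge_atTop (128 : ℝ)).exists_forall_of_atTop
  have hVS : ∀ T : ℝ, max T1 T3 ≤ T → ∀ a : ℝ, lam ≤ a → a * Real.log a ≤ Real.log T →
      |VS (rc (Real.log T / lam) (2 * Real.pi * a / Real.log T)) (XK (1 / 16) T) -
        2 / Real.pi ^ 2 * Real.log a| ≤ C1 * (1 + Real.log 16) := by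
    intro T hT a ha haT
    have g1 := hT3 T ((le_max_right _ _).trans hT)
    obtain ⟨-, -, h3⟩ := hcomb T ((le_max_left _ _).trans hT) a ha (by linarith) (1 / 16) (by norm_num) (by norm_num)
      (by linarith)
    rwa [show (1 : ℝ) / (1 / 16) = 16 by norm_num] at h3
  obtain ⟨C3, hC3, hvs⟩ := vs_all lam _ _ hlam hVS
  obtain ⟨N, hN⟩ : ∃ N : ℕ, N = ⌈lam⌉₊ := ⟨_, rfl⟩
  have hNl : lam ≤ N := by rw [hN]; exact Nat.le_ceil _
  have hN1 : (16 : ℝ) ≤ N := by linarith
  have hlN : 0 ≤ Real.log (1 + N) := Real.log_nonneg (by linarith)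
  refine ⟨lam, C1 * (1 + Real.log 16) + 2 * (C2 + Real.log (1 + N)) + 34 * (C3 * (1 + Real.log (1 + N))) + 34 * C3 ^ 2,
    max T1 T3, hlam, ?_, hT1.trans (le_max_left _ _), ?_, ?_⟩
  · have h1 : 0 ≤ C1 * (1 + Real.log 16) := by positivity
    have h2 : 0 ≤ 34 * (C3 * (1 + Real.log (1 + N))) := by positivity
    nlinarith
  · intro T hT a ha haT
    refine (hVS T hT a ha haT).trans ?_
    have h2 : 0 ≤ 34 * (C3 * (1 + Real.log (1 + N))) := by positivity
    nlinarith
  intro K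
  obtain ⟨T4, hT4⟩ := hvs K
  have hev : ∀ᶠ T : ℝ in atTop, 2 * Real.log T + 7 ≤ T / 2 := by
    have h1 : (fun T : ℝ => 2 * Real.log T + 7) =o[atTop] fun T : ℝ => T :=
      (Real.isLittleO_log_id_atTop.const_mul_left 2).add (Asymptotics.isLittleO_const_id_atTop _)
    have h2 := h1.bound (c := 1 / 2) (by norm_num)
    filter_upwards [h2, eventually_ge_atTop 1] with T hT hT1
    rw [Real.norm_of_nonneg (by linarith : (0 : ℝ) ≤ T)] at hT
    have := (le_abs_self _).trans hT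
    linarith
  obtain ⟨T5, hT5⟩ := (hev.and ((Real.tendsto_log_atTop.eventually_ge_atTop
    (((K : ℝ) + N) * Real.log (K + N))))).exists_forall_of_atTop
  refine ⟨max (max (max T1 T2) (max T3 T4)) T5,
    hT1.trans ((le_max_left _ _).trans ((le_max_left _ _).trans (le_max_left _ _))), fun T hT y hy => ?_⟩
  have hTT1 : T1 ≤ T := (((le_max_left _ _).trans (le_max_left _ _)).trans (le_max_left _ _)).trans hT
  have hTT2 : T2 ≤ T := (((le_max_right _ _).trans (le_max_left _ _)).trans (le_max_left _ _)).trans hT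
  have hTT3 : T3 ≤ T := (((le_max_left _ _).trans (le_max_right _ _)).trans (le_max_left _ _)).trans hT
  have hTT4 : T4 ≤ T := (((le_max_right _ _).trans (le_max_right _ _)).trans (le_max_left _ _)).trans hT
  obtain ⟨g1, g2⟩ := hT5 T ((le_max_right _ _).trans hT)
  have g3 := hT3 T hTT3
  have hT10 : 10 ≤ T := hT1.trans hTT1
  have hy' : (y : ℝ) ≤ K := by exact_mod_cast hy
  have hy0 : (0 : ℝ) ≤ y := Nat.cast_nonneg y
  have hK0 : (0 : ℝ) ≤ K := Nat.cast_nonneg K
  have hly : 0 ≤ Real.log (1 + y) := Real.log_nonneg (by linarith)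
  have hmono : ∀ a : ℝ, 1 ≤ a → a ≤ K + N → a * Real.log a ≤ Real.log T := by
    intro a ha haK
    refine le_trans ?_ g2
    exact mul_le_mul haK (Real.log_le_log (by linarith) haK) (Real.log_nonneg (by linarith)) (by linarith)
  have hAB : T + Real.log T ≤ 2 * T - Real.log T - 7 := by linarith
  have hBA : 2 * T - Real.log T - 7 - (T + Real.log T) ≤ T := by linarith
  obtain ⟨m4, m2⟩ := gG_mom lam T (T + Real.log T) (2 * T - Real.log T - 7) y (by linarith) hAB hBA
  have v1 := hT4 T hTT4 y hy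
  have v0 := VS_nonneg (rc (Real.log T / lam) (2 * Real.pi * y / Real.log T)) (XK (1 / 16) T)
  have hCa : 0 ≤ C1 * (1 + Real.log 16) := by positivity
  have hCb : 0 ≤ C2 + Real.log (1 + N) := by positivity
  have hCc : 0 ≤ C3 * (1 + Real.log (1 + N)) := by positivity
  constructor
  · rcases le_or_gt lam (y : ℝ) with hyl | hyl
    · obtain ⟨-, h2, -⟩ := hcomb T hTT1 y hyl (by rw [one_mul]; exact hmono _ (by linarith) (by linarith)) (1 / 16)
        (by norm_num) (by norm_num) (by linarith)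
      rw [show (1 : ℝ) / (1 / 16) = 16 by norm_num] at h2
      rw [integral_Icc_eq_integral_Ioc, ← intervalIntegral.integral_of_le hAB]
      simp only [E_er]
      refine h2.trans ?_
      apply mul_le_mul_of_nonneg_right _ (by linarith)
      nlinarith
    · -- small positions
      have hyN : (y : ℝ) ≤ N := by linarith
      have hd : ∫ t in Set.Icc (T + Real.log T) (2 * T - Real.log T - 7), Df T y t ^ 2 ≤
          T * (C2 + Real.log (1 + N)) := by
        rcases Nat.eq_zero_or_pos y with h0 | h0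
        · have e0 : ∀ t, Df T y t ^ 2 = 0 := by
            intro t
            rw [h0]
            unfold Df
            simp
          simp only [e0]
          rw [integral_zero]
          positivity
        · have h1 : (1 : ℝ) ≤ y := by exact_mod_cast h0
          simp only [Df_dev]
          have h2 := hvar T hTT2 y (by linarith) (hmono _ h1 (by linarith))
          refine le_trans (setIntegral_mono_set (dev_int T y T (2 * T)) (ae_of_all _ fun t => dev_nonneg _ _ _) ?_)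
            (h2.trans ?_)
          · exact (Set.Icc_subset_Icc (by linarith) (by linarith)).eventuallyLE
          · apply mul_le_mul_of_nonneg_left _ (by linarith)
            have := Real.log_le_log (by linarith : (0 : ℝ) < 1 + y) (by linarith : (1 : ℝ) + y ≤ 1 + N)
            linarith
      have hT1' : 1 < T := by linarith
      have i1 : IntegrableOn (fun t => Df T y t ^ 2) (Set.Icc (T + Real.log T) (2 * T - Real.log T - 7)) := by
        have := Df_int hT1' y 0 (T + Real.log T) (2 * T - Real.log T - 7)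
        have e0 : ∀ t, Df T 0 t = 0 := by intro t; unfold Df; simp
        simpa only [e0, sub_zero] using this
      have i2 := gG_int lam T y 2 (T + Real.log T) (2 * T - Real.log T - 7)
      have hle : ∫ t in Set.Icc (T + Real.log T) (2 * T - Real.log T - 7), E lam T y t ^ 2 ≤
          ∫ t in Set.Icc (T + Real.log T) (2 * T - Real.log T - 7), (2 * Df T y t ^ 2 + 2 * ‖gG lam T y t‖ ^ 2) := by
        refine integral_mono (E_int hT1' lam y _ _) ((i1.const_mul 2).add (i2.const_mul 2)) fun t => ?_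
        simp only
        unfold E
        have h1 := Complex.abs_re_le_norm (gG lam T y t)
        have h2 : (gG lam T y t).re ^ 2 ≤ ‖gG lam T y t‖ ^ 2 := by
          rw [← sq_abs]
          exact pow_le_pow_left₀ (abs_nonneg _) h1 2
        nlinarith [sq_nonneg (Df T y t - (gG lam T y t).re)]
      rw [integral_add (i1.const_mul 2) (i2.const_mul 2), integral_const_mul, integral_const_mul] at hle
      have hlyN : Real.log (1 + y) ≤ Real.log (1 + N) := Real.log_le_log (by linarith) (by linarith)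
      have m2' : ∫ t in Set.Icc (T + Real.log T) (2 * T - Real.log T - 7), ‖gG lam T y t‖ ^ 2 ≤
          17 * T * (C3 * (1 + Real.log (1 + N))) := by
        refine m2.trans (mul_le_mul_of_nonneg_left (v1.trans ?_) (by linarith))
        exact mul_le_mul_of_nonneg_left (by linarith) (by linarith)
      have hCT : 0 ≤ C1 * (1 + Real.log 16) * T := mul_nonneg hCa (by linarith)
      have hC3T : 0 ≤ 34 * C3 ^ 2 * T := by positivity
      have e9 : (C1 * (1 + Real.log 16) + 2 * (C2 + Real.log (1 + N)) + 34 * (C3 * (1 + Real.log (1 + N))) +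
        34 * C3 ^ 2) * T = C1 * (1 + Real.log 16) * T + 2 * (T * (C2 + Real.log (1 + N))) +
        2 * (17 * T * (C3 * (1 + Real.log (1 + N)))) + 34 * C3 ^ 2 * T := by ring
      rw [e9]
      linarith
  · refine m4.trans ?_
    have h1 : VS (rc (Real.log T / lam) (2 * Real.pi * y / Real.log T)) (XK (1 / 16) T) ^ 2 ≤
        C3 ^ 2 * (1 + Real.log (1 + y)) ^ 2 := by
      rw [← mul_pow]
      exact pow_le_pow_left₀ v0 v1 2
    have h2 : 34 * T * VS (rc (Real.log T / lam) (2 * Real.pi * y / Real.log T)) (XK (1 / 16) T) ^ 2 ≤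
        34 * T * (C3 ^ 2 * (1 + Real.log (1 + y)) ^ 2) := mul_le_mul_of_nonneg_left h1 (by linarith)
    refine h2.trans ?_
    have h3 : 34 * T * (C3 ^ 2 * (1 + Real.log (1 + y)) ^ 2) = 34 * C3 ^ 2 * T * (1 + Real.log (1 + y)) ^ 2 := by ring
    rw [h3]
    apply mul_le_mul_of_nonneg_right _ (sq_nonneg _)
    apply mul_le_mul_of_nonneg_right _ (by linarith)
    nlinarith

end Pool.Agent.X112.WD
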