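import Pool.Agent.X112.WD.Po2

/-! # The sum of the squared errors of the positions: pointwise bound -/

set_option autoImplicit false

namespace Pool.Agent.X112.WD

open MeasureTheory Finset
open SG (ord NZ)

lemma ind_sum (K : ℕ) {x : ℝ} (hx : 0 ≤ x) :
    ∑ m ∈ Icc 1 K, (2 * (m : ℝ) + 1) * (if (m : ℝ) ≤ x then 1 else 0) ≤ 3 * x ^ 2 := by
  induction K with
  | zero => simp; positivity
  | succ n ih =>
    by_cases h : ((n + 1 : ℕ) : ℝ) ≤ x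
    · have e : ∑ m ∈ Icc 1 (n + 1), (2 * (m : ℝ) + 1) * (if (m : ℝ) ≤ x then 1 else 0) =
          ∑ m ∈ Icc (0 + 1) (n + 1), (2 * (m : ℝ) + 1) := by
        refine Finset.sum_congr rfl fun m hm => ?_
        rw [Finset.mem_Icc] at hm
        rw [if_pos, mul_one]
        refine le_trans ?_ h
        exact_mod_cast hm.2
      rw [e, sum_odd 0 (n + 1) (by omega)]
      push_cast at h ⊢
      have hn : (0 : ℝ) ≤ n := Nat.cast_nonneg n
      nlinarith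
    · rw [Finset.sum_Icc_succ_top (by omega), if_neg h, mul_zero, add_zero]
      exact ih

lemma cub_sum (R n : ℕ) (hR : 1 ≤ R) (hn : R ≤ n) :
    ∑ m ∈ Icc (R + 1) n, (2 * (m : ℝ) + 1) * (16 / (m : ℝ) ^ 4) ≤ 24 / (R : ℝ) ^ 2 - 24 / (n : ℝ) ^ 2 := by
  induction n, hn using Nat.le_induction with
  | base => simp
  | succ n hn ih =>
    rw [Finset.sum_Icc_succ_top (by omega)]
    have hn1 : (1 : ℝ) ≤ n := by exact_mod_cast (hR.trans hn)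
    have key : (2 * ((n + 1 : ℕ) : ℝ) + 1) * (16 / ((n + 1 : ℕ) : ℝ) ^ 4) ≤
        24 / (n : ℝ) ^ 2 - 24 / ((n + 1 : ℕ) : ℝ) ^ 2 := by
      push_cast
      have hn0 : (0 : ℝ) < n := by linarith
      have e1 : 24 / (n : ℝ) ^ 2 - 24 / ((n : ℝ) + 1) ^ 2 - (2 * ((n : ℝ) + 1) + 1) * (16 / ((n : ℝ) + 1) ^ 4) =
          8 * (2 * ((n : ℝ) + 1) ^ 3 + 3 * ((n : ℝ) + 1) ^ 2 - 2) / ((n : ℝ) ^ 2 * ((n : ℝ) + 1) ^ 4) := by
        field_simp
        ring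
      have e2 : 0 ≤ 8 * (2 * ((n : ℝ) + 1) ^ 3 + 3 * ((n : ℝ) + 1) ^ 2 - 2) / ((n : ℝ) ^ 2 * ((n : ℝ) + 1) ^ 4) := by
        apply div_nonneg _ (by positivity)
        have : 1 ≤ ((n : ℝ) + 1) ^ 2 := by nlinarith
        have : 0 ≤ ((n : ℝ) + 1) ^ 3 := by positivity
        nlinarith
      linarith
    linarith

lemma ind_split {D e g : ℝ} {m : ℕ} (hm : 1 ≤ m) (h : |D| ≤ |e| + g) (_hg : 0 ≤ g) :
    (if (m : ℝ) ≤ |D| then (1 : ℝ) else 0) ≤ (if (m : ℝ) ≤ 2 * |e| then 1 else 0) + g ^ 4 * (16 / (m : ℝ) ^ 4) := by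
  have hm0 : (1 : ℝ) ≤ m := by exact_mod_cast hm
  have h0 : 0 ≤ g ^ 4 * (16 / (m : ℝ) ^ 4) := by positivity
  split_ifs with h1 h2 h2
  · linarith
  · push Not at h2
    have h3 : (m : ℝ) / 2 ≤ g := by linarith
    have h4 : ((m : ℝ) / 2) ^ 4 ≤ g ^ 4 := pow_le_pow_left₀ (by positivity) h3 4
    have h5 : 1 ≤ g ^ 4 * (16 / (m : ℝ) ^ 4) := by
      rw [← mul_div_assoc, le_div_iff₀ (by positivity)]
      have : ((m : ℝ) / 2) ^ 4 = (m : ℝ) ^ 4 / 16 := by ring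
      linarith
    linarith
  · linarith
  · linarith

lemma reind {K a b : ℕ} (F : ℕ → ℕ → ℝ) (hF : ∀ m y, 0 ≤ F m y) (ha : 1 ≤ a) (hb : b ≤ 2 * K) :
    ∑ i ∈ Icc 1 K, ∑ m ∈ Icc a b, (F m (i + m - 1) + (if m ≤ i then F m (i - m) else 0)) ≤
      2 * ∑ y ∈ range (3 * K), ∑ m ∈ Icc a b, F m y := by
  rw [Finset.sum_comm, Finset.sum_comm (s := range (3 * K)), Finset.mul_sum]
  refine Finset.sum_le_sum fun m hm => ?_
  rw [Finset.mem_Icc] at hm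
  rw [Finset.sum_add_distrib, two_mul]
  refine add_le_add ?_ ?_
  · have hinj : Set.InjOn (fun i => i + m - 1) (Icc 1 K : Finset ℕ) := by
      intro x hx y hy hxy
      simp only at hxy
      omega
    rw [← Finset.sum_image (f := fun y => F m y) hinj]
    refine Finset.sum_le_sum_of_subset_of_nonneg ?_ fun _ _ _ => hF _ _
    intro y hy
    rw [Finset.mem_image] at hy
    obtain ⟨i, hi, rfl⟩ := hy
    rw [Finset.mem_Icc] at hi
    rw [Finset.mem_range]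
    omega
  · rw [← Finset.sum_filter]
    have hinj : Set.InjOn (fun i => i - m) ((Icc 1 K).filter (fun i => m ≤ i) : Finset ℕ) := by
      intro x hx y hy hxy
      simp only [Finset.coe_filter, Set.mem_ofPred_eq] at hx hy hxy
      omega
    rw [← Finset.sum_image (f := fun y => F m y) hinj]
    refine Finset.sum_le_sum_of_subset_of_nonneg ?_ fun _ _ _ => hF _ _
    intro y hy
    rw [Finset.mem_image] at hy
    obtain ⟨i, hi, rfl⟩ := hy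
    rw [Finset.mem_filter, Finset.mem_Icc] at hi
    rw [Finset.mem_range]
    omega

lemma Df_le (lam T : ℝ) (y : ℕ) (t : ℝ) : |Df T y t| ≤ |E lam T y t| + ‖gG lam T y t‖ := by
  have e : Df T y t = E lam T y t - (gG lam T y t).re := by unfold E; ring
  rw [e]
  refine (abs_sub _ _).trans ?_
  have := Complex.abs_re_le_norm (gG lam T y t)
  linarith

lemma far_all (lam T t : ℝ) {K R : ℕ} (hR : 1 ≤ R) (hRK : R ≤ 2 * K) :
    ∑ i ∈ Icc 1 K, farS T R K i t ≤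
      ∑ y ∈ range (3 * K), (24 * E lam T y t ^ 2 + 48 * ‖gG lam T y t‖ ^ 4 / (R : ℝ) ^ 2) := by
  obtain ⟨F, hF⟩ : ∃ F : ℕ → ℕ → ℝ, F = fun (m y : ℕ) => (2 * (m : ℝ) + 1) * ((if (m : ℝ) ≤ 2 * |E lam T y t| then 1 else 0) +
    ‖gG lam T y t‖ ^ 4 * (16 / (m : ℝ) ^ 4)) := ⟨_, rfl⟩
  have hF0 : ∀ m y, 0 ≤ F m y := fun m y => by rw [hF]; positivity
  have h1 : ∑ i ∈ Icc 1 K, farS T R K i t ≤
      ∑ i ∈ Icc 1 K, ∑ m ∈ Icc (R + 1) (2 * K), (F m (i + m - 1) + (if m ≤ i then F m (i - m) else 0)) := by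
    refine Finset.sum_le_sum fun i _ => ?_
    unfold farS
    refine Finset.sum_le_sum fun m hm => ?_
    rw [Finset.mem_Icc] at hm
    have hm1 : 1 ≤ m := by omega
    have hm0 : (0 : ℝ) ≤ 2 * (m : ℝ) + 1 := by positivity
    have a1 := ind_split hm1 (Df_le lam T (i + m - 1) t) (norm_nonneg _)
    have a2 := ind_split hm1 (Df_le lam T (i - m) t) (norm_nonneg _)
    rw [mul_add]
    refine add_le_add ?_ ?_
    · rw [hF]
      exact mul_le_mul_of_nonneg_left a1 hm0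
    · by_cases hmi : m ≤ i
      · rw [if_pos hmi, hF]
        refine mul_le_mul_of_nonneg_left (le_trans (le_of_eq ?_) a2) hm0
        simp [hmi]
      · rw [if_neg hmi, if_neg (fun h => hmi h.1), mul_zero]
  refine h1.trans ((reind F hF0 (by omega) le_rfl).trans ?_)
  rw [Finset.mul_sum]
  refine Finset.sum_le_sum fun y _ => ?_
  have e1 : ∑ m ∈ Icc (R + 1) (2 * K), F m y = ∑ m ∈ Icc (R + 1) (2 * K), (2 * (m : ℝ) + 1) *
      (if (m : ℝ) ≤ 2 * |E lam T y t| then 1 else 0) +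
      ‖gG lam T y t‖ ^ 4 * ∑ m ∈ Icc (R + 1) (2 * K), (2 * (m : ℝ) + 1) * (16 / (m : ℝ) ^ 4) := by
    rw [Finset.mul_sum, ← Finset.sum_add_distrib]
    refine Finset.sum_congr rfl fun m _ => ?_
    rw [hF]
    ring
  have e2 : ∑ m ∈ Icc (R + 1) (2 * K), (2 * (m : ℝ) + 1) * (if (m : ℝ) ≤ 2 * |E lam T y t| then 1 else 0) ≤
      3 * (2 * |E lam T y t|) ^ 2 := by
    refine le_trans ?_ (ind_sum (2 * K) (by positivity))
    exact Finset.sum_le_sum_of_subset_of_nonneg (Finset.Icc_subset_Icc_left (by omega)) fun _ _ _ => by positivity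
  have e3 := cub_sum R (2 * K) hR hRK
  have e4 : 0 ≤ 24 / ((2 * K : ℕ) : ℝ) ^ 2 := by positivity
  have e5 : ‖gG lam T y t‖ ^ 4 * ∑ m ∈ Icc (R + 1) (2 * K), (2 * (m : ℝ) + 1) * (16 / (m : ℝ) ^ 4) ≤
      ‖gG lam T y t‖ ^ 4 * (24 / (R : ℝ) ^ 2) := mul_le_mul_of_nonneg_left (by linarith) (by positivity)
  have e6 : 3 * (2 * |E lam T y t|) ^ 2 = 12 * E lam T y t ^ 2 := by
    rw [mul_pow, sq_abs]; ring
  have e7 : ‖gG lam T y t‖ ^ 4 * (24 / (R : ℝ) ^ 2) = 24 * ‖gG lam T y t‖ ^ 4 / (R : ℝ) ^ 2 := by ring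
  have e8 : 48 * ‖gG lam T y t‖ ^ 4 / (R : ℝ) ^ 2 = 2 * (24 * ‖gG lam T y t‖ ^ 4 / (R : ℝ) ^ 2) := by ring
  rw [e1, e8]
  linarith

/-- the majorant -/
noncomputable def Hb (lam T : ℝ) (R K : ℕ) (t : ℝ) : ℝ :=
  3 * K + 6 * ∑ i ∈ Icc 1 K, nearS T R i t +
    ∑ y ∈ range (3 * K), (152 * E lam T y t ^ 2 + 296 / (R : ℝ) ^ 2 * ‖gG lam T y t‖ ^ 4)

lemma rho_all {lam T t : ℝ} (hT : 1 < T) {K R : ℕ} (hR : 1 ≤ R) (hRK : R ≤ 2 * K)
    (hg : NZ t + K ≤ NZ (t + ((2 * K : ℕ) : ℝ) * (2 * Real.pi / Real.log T))) :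
    ∑ i ∈ Icc 1 K, rho T i t ^ 2 ≤ Hb lam T R K t := by
  have h1 : ∑ i ∈ Icc 1 K, rho T i t ^ 2 ≤ ∑ i ∈ Icc 1 K, (3 + 6 * nearS T R i t + 6 * farS T R K i t +
      (8 * E lam T i t ^ 2 + 8 / (R : ℝ) ^ 2 * ‖gG lam T i t‖ ^ 4)) := by
    refine Finset.sum_le_sum fun i hi => ?_
    rw [Finset.mem_Icc] at hi
    have := rho_sq hT hi.1 hi.2 hR hg (E lam T i t) ‖gG lam T i t‖ (Df_le lam T i t) (norm_nonneg _)
    refine this.trans (le_of_eq ?_)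
    ring
  refine h1.trans ?_
  simp only [Finset.sum_add_distrib, ← Finset.mul_sum]
  have h2 := far_all lam T t hR hRK
  have h3 : ∑ i ∈ Icc 1 K, (8 * E lam T i t ^ 2 + 8 / (R : ℝ) ^ 2 * ‖gG lam T i t‖ ^ 4) ≤
      ∑ i ∈ range (3 * K), (8 * E lam T i t ^ 2 + 8 / (R : ℝ) ^ 2 * ‖gG lam T i t‖ ^ 4) := by
    refine Finset.sum_le_sum_of_subset_of_nonneg ?_ fun _ _ _ => by positivity
    intro y hy
    rw [Finset.mem_Icc] at hy
    rw [Finset.mem_range]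
    omega
  simp only [Finset.sum_add_distrib, ← Finset.mul_sum] at h3
  unfold Hb
  have e1 : ∑ y ∈ range (3 * K), (24 * E lam T y t ^ 2 + 48 * ‖gG lam T y t‖ ^ 4 / (R : ℝ) ^ 2) =
      24 * ∑ y ∈ range (3 * K), E lam T y t ^ 2 + 48 / (R : ℝ) ^ 2 * ∑ y ∈ range (3 * K), ‖gG lam T y t‖ ^ 4 := by
    rw [Finset.mul_sum, Finset.mul_sum, ← Finset.sum_add_distrib]
    refine Finset.sum_congr rfl fun y _ => ?_
    ring
  rw [e1] at h2
  have e2 : ∑ y ∈ range (3 * K), (152 * E lam T y t ^ 2 + 296 / (R : ℝ) ^ 2 * ‖gG lam T y t‖ ^ 4) =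
      152 * ∑ y ∈ range (3 * K), E lam T y t ^ 2 + 296 / (R : ℝ) ^ 2 * ∑ y ∈ range (3 * K), ‖gG lam T y t‖ ^ 4 := by
    rw [Finset.mul_sum, Finset.mul_sum, ← Finset.sum_add_distrib]
  rw [e2]
  have e3 : ∑ i ∈ Icc 1 K, (3 : ℝ) = 3 * K := by
    rw [Finset.sum_const, Nat.card_Icc, nsmul_eq_mul]
    simp
    ring
  rw [e3]
  have e4 : 48 / (R : ℝ) ^ 2 = 48 * (1 / (R : ℝ) ^ 2) := by ring
  have e5 : 296 / (R : ℝ) ^ 2 = 296 * (1 / (R : ℝ) ^ 2) := by ring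
  have e6 : 8 / (R : ℝ) ^ 2 = 8 * (1 / (R : ℝ) ^ 2) := by ring
  rw [e4] at h2
  rw [e6] at h3
  rw [e5, e6]
  nlinarith

end Pool.Agent.X112.WD
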