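import Pool.Agent.X112.WD.Po3

/-! # The errors of the positions are small for most heights -/

set_option autoImplicit false

namespace Pool.Agent.X112.WD

open MeasureTheory Filter Topology
open SG (ord NZ)
open Pool.Agent.Y743.CL (rc XK G er VS VS_nonneg)
open Pool.Agent.Y743.NC (dev dev_nonneg dev_int var_le)
open Pool.Agent.X112.SD (Bd Bd_meas Bd_le)

lemma Df_shift (T : ℝ) (i d : ℕ) (t : ℝ) :
    Df T (i + d) t - Df T i t = Df T d (t + i * (2 * Real.pi / Real.log T)) := by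
  unfold Df
  rw [show t + ((i + d : ℕ) : ℝ) * (2 * Real.pi / Real.log T) =
    t + (i : ℝ) * (2 * Real.pi / Real.log T) + (d : ℝ) * (2 * Real.pi / Real.log T) by push_cast; ring]
  push_cast
  ring

lemma shift_int (f : ℝ → ℝ) {A B : ℝ} (s : ℝ) (hAB : A ≤ B) :
    ∫ t in Set.Icc A B, f (t + s) = ∫ t in Set.Icc (A + s) (B + s), f t := by
  rw [integral_Icc_eq_integral_Ioc, integral_Icc_eq_integral_Ioc, ← intervalIntegral.integral_of_le hAB,
    ← intervalIntegral.integral_of_le (by linarith), intervalIntegral.integral_comp_add_right]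

lemma Df_shift_int {C2 T : ℝ} (hC2 : 1 ≤ C2) (hT : 1 < T) {A B : ℝ} (hAB : A ≤ B)
    (hvar : ∀ a : ℝ, 0 < a → a * Real.log a ≤ Real.log T → ∫ t in Set.Icc T (2 * T), dev T a t ≤ T * (C2 + Real.log (1 + a)))
    (i d : ℕ) (hd : (d : ℝ) * Real.log d ≤ Real.log T) (hA : T ≤ A + i * (2 * Real.pi / Real.log T))
    (hB : B + i * (2 * Real.pi / Real.log T) ≤ 2 * T) :
    ∫ t in Set.Icc A B, (Df T (i + d) t - Df T i t) ^ 2 ≤ T * (C2 + Real.log (1 + d)) := by
  simp only [Df_shift]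
  rw [shift_int (fun t => Df T d t ^ 2) _ hAB]
  have hd0 : (0 : ℝ) ≤ d := Nat.cast_nonneg d
  rcases Nat.eq_zero_or_pos d with h0 | h0
  · have e0 : ∀ t, Df T d t ^ 2 = 0 := by
      intro t
      rw [h0]
      unfold Df
      simp
    simp only [e0]
    rw [integral_zero]
    have := Real.log_nonneg (by linarith : (1 : ℝ) ≤ 1 + d)
    positivity
  · have h1 : (1 : ℝ) ≤ d := by exact_mod_cast h0
    simp only [Df_dev]
    refine le_trans (setIntegral_mono_set (dev_int T d T (2 * T)) (ae_of_all _ fun t => dev_nonneg _ _ _) ?_)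
      (hvar d (by linarith) hd)
    exact (Set.Icc_subset_Icc hA hB).eventuallyLE

lemma near_meas (T : ℝ) (R i : ℕ) : Measurable (nearS T R i) := by
  unfold nearS
  refine Finset.measurable_sum _ fun d _ => ?_
  refine (((Df_meas T (i + d)).sub (Df_meas T i)).pow_const 2).add ?_
  by_cases h : d ≤ i
  · simp only [if_pos h]
    exact ((Df_meas T i).sub (Df_meas T (i - d))).pow_const 2
  · simp only [if_neg h]
    exact measurable_const

lemma near_intg {T : ℝ} (hT : 1 < T) (R i : ℕ) (A B : ℝ) : IntegrableOn (nearS T R i) (Set.Icc A B) := by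
  unfold nearS
  refine integrable_finsetSum _ fun d _ => ?_
  refine (Df_int hT (i + d) i A B).add ?_
  by_cases h : d ≤ i
  · simp only [if_pos h]
    exact Df_int hT i (i - d) A B
  · simp only [if_neg h]
    exact integrable_zero _ _ _

lemma near_int {C2 T : ℝ} (hC2 : 1 ≤ C2) (hT : 1 < T) {A B : ℝ} (hAB : A ≤ B)
    (hvar : ∀ a : ℝ, 0 < a → a * Real.log a ≤ Real.log T → ∫ t in Set.Icc T (2 * T), dev T a t ≤ T * (C2 + Real.log (1 + a)))
    (R i : ℕ) (hd : ((2 * R + 1 : ℕ) : ℝ) * Real.log (2 * R + 1 : ℕ) ≤ Real.log T) (hA : T ≤ A)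
    (hB : B + i * (2 * Real.pi / Real.log T) ≤ 2 * T) :
    ∫ t in Set.Icc A B, nearS T R i t ≤ 4 * (R + 1) * (T * (C2 + Real.log (2 * R + 2))) := by
  have hL : 0 < Real.log T := Real.log_pos hT
  have hpi := Real.pi_pos
  have hu : 0 < 2 * Real.pi / Real.log T := by positivity
  unfold nearS
  rw [integral_finsetSum _ (fun d _ => by
    refine (Df_int hT (i + d) i A B).add ?_
    by_cases h : d ≤ i
    · simp only [if_pos h]
      exact Df_int hT i (i - d) A B
    · simp only [if_neg h]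
      exact integrable_zero _ _ _)]
  have key : ∀ d ∈ Finset.range (2 * R + 2), ∫ t in Set.Icc A B, ((Df T (i + d) t - Df T i t) ^ 2 +
      (if d ≤ i then (Df T i t - Df T (i - d) t) ^ 2 else 0)) ≤ 2 * (T * (C2 + Real.log (2 * R + 2))) := by
    intro d hdR
    rw [Finset.mem_range] at hdR
    have hd0 : (0 : ℝ) ≤ d := Nat.cast_nonneg d
    have hdR' : (d : ℝ) ≤ (2 * R + 1 : ℕ) := by exact_mod_cast (by omega : d ≤ 2 * R + 1)
    have hdl : (d : ℝ) * Real.log d ≤ Real.log T := by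
      refine le_trans ?_ hd
      rcases Nat.eq_zero_or_pos d with h0 | h0
      · rw [h0]
        simp only [Nat.cast_zero, zero_mul]
        have : (1 : ℝ) ≤ (2 * R + 1 : ℕ) := by push_cast; linarith [(Nat.cast_nonneg R : (0 : ℝ) ≤ R)]
        exact mul_nonneg (by linarith) (Real.log_nonneg this)
      · have h1 : (1 : ℝ) ≤ d := by exact_mod_cast h0
        exact mul_le_mul hdR' (Real.log_le_log (by linarith) hdR') (Real.log_nonneg h1) (by linarith)
    have hll : Real.log (1 + d) ≤ Real.log (2 * R + 2) := by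
      apply Real.log_le_log (by linarith)
      push_cast at hdR'
      linarith
    have hT0 : 0 ≤ T := by linarith
    have hi0 : (0 : ℝ) ≤ i := Nat.cast_nonneg i
    have b1 := Df_shift_int hC2 hT hAB hvar i d hdl (by nlinarith) hB
    have b1' : T * (C2 + Real.log (1 + d)) ≤ T * (C2 + Real.log (2 * R + 2)) :=
      mul_le_mul_of_nonneg_left (by linarith) hT0
    by_cases h : d ≤ i
    · simp only [if_pos h]
      rw [integral_add (Df_int hT (i + d) i A B) (Df_int hT i (i - d) A B)]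
      have hcast : ((i - d : ℕ) : ℝ) ≤ i := by exact_mod_cast Nat.sub_le i d
      have hcast0 : (0 : ℝ) ≤ ((i - d : ℕ) : ℝ) := Nat.cast_nonneg _
      have b2 := Df_shift_int hC2 hT hAB hvar (i - d) d hdl (by nlinarith) (by nlinarith)
      rw [Nat.sub_add_cancel h] at b2
      linarith
    · simp only [if_neg h, add_zero]
      have : 0 ≤ T * (C2 + Real.log (2 * R + 2)) := by
        have := Real.log_nonneg (by linarith [(Nat.cast_nonneg R : (0 : ℝ) ≤ R)] : (1 : ℝ) ≤ 2 * R + 2)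
        positivity
      linarith
  refine (Finset.sum_le_sum key).trans (le_of_eq ?_)
  rw [Finset.sum_const, Finset.card_range, nsmul_eq_mul]
  push_cast
  ring

lemma cheb {f : ℝ → ℝ} {A B : ℝ} (hf : IntegrableOn f (Set.Icc A B)) (hm : Measurable f) (h0 : ∀ t, 0 ≤ f t) {η : ℝ}
    (hη : 0 < η) {Q : ℝ} (hQ : ∫ t in Set.Icc A B, f t ≤ Q) :
    volume.real (Set.Icc A B ∩ {t | η ≤ f t}) ≤ Q / η := by
  have h1 := mul_meas_ge_le_integral_of_nonneg (μ := volume.restrict (Set.Icc A B)) (f := f)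
    (Eventually.of_forall h0) hf η
  rw [measureReal_restrict_apply (measurableSet_le measurable_const hm), Set.inter_comm] at h1
  rw [le_div_iff₀ hη]
  linarith

theorem all_bounds : ∃ lam C T0 : ℝ, 16 ≤ lam ∧ 1 ≤ C ∧ 10 ≤ T0 ∧
    (∀ T : ℝ, T0 ≤ T → ∀ a : ℝ, lam ≤ a → a * Real.log a ≤ Real.log T →
      |VS (rc (Real.log T / lam) (2 * Real.pi * a / Real.log T)) (XK (1 / 16) T) -
        2 / Real.pi ^ 2 * Real.log a| ≤ C) ∧
    (∀ K : ℕ, ∃ T1 : ℝ, 10 ≤ T1 ∧ ∀ T : ℝ, T1 ≤ T → ∀ y : ℕ, y ≤ K →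
      ∫ t in Set.Icc (T + Real.log T) (2 * T - Real.log T - 7), E lam T y t ^ 2 ≤ C * T) ∧
    ∀ K R : ℕ, 1 ≤ K → 1 ≤ R → ∃ T1 : ℝ, 10 ≤ T1 ∧ ∀ T : ℝ, T1 ≤ T →
      ∫ t in Set.Icc (T + Real.log T) (2 * T - Real.log T - 7), Hb lam T R K t ≤
        K * T * (C * (1 + (R + 1) * (1 + Real.log (2 * R + 2)) + (1 + Real.log (3 * K)) ^ 2 / (R : ℝ) ^ 2)) := by
  obtain ⟨lam, C, T0, hlam, hC, hT0, hVS, hmom⟩ := moments
  obtain ⟨C2, T2, hC2, hT2, hvar⟩ := var_le
  refine ⟨lam, 3 + 1344 * C + 24 * C2, T0, hlam, by linarith, hT0, fun T hT a ha haT => ?_, fun K => ?_,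
    fun K R hK hR => ?_⟩
  · exact (hVS T hT a ha haT).trans (by linarith)
  · obtain ⟨T1, hT1, h1⟩ := hmom K
    refine ⟨T1, hT1, fun T hT y hy => ?_⟩
    refine (h1 T hT y hy).1.trans ?_
    apply mul_le_mul_of_nonneg_right _ (by linarith)
    linarith
  obtain ⟨T1, hT1, h1⟩ := hmom (3 * K)
  have hev : ∀ᶠ T : ℝ in atTop, 2 * Real.log T + 7 ≤ T / 2 := by
    have h1 : (fun T : ℝ => 2 * Real.log T + 7) =o[atTop] fun T : ℝ => T :=
      (Real.isLittleO_log_id_atTop.const_mul_left 2).add (Asymptotics.isLittleO_const_id_atTop _)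
    have h2 := h1.bound (c := 1 / 2) (by norm_num)
    filter_upwards [h2, eventually_ge_atTop 1] with T hT hT1
    rw [Real.norm_of_nonneg (by linarith : (0 : ℝ) ≤ T)] at hT
    have := (le_abs_self _).trans hT
    linarith
  obtain ⟨T3, hT3⟩ := (hev.and ((Real.tendsto_log_atTop.eventually_ge_atTop
    (((2 * R + 1 : ℕ) : ℝ) * Real.log (2 * R + 1 : ℕ))).and
    (Real.tendsto_log_atTop.eventually_ge_atTop (2 * Real.pi * K)))).exists_forall_of_atTop
  refine ⟨max (max T1 T2) T3, hT1.trans ((le_max_left _ _).trans (le_max_left _ _)), fun T hT => ?_⟩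
  have hTT1 : T1 ≤ T := ((le_max_left _ _).trans (le_max_left _ _)).trans hT
  have hTT2 : T2 ≤ T := ((le_max_right _ _).trans (le_max_left _ _)).trans hT
  obtain ⟨g1, g2, g3⟩ := hT3 T ((le_max_right _ _).trans hT)
  have hT10 : 10 ≤ T := hT1.trans hTT1
  have hT1' : 1 < T := by linarith
  have hL : 0 < Real.log T := Real.log_pos hT1'
  have hpi := Real.pi_pos
  have hK1 : (1 : ℝ) ≤ K := by exact_mod_cast hK
  have hR1 : (1 : ℝ) ≤ R := by exact_mod_cast hR
  have hAB : T + Real.log T ≤ 2 * T - Real.log T - 7 := by linarith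
  have hu : 0 < 2 * Real.pi / Real.log T := by positivity
  have hlR : 0 ≤ Real.log (2 * R + 2) := Real.log_nonneg (by linarith)
  have hlK : 0 ≤ Real.log (3 * K) := Real.log_nonneg (by linarith)
  obtain ⟨A, hA⟩ : ∃ A : ℝ, A = T + Real.log T := ⟨_, rfl⟩
  obtain ⟨B, hB⟩ : ∃ B : ℝ, B = 2 * T - Real.log T - 7 := ⟨_, rfl⟩
  rw [← hA, ← hB] at hAB ⊢
  have hKu : ∀ i ∈ Finset.Icc 1 K, (i : ℝ) * (2 * Real.pi / Real.log T) ≤ 1 := by
    intro i hi
    rw [Finset.mem_Icc] at hi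
    have : (i : ℝ) ≤ K := by exact_mod_cast hi.2
    rw [← mul_div_assoc, div_le_one hL]
    nlinarith
  unfold Hb
  have i1 : IntegrableOn (fun t => ∑ i ∈ Finset.Icc 1 K, nearS T R i t) (Set.Icc A B) :=
    integrable_finsetSum _ fun i _ => near_intg hT1' R i A B
  have i2 : ∀ y : ℕ, IntegrableOn (fun t => 152 * E lam T y t ^ 2 + 296 / (R : ℝ) ^ 2 * ‖gG lam T y t‖ ^ 4) (Set.Icc A B) :=
    fun y => ((E_int hT1' lam y A B).const_mul _).add ((gG_int lam T y 4 A B).const_mul _)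
  have i3 : IntegrableOn (fun t => ∑ y ∈ Finset.range (3 * K),
      (152 * E lam T y t ^ 2 + 296 / (R : ℝ) ^ 2 * ‖gG lam T y t‖ ^ 4)) (Set.Icc A B) :=
    integrable_finsetSum _ fun y _ => i2 y
  have i4 : IntegrableOn (fun _ : ℝ => 3 * (K : ℝ)) (Set.Icc A B) :=
    integrableOn_const (by rw [Real.volume_Icc]; exact ENNReal.ofReal_ne_top)
  have i6 : IntegrableOn (fun t => 6 * ∑ i ∈ Finset.Icc 1 K, nearS T R i t) (Set.Icc A B) := i1.const_mul 6
  have i5 : IntegrableOn (fun t => 3 * (K : ℝ) + 6 * ∑ i ∈ Finset.Icc 1 K, nearS T R i t) (Set.Icc A B) := i4.add i6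
  have e7 : ∫ t in Set.Icc A B, 6 * ∑ i ∈ Finset.Icc 1 K, nearS T R i t =
      6 * ∑ i ∈ Finset.Icc 1 K, ∫ t in Set.Icc A B, nearS T R i t := by
    rw [integral_const_mul, integral_finsetSum _ (fun i _ => near_intg hT1' R i A B)]
  rw [integral_add i5 i3, integral_add i4 i6, e7, integral_finsetSum _ (fun y _ => i2 y)]
  have b1 : ∫ _ in Set.Icc A B, 3 * (K : ℝ) ≤ 3 * K * T := by
    rw [setIntegral_const, Real.volume_real_Icc_of_le hAB, smul_eq_mul]
    have : B - A ≤ T := by rw [hA, hB]; linarith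
    nlinarith
  have b2 : ∑ i ∈ Finset.Icc 1 K, ∫ t in Set.Icc A B, nearS T R i t ≤ K * (4 * (R + 1) * (T * (C2 + Real.log (2 * R + 2)))) := by
    refine (Finset.sum_le_sum fun i hi => near_int hC2 hT1' hAB (fun a => hvar T hTT2 a) R i g2
      (by rw [hA]; linarith) (by have := hKu i hi; rw [hB]; linarith)).trans (le_of_eq ?_)
    rw [Finset.sum_const, Nat.card_Icc, nsmul_eq_mul, Nat.add_sub_cancel]
  have b3 : ∑ y ∈ Finset.range (3 * K), ∫ t in Set.Icc A B, (152 * E lam T y t ^ 2 + 296 / (R : ℝ) ^ 2 * ‖gG lam T y t‖ ^ 4) ≤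
      3 * K * (152 * (C * T) + 296 / (R : ℝ) ^ 2 * (C * T * (1 + Real.log (3 * K)) ^ 2)) := by
    have c1 : ∀ y ∈ Finset.range (3 * K), ∫ t in Set.Icc A B, (152 * E lam T y t ^ 2 + 296 / (R : ℝ) ^ 2 * ‖gG lam T y t‖ ^ 4) ≤
        152 * (C * T) + 296 / (R : ℝ) ^ 2 * (C * T * (1 + Real.log (3 * K)) ^ 2) := by
      intro y hy
      rw [Finset.mem_range] at hy
      obtain ⟨c2, c3⟩ := h1 T hTT1 y hy.le
      rw [← hA, ← hB] at c2 c3
      rw [integral_add ((E_int hT1' lam y A B).const_mul _) ((gG_int lam T y 4 A B).const_mul _),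
        integral_const_mul, integral_const_mul]
      refine add_le_add (mul_le_mul_of_nonneg_left c2 (by norm_num)) (mul_le_mul_of_nonneg_left (c3.trans ?_) (by positivity))
      apply mul_le_mul_of_nonneg_left _ (by nlinarith)
      have hy' : (y : ℝ) + 1 ≤ 3 * K := by exact_mod_cast hy
      have hy0 : (0 : ℝ) ≤ y := Nat.cast_nonneg y
      have c4 : Real.log (1 + y) ≤ Real.log (3 * K) := Real.log_le_log (by linarith) (by linarith)
      have c5 : 0 ≤ Real.log (1 + y) := Real.log_nonneg (by linarith)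
      exact pow_le_pow_left₀ (by linarith) (by linarith) 2
    refine (Finset.sum_le_sum c1).trans (le_of_eq ?_)
    rw [Finset.sum_const, Finset.card_range, nsmul_eq_mul]
    push_cast
    ring
  -- collect
  obtain ⟨x, hx⟩ : ∃ x : ℝ, x = (R + 1) * (1 + Real.log (2 * R + 2)) := ⟨_, rfl⟩
  obtain ⟨z, hz⟩ : ∃ z : ℝ, z = (1 + Real.log (3 * K)) ^ 2 / (R : ℝ) ^ 2 := ⟨_, rfl⟩
  have hx0 : 0 ≤ x := by rw [hx]; positivity
  have hz0 : 0 ≤ z := by rw [hz]; positivity
  rw [← hx, ← hz]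
  have d1 : (K : ℝ) * (4 * (R + 1) * (T * (C2 + Real.log (2 * R + 2)))) ≤ 4 * K * T * (C2 * x) := by
    have e1 : (R + 1) * (C2 + Real.log (2 * R + 2)) ≤ C2 * x := by
      rw [hx]
      have : C2 + Real.log (2 * R + 2) ≤ C2 * (1 + Real.log (2 * R + 2)) := by nlinarith
      have := mul_le_mul_of_nonneg_left this (by linarith : (0 : ℝ) ≤ (R : ℝ) + 1)
      linarith
    have e2 := mul_le_mul_of_nonneg_left e1 (by positivity : (0 : ℝ) ≤ 4 * K * T)
    linarith
  have d2 : 3 * (K : ℝ) * (152 * (C * T) + 296 / (R : ℝ) ^ 2 * (C * T * (1 + Real.log (3 * K)) ^ 2)) =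
      K * T * (456 * C + 888 * (C * z)) := by
    rw [hz]
    ring
  rw [d2] at b3
  have hKT : 0 ≤ (K : ℝ) * T := by positivity
  have d3 : 3 * (K : ℝ) * T + 6 * (4 * K * T * (C2 * x)) + K * T * (456 * C + 888 * (C * z)) ≤
      K * T * ((3 + 1344 * C + 24 * C2) * (1 + x + z)) := by
    have e1 : 3 * (K : ℝ) * T + 6 * (4 * K * T * (C2 * x)) + K * T * (456 * C + 888 * (C * z)) =
      K * T * (3 + 24 * (C2 * x) + 456 * C + 888 * (C * z)) := by ring
    rw [e1]
    apply mul_le_mul_of_nonneg_left _ hKT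
    have f1 : 0 ≤ C * x := by positivity
    have f2 : 0 ≤ C * z := by positivity
    have f3 : 0 ≤ C2 * x := by positivity
    have f4 : 0 ≤ C2 * z := by positivity
    have e2 : (3 + 1344 * C + 24 * C2) * (1 + x + z) = 3 + 3 * x + 3 * z + 1344 * C + 1344 * (C * x) +
      1344 * (C * z) + 24 * C2 + 24 * (C2 * x) + 24 * (C2 * z) := by ring
    rw [e2]
    linarith
  linarith

end Pool.Agent.X112.WD
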