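import Pool.Agent.X112.WD.Po4

/-! # The exceptional set of heights -/

set_option autoImplicit false

namespace Pool.Agent.X112.WD

open MeasureTheory Filter Topology
open SG (ord NZ)
open Pool.Agent.X112.SD (Bd Bd_meas Bd_le)

lemma num_R (C η0 θ : ℝ) (hC : 1 ≤ C) (hη : 0 < η0) (hθ : 0 < θ) (h : ℕ) : ∀ᶠ L : ℕ in atTop,
    h + 1 ≤ L ∧ 2 ≤ L ∧ ∃ R : ℕ, 1 ≤ R ∧ R ≤ 2 * (L + h + 1) ∧
    ((L + h + 1 : ℕ) : ℝ) * (C * (1 + (R + 1) * (1 + Real.log (2 * R + 2)) +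
      (1 + Real.log (3 * (L + h + 1 : ℕ))) ^ 2 / (R : ℝ) ^ 2)) ≤ θ * (η0 * (L * Real.log L)) := by
  have hlog : Tendsto (fun L : ℕ => Real.log (L : ℝ)) atTop atTop :=
    Real.tendsto_log_atTop.comp tendsto_natCast_atTop_atTop
  have hr : Tendsto (fun L : ℕ => (Real.log (L : ℝ)) ^ (1 / 8 : ℝ)) atTop atTop :=
    (tendsto_rpow_atTop (by norm_num)).comp hlog
  filter_upwards [hr.eventually_ge_atTop (max 1 (88 * C / (θ * η0))), eventually_ge_atTop (h + 1), eventually_ge_atTop 2]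
    with L hL1 hL2 hL3
  refine ⟨hL2, hL3, ?_⟩
  obtain ⟨r, hrd⟩ : ∃ r : ℝ, r = (Real.log (L : ℝ)) ^ (1 / 8 : ℝ) := ⟨_, rfl⟩
  rw [← hrd] at hL1
  have hr1 : 1 ≤ r := (le_max_left _ _).trans hL1
  have hr2 : 88 * C / (θ * η0) ≤ r := (le_max_right _ _).trans hL1
  have hL2' : ((h : ℝ) + 1) ≤ L := by exact_mod_cast hL2
  have hL3' : (2 : ℝ) ≤ L := by exact_mod_cast hL3
  have hl0 : 0 ≤ Real.log (L : ℝ) := Real.log_nonneg (by linarith)
  have hr8 : r ^ 8 = Real.log L := by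
    rw [hrd, ← Real.rpow_natCast, ← Real.rpow_mul hl0]
    norm_num
  have hp : ∀ a b : ℕ, a ≤ b → r ^ a ≤ r ^ b := fun a b hab => pow_le_pow_right₀ hr1 hab
  have hp1 : ∀ a : ℕ, 1 ≤ r ^ a := fun a => one_le_pow₀ hr1
  obtain ⟨R, hR⟩ : ∃ R : ℕ, R = ⌈r ^ 6⌉₊ := ⟨_, rfl⟩
  have hRl : r ^ 6 ≤ R := by rw [hR]; exact Nat.le_ceil _
  have hRu : (R : ℝ) ≤ 2 * r ^ 6 := by
    have h1 : (R : ℝ) < r ^ 6 + 1 := by
      rw [hR]
      exact Nat.ceil_lt_add_one (by positivity)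
    have := hp1 6
    linarith
  have hR1' : (1 : ℝ) ≤ R := (hp1 6).trans hRl
  have hR1 : 1 ≤ R := by exact_mod_cast hR1'
  have hlogL : Real.log L ≤ L := by
    have := Real.log_le_sub_one_of_pos (by linarith : (0 : ℝ) < L)
    linarith
  refine ⟨R, hR1, ?_, ?_⟩
  · have h1 : (R : ℝ) ≤ 2 * L := by
      have := hp 6 8 (by norm_num)
      rw [hr8] at this
      linarith
    have h2 : R ≤ 2 * L := by exact_mod_cast h1
    omega
  have hr0 : 0 < r := by linarith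
  have hlr : Real.log r ≤ r := by
    have := Real.log_le_sub_one_of_pos hr0
    linarith
  have hlog6 : Real.log 6 ≤ 2 := by
    rw [Real.log_le_iff_le_exp (by norm_num)]
    have h2 : (2.7182818283 : ℝ) < Real.exp 1 := Real.exp_one_gt_d9
    have h3 : Real.exp 2 = Real.exp 1 * Real.exp 1 := by rw [← Real.exp_add]; norm_num
    rw [h3]
    nlinarith
  have a1 : Real.log (2 * R + 2) ≤ 8 * r := by
    have h1 : 2 * (R : ℝ) + 2 ≤ 6 * r ^ 6 := by
      have := hp1 6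
      linarith
    have h2 : Real.log (2 * R + 2) ≤ Real.log (6 * r ^ 6) := Real.log_le_log (by linarith) h1
    rw [Real.log_mul (by norm_num) (by positivity), Real.log_pow] at h2
    push_cast at h2
    linarith
  have a10 : 0 ≤ Real.log (2 * (R : ℝ) + 2) := Real.log_nonneg (by linarith)
  have a2 : ((R : ℝ) + 1) * (1 + Real.log (2 * R + 2)) ≤ 27 * r ^ 7 := by
    have h1 : (R : ℝ) + 1 ≤ 3 * r ^ 6 := by
      have := hp1 6
      linarith
    have h2 : 1 + Real.log (2 * (R : ℝ) + 2) ≤ 9 * r := by linarith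
    calc ((R : ℝ) + 1) * (1 + Real.log (2 * R + 2)) ≤ (3 * r ^ 6) * (9 * r) :=
          mul_le_mul h1 h2 (by linarith) (by positivity)
      _ = 27 * r ^ 7 := by ring
  have hK2 : ((L + h + 1 : ℕ) : ℝ) ≤ 2 * L := by
    push_cast
    linarith
  have hK1 : (1 : ℝ) ≤ ((L + h + 1 : ℕ) : ℝ) := by
    exact_mod_cast (by omega : 1 ≤ L + h + 1)
  have a3 : Real.log (3 * (L + h + 1 : ℕ)) ≤ 2 + r ^ 8 := by
    have h1 : Real.log (3 * (L + h + 1 : ℕ)) ≤ Real.log (6 * L) := Real.log_le_log (by linarith) (by linarith)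
    rw [Real.log_mul (by norm_num : (6 : ℝ) ≠ 0) (by linarith : (L : ℝ) ≠ 0)] at h1
    rw [hr8]
    linarith
  have a30 : 0 ≤ Real.log (3 * ((L + h + 1 : ℕ) : ℝ)) := Real.log_nonneg (by linarith)
  have a4 : (1 + Real.log (3 * (L + h + 1 : ℕ))) ^ 2 / (R : ℝ) ^ 2 ≤ 16 * r ^ 7 := by
    rw [div_le_iff₀ (by positivity)]
    have h1 : (1 + Real.log (3 * (L + h + 1 : ℕ))) ^ 2 ≤ (4 * r ^ 8) ^ 2 := by
      apply pow_le_pow_left₀ (by linarith)
      have := hp1 8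
      linarith
    have h2 : (r ^ 6) ^ 2 ≤ (R : ℝ) ^ 2 := pow_le_pow_left₀ (by positivity) hRl 2
    have h3 : 16 * r ^ 7 * (r ^ 6) ^ 2 ≤ 16 * r ^ 7 * (R : ℝ) ^ 2 := mul_le_mul_of_nonneg_left h2 (by positivity)
    have h4 : (4 * r ^ 8) ^ 2 = 16 * r ^ 16 := by ring
    have h5 : 16 * r ^ 7 * (r ^ 6) ^ 2 = 16 * r ^ 19 := by ring
    have h6 := hp 16 19 (by norm_num)
    linarith
  have a5 : C * (1 + (R + 1) * (1 + Real.log (2 * R + 2)) +
      (1 + Real.log (3 * (L + h + 1 : ℕ))) ^ 2 / (R : ℝ) ^ 2) ≤ C * (44 * r ^ 7) := by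
    apply mul_le_mul_of_nonneg_left _ (by linarith)
    have := hp1 7
    linarith
  calc ((L + h + 1 : ℕ) : ℝ) * (C * (1 + (R + 1) * (1 + Real.log (2 * R + 2)) +
      (1 + Real.log (3 * (L + h + 1 : ℕ))) ^ 2 / (R : ℝ) ^ 2)) ≤ (2 * L) * (C * (44 * r ^ 7)) := by
        apply mul_le_mul hK2 a5 _ (by positivity)
        positivity
    _ = (88 * C) * (L * r ^ 7) := by ring
    _ ≤ (θ * η0 * r) * (L * r ^ 7) := by
        apply mul_le_mul_of_nonneg_right _ (by positivity)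
        rw [div_le_iff₀ (by positivity)] at hr2
        linarith
    _ = θ * (η0 * (L * r ^ 8)) := by ring
    _ = θ * (η0 * (L * Real.log L)) := by rw [hr8]

lemma gp_meas (T : ℝ) (i : ℕ) : Measurable (gp T i) := by
  unfold gp
  have h1 : Measurable fun t : ℝ => ord (NZ t + i) := (measurable_from_nat (f := fun n : ℕ => ord (n + i))).comp SG.NZ_mono.measurable
  exact (h1.sub measurable_id).div_const _

lemma Hb_meas (lam T : ℝ) (R K : ℕ) : Measurable (Hb lam T R K) := by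
  unfold Hb
  refine ((Finset.measurable_sum _ fun i _ => near_meas T R i).const_mul 6 |>.const_add _).add ?_
  refine Finset.measurable_sum _ fun y _ => ?_
  exact ((((E_meas lam T y).pow_const 2).const_mul _)).add
    ((((gG_cont lam T y).norm.pow 4).measurable).const_mul _)

lemma Hb_nonneg (lam T : ℝ) (R K : ℕ) (t : ℝ) : 0 ≤ Hb lam T R K t := by
  unfold Hb nearS
  positivity

lemma Hb_intg {T : ℝ} (hT : 1 < T) (lam : ℝ) (R K : ℕ) (A B : ℝ) : IntegrableOn (Hb lam T R K) (Set.Icc A B) := by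
  unfold Hb
  have i1 : IntegrableOn (fun t => ∑ i ∈ Finset.Icc 1 K, nearS T R i t) (Set.Icc A B) :=
    integrable_finsetSum _ fun i _ => near_intg hT R i A B
  have i4 : IntegrableOn (fun _ : ℝ => 3 * (K : ℝ)) (Set.Icc A B) :=
    integrableOn_const (by rw [Real.volume_Icc]; exact ENNReal.ofReal_ne_top)
  exact (i4.add (i1.const_mul 6)).add (integrable_finsetSum _ fun y _ =>
    ((E_int hT lam y A B).const_mul _).add ((gG_int lam T y 4 A B).const_mul _))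

theorem small (lam C : ℝ) (hC : 1 ≤ C)
    (hE : ∀ K : ℕ, ∃ T1 : ℝ, 10 ≤ T1 ∧ ∀ T : ℝ, T1 ≤ T → ∀ y : ℕ, y ≤ K →
      ∫ t in Set.Icc (T + Real.log T) (2 * T - Real.log T - 7), E lam T y t ^ 2 ≤ C * T)
    (hH : ∀ K R : ℕ, 1 ≤ K → 1 ≤ R → ∃ T1 : ℝ, 10 ≤ T1 ∧ ∀ T : ℝ, T1 ≤ T →
      ∫ t in Set.Icc (T + Real.log T) (2 * T - Real.log T - 7), Hb lam T R K t ≤
        K * T * (C * (1 + (R + 1) * (1 + Real.log (2 * R + 2)) + (1 + Real.log (3 * K)) ^ 2 / (R : ℝ) ^ 2)))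
    (η0 θ : ℝ) (hη : 0 < η0) (hθ : 0 < θ) (h : ℕ) :
    ∀ᶠ L : ℕ in atTop, ∃ T1 : ℝ, 10 ≤ T1 ∧ ∀ T : ℝ, T1 ≤ T → ∃ B : Set ℝ, MeasurableSet B ∧
      B ⊆ Set.Icc (T + 1) (2 * T - 1) ∧ volume.real B ≤ θ * T ∧
      ∀ t ∈ Set.Icc (T + Real.log T) (2 * T - Real.log T - 7), t ∉ B →
        ∑ i ∈ Finset.Icc 1 (L + h + 1), rho T i t ^ 2 ≤ η0 * (L * Real.log L) ∧
        ∑ i ∈ Finset.Icc 1 (L + h + 1), E lam T i t ^ 2 ≤ η0 * (L * Real.log L) := by
  obtain ⟨C3, T3, hC3, hT3, hBd⟩ := Bd_le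
  filter_upwards [num_R C η0 (θ / 3) hC hη (by positivity) h, eventually_ge_atTop ⌈3 * (C3 + 3) / θ⌉₊]
    with L hnum hLbig
  obtain ⟨hL2, hL3, R, hR1, hRK, hnum⟩ := hnum
  obtain ⟨K, hK⟩ : ∃ K : ℕ, K = L + h + 1 := ⟨_, rfl⟩
  rw [← hK] at hnum hRK ⊢
  have hK1 : 1 ≤ K := by omega
  have hKL : L ≤ K := by omega
  have hK1' : (1 : ℝ) ≤ K := by exact_mod_cast hK1
  have hR1' : (1 : ℝ) ≤ R := by exact_mod_cast hR1
  obtain ⟨T1, hT1, h1⟩ := hE K
  obtain ⟨T2, hT2, h2⟩ := hH K R hK1 hR1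
  have hev : ∀ᶠ T : ℝ in atTop, 2 * Real.log T + 7 ≤ T / 2 := by
    have h1 : (fun T : ℝ => 2 * Real.log T + 7) =o[atTop] fun T : ℝ => T :=
      (Real.isLittleO_log_id_atTop.const_mul_left 2).add (Asymptotics.isLittleO_const_id_atTop _)
    have h2 := h1.bound (c := 1 / 2) (by norm_num)
    filter_upwards [h2, eventually_ge_atTop 1] with T hT hT1
    rw [Real.norm_of_nonneg (by linarith : (0 : ℝ) ≤ T)] at hT
    have := (le_abs_self _).trans hT
    linarith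
  obtain ⟨T4, hT4⟩ := (hev.and (((Real.tendsto_log_atTop.eventually_ge_atTop
    (2 * (K : ℝ) * Real.log (2 * K))).and (Real.tendsto_log_atTop.eventually_ge_atTop (2 * Real.pi * (2 * K)))).and
    (Real.tendsto_log_atTop.eventually_ge_atTop (1 : ℝ)))).exists_forall_of_atTop
  refine ⟨max (max T1 T2) (max T3 T4), hT1.trans ((le_max_left _ _).trans (le_max_left _ _)), fun T hT => ?_⟩
  have hTT1 : T1 ≤ T := ((le_max_left _ _).trans (le_max_left _ _)).trans hT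
  have hTT2 : T2 ≤ T := ((le_max_right _ _).trans (le_max_left _ _)).trans hT
  have hTT3 : T3 ≤ T := ((le_max_left _ _).trans (le_max_right _ _)).trans hT
  obtain ⟨g1, ⟨g2, g3⟩, g4⟩ := hT4 T (((le_max_right _ _).trans (le_max_right _ _)).trans hT)
  have hT10 : 10 ≤ T := hT1.trans hTT1
  have hT1' : 1 < T := by linarith
  have hL : 0 < Real.log T := Real.log_pos hT1'
  have hpi := Real.pi_pos
  have hu : 0 < 2 * Real.pi / Real.log T := by positivity
  have hL3' : (2 : ℝ) ≤ L := by exact_mod_cast hL3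
  have hlL : 0 < Real.log (L : ℝ) := Real.log_pos (by linarith)
  obtain ⟨η, hηd⟩ : ∃ η : ℝ, η = η0 * (L * Real.log L) := ⟨_, rfl⟩
  have hη0 : 0 < η := by rw [hηd]; positivity
  rw [← hηd] at hnum ⊢
  obtain ⟨A, hA⟩ : ∃ A : ℝ, A = T + Real.log T := ⟨_, rfl⟩
  obtain ⟨B, hB⟩ : ∃ B : ℝ, B = 2 * T - Real.log T - 7 := ⟨_, rfl⟩
  have q2 := h2 T hTT2
  have q1 := h1 T hTT1
  rw [← hA, ← hB] at q2 ⊢
  simp only [← hA, ← hB] at q1
  have hsub : Set.Icc A B ⊆ Set.Icc (T + 1) (2 * T - 1) :=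
    Set.Icc_subset_Icc (by rw [hA]; linarith) (by rw [hB]; linarith)
  have hEm : Measurable fun t => ∑ i ∈ Finset.Icc 1 K, E lam T i t ^ 2 :=
    Finset.measurable_sum _ fun i _ => (E_meas lam T i).pow_const 2
  have hEi : IntegrableOn (fun t => ∑ i ∈ Finset.Icc 1 K, E lam T i t ^ 2) (Set.Icc A B) :=
    integrable_finsetSum _ fun i _ => E_int hT1' lam i A B
  refine ⟨Bd T ((2 * K : ℕ) : ℝ) 0 K ∪ ((Set.Icc A B ∩ {t | η ≤ Hb lam T R K t}) ∪
    (Set.Icc A B ∩ {t | η ≤ ∑ i ∈ Finset.Icc 1 K, E lam T i t ^ 2})), ?_, ?_, ?_, ?_⟩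
  · exact (Bd_meas _ _ _ _).union ((measurableSet_Icc.inter (measurableSet_le measurable_const (Hb_meas _ _ _ _))).union
      (measurableSet_Icc.inter (measurableSet_le measurable_const hEm)))
  · rintro t (ht | ht | ht)
    · exact ht.1
    · exact hsub ht.1
    · exact hsub ht.1
  · have b1 : volume.real (Bd T ((2 * K : ℕ) : ℝ) 0 K) ≤ θ / 3 * T := by
      have c1 := hBd T hTT3 ((2 * K : ℕ) : ℝ) 0 K (2 * K) (by linarith) (by linarith) (by
        rw [sub_zero, abs_of_nonneg (Nat.cast_nonneg _)]; push_cast; exact le_refl _) g2 (by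
        rw [abs_of_nonneg (Nat.cast_nonneg _), ← mul_div_assoc, div_le_one hL]
        push_cast
        linarith) (by rw [abs_zero, zero_mul]; norm_num)
      refine c1.trans ?_
      rw [mul_comm]
      apply mul_le_mul_of_nonneg_right _ (by linarith)
      have c2 : Real.log (1 + 2 * (K : ℝ)) ≤ 2 * K := by
        have := Real.log_le_sub_one_of_pos (by linarith : (0 : ℝ) < 1 + 2 * K)
        linarith
      have c3 : 3 * (C3 + 3) / θ ≤ K := by
        have d1 : 3 * (C3 + 3) / θ ≤ (⌈3 * (C3 + 3) / θ⌉₊ : ℝ) := Nat.le_ceil _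
        have d2 : ((⌈3 * (C3 + 3) / θ⌉₊ : ℕ) : ℝ) ≤ K := by exact_mod_cast hLbig.trans hKL
        linarith
      rw [div_le_iff₀ hθ] at c3
      rw [div_le_iff₀ (by positivity)]
      have c4 : C3 + Real.log (1 + 2 * (K : ℝ)) ≤ (C3 + 3) * K := by nlinarith
      have c5 : (C3 + 3) * K ≤ θ / 3 * (K : ℝ) ^ 2 := by
        have : θ / 3 * (K : ℝ) ^ 2 = (K * θ) * K / 3 := by ring
        rw [this]
        have := mul_le_mul_of_nonneg_right c3 (by linarith : (0 : ℝ) ≤ K)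
        linarith
      linarith
    have b2 : volume.real (Set.Icc A B ∩ {t | η ≤ Hb lam T R K t}) ≤ θ / 3 * T := by
      refine (cheb (Hb_intg hT1' lam R K A B) (Hb_meas _ _ _ _) (Hb_nonneg lam T R K) hη0 q2).trans ?_
      rw [div_le_iff₀ hη0]
      have := mul_le_mul_of_nonneg_left hnum (by linarith : 0 ≤ T)
      linarith
    have b3 : volume.real (Set.Icc A B ∩ {t | η ≤ ∑ i ∈ Finset.Icc 1 K, E lam T i t ^ 2}) ≤ θ / 3 * T := by
      have c1 : ∫ t in Set.Icc A B, ∑ i ∈ Finset.Icc 1 K, E lam T i t ^ 2 ≤ K * (C * T) := by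
        rw [integral_finsetSum _ (fun i _ => E_int hT1' lam i A B)]
        refine (Finset.sum_le_sum fun i hi => q1 i (Finset.mem_Icc.1 hi).2).trans (le_of_eq ?_)
        rw [Finset.sum_const, Nat.card_Icc, nsmul_eq_mul, Nat.add_sub_cancel]
      refine (cheb hEi hEm (fun t => by positivity) hη0 c1).trans ?_
      rw [div_le_iff₀ hη0]
      have c2 : (K : ℝ) * C ≤ θ / 3 * η := by
        refine le_trans ?_ hnum
        apply mul_le_mul_of_nonneg_left _ (by linarith)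
        have c3 : 0 ≤ Real.log (2 * (R : ℝ) + 2) := Real.log_nonneg (by linarith)
        have c4 : 0 ≤ (R + 1) * (1 + Real.log (2 * R + 2)) := by positivity
        have c5 : 0 ≤ (1 + Real.log (3 * K)) ^ 2 / (R : ℝ) ^ 2 := by positivity
        nlinarith
      have := mul_le_mul_of_nonneg_left c2 (by linarith : 0 ≤ T)
      linarith
    have b4 := measureReal_union_le (μ := volume) (Bd T ((2 * K : ℕ) : ℝ) 0 K)
      ((Set.Icc A B ∩ {t | η ≤ Hb lam T R K t}) ∪ (Set.Icc A B ∩ {t | η ≤ ∑ i ∈ Finset.Icc 1 K, E lam T i t ^ 2}))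
    have b5 := measureReal_union_le (μ := volume) (Set.Icc A B ∩ {t | η ≤ Hb lam T R K t})
      (Set.Icc A B ∩ {t | η ≤ ∑ i ∈ Finset.Icc 1 K, E lam T i t ^ 2})
    linarith
  · intro t ht htB
    rw [Set.mem_union, Set.mem_union, not_or, not_or] at htB
    obtain ⟨n1, n2, n3⟩ := htB
    have e2 : Hb lam T R K t < η := by
      by_contra hc
      push Not at hc
      exact n2 ⟨ht, hc⟩
    have e3 : ∑ i ∈ Finset.Icc 1 K, E lam T i t ^ 2 < η := by
      by_contra hc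
      push Not at hc
      exact n3 ⟨ht, hc⟩
    have e1 : NZ t + K ≤ NZ (t + ((2 * K : ℕ) : ℝ) * (2 * Real.pi / Real.log T)) := by
      by_contra hc
      push Not at hc
      apply n1
      refine ⟨hsub ht, ?_⟩
      rw [zero_mul, add_zero, sub_zero]
      have f1 : (NZ (t + ((2 * K : ℕ) : ℝ) * (2 * Real.pi / Real.log T)) : ℝ) < NZ t + K := by exact_mod_cast hc
      have f2 := neg_abs_le ((NZ (t + ((2 * K : ℕ) : ℝ) * (2 * Real.pi / Real.log T)) : ℝ) - NZ t - ((2 * K : ℕ) : ℝ))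
      push_cast at f2 ⊢
      push_cast at f1
      linarith
    exact ⟨(rho_all hT1' hR1 hRK e1).trans e2.le, e3.le⟩

end Pool.Agent.X112.WD
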