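import Pool.Agent.X112.WD.Bk
import Pool.Agent.X112.GS.Conc
import Pool.Agent.X112.GS.Nc

/-! # The width theorem for the ordinates -/

set_option autoImplicit false

namespace Pool.Agent.X112.WD

open MeasureTheory Filter Topology Module
open SG (ord NZ)
open Pool.Agent.X112.GS (dyadicU)

theorem zblock (ε : ℝ) (hε : 0 < ε) (hε1 : ε ≤ 1) (θ : ℝ) (hθ : 0 < θ) :
    ∀ᶠ L : ℕ in atTop, ∃ T1 : ℝ, 10 ≤ T1 ∧ ∀ T : ℝ, T1 ≤ T → ∀ (V : Submodule ℝ (Fin L → ℝ)) (p : Fin L → ℝ),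
      (finrank ℝ V : ℝ) ≤ (L : ℝ) ^ (1 - ε) → ∀ F : Finset ℕ, F ⊆ Finset.Ioc (NZ T) (NZ (2 * T)) →
      (∀ n ∈ F, ∃ y ∈ V, ∃ b : ℝ, ∑ j : Fin L, ((ord (n + j + 1) - ord n) / (2 * Real.pi / Real.log T) -
        (b * p j + y j)) ^ 2 ≤ ε / 1000 * (L * Real.log L)) →
      (F.card : ℝ) ≤ θ * (T * Real.log T / (2 * Real.pi)) := by
  obtain ⟨h, hh, T0, hT0, hpalm⟩ := palm_block (θ / 2) (by positivity)
  filter_upwards [tblock ε hε hε1 (θ / 2) (by positivity) h hh] with L hL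
  obtain ⟨T1, hT1, hL⟩ := hL
  refine ⟨max T0 T1, hT1.trans (le_max_right _ _), fun T hT V p hV F hF hFe => ?_⟩
  obtain ⟨D, hDm, hDs, hDv, hD⟩ := hL T ((le_max_right _ _).trans hT) V p hV
  have hT10 : 10 ≤ T := (hT1.trans (le_max_right _ _)).trans hT
  have hlT : 0 < Real.log T := Real.log_pos (by linarith)
  have hpi := Real.pi_pos
  have h1 := hpalm T ((le_max_left _ _).trans hT) F D hDm hDs hF (by
    intro n hn t ht i hi1 hi2 hni
    obtain ⟨y, hy, b, hyb⟩ := hFe n hn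
    refine hD t ht i hi1 hi2 ⟨y, hy, gp T i t, b, le_trans (le_of_eq ?_) hyb⟩
    refine Finset.sum_congr rfl fun j _ => ?_
    congr 1
    unfold gp
    rw [hni, show NZ t + (i + (j : ℕ) + 1) = NZ t + i + j + 1 by ring]
    ring)
  refine h1.trans ?_
  have h2 : (volume.real D + θ / 2 * T) * (Real.log T / (2 * Real.pi)) ≤ (θ * T) * (Real.log T / (2 * Real.pi)) := by
    apply mul_le_mul_of_nonneg_right _ (by positivity)
    linarith
  refine h2.trans (le_of_eq ?_)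
  ring

theorem width_fin (ε : ℝ) (hε : 0 < ε) (hε1 : ε ≤ 1) (θ : ℝ) (hθ : 0 < θ) :
    ∀ᶠ L : ℕ in atTop, ∀ᶠ N : ℕ in atTop, ∀ (V : Submodule ℝ (Fin L → ℝ)) (p : Fin L → ℝ),
      (finrank ℝ V : ℝ) ≤ (L : ℝ) ^ (1 - ε) →
      ({n : ℕ | 1 ≤ n ∧ n ≤ N ∧ ∃ y ∈ V, ∑ j : Fin L, ((ord (n + j + 1) - ord n) * Real.log (ord n) / (2 * Real.pi) -
        (p j + y j)) ^ 2 ≤ ε / 1000 * (L * Real.log L)}.ncard : ℝ) ≤ θ * N := by
  classical
  have hpi := Real.pi_pos
  filter_upwards [zblock ε hε hε1 (θ / 17) (by positivity), eventually_ge_atTop 1] with L hL hL1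
  obtain ⟨T1, hT1, hL⟩ := hL
  have hL1' : (1 : ℝ) ≤ L := by exact_mod_cast hL1
  filter_upwards [dyadicU (θ / 17) T1 (by positivity) (by linarith)] with N hN V p hV
  rw [Pool.Agent.X112.GS.nc]
  refine (hN _ (fun n => Classical.propDecidable _) fun T hT => ?_).trans (le_of_eq (by ring))
  refine hL T hT V p hV _ (Finset.filter_subset _ _) ?_
  intro n hn
  rw [Finset.mem_filter, Finset.mem_Ioc] at hn
  obtain ⟨⟨a1, a2⟩, y, hy, hyb⟩ := hn
  have hT10 : 10 ≤ T := hT1.trans hT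
  have hlT : 0 < Real.log T := Real.log_pos (by linarith)
  have hxT : T ≤ ord n := by
    by_contra hcon
    push Not at hcon
    have := (SG.ord_le_iff (by omega) T).mp hcon.le
    omega
  have hlx : Real.log T ≤ Real.log (ord n) := Real.log_le_log (by linarith) hxT
  have hlx0 : 0 < Real.log (ord n) := by linarith
  obtain ⟨q, hq⟩ : ∃ q : ℝ, q = Real.log T / Real.log (ord n) := ⟨_, rfl⟩
  have hq0 : 0 ≤ q := by rw [hq]; positivity
  have hq1 : q ≤ 1 := by rw [hq, div_le_one hlx0]; exact hlx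
  refine ⟨q • y, V.smul_mem q hy, q, ?_⟩
  have e : ∀ j : Fin L, ((ord (n + j + 1) - ord n) / (2 * Real.pi / Real.log T) - (q * p j + (q • y) j)) ^ 2 =
      q ^ 2 * ((ord (n + j + 1) - ord n) * Real.log (ord n) / (2 * Real.pi) - (p j + y j)) ^ 2 := by
    intro j
    rw [← mul_pow, Pi.smul_apply, smul_eq_mul]
    congr 1
    have : Real.log T = q * Real.log (ord n) := by
      rw [hq]
      field_simp
    rw [this]
    field_simp
  simp only [e]
  rw [← Finset.mul_sum]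
  have hq2 : q ^ 2 ≤ 1 := pow_le_one₀ hq0 hq1
  have hs0 : 0 ≤ ∑ j : Fin L, ((ord (n + j + 1) - ord n) * Real.log (ord n) / (2 * Real.pi) - (p j + y j)) ^ 2 := by
    positivity
  nlinarith

end Pool.Agent.X112.WD
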